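import Pool.Agent.Lib.MP_ef3f0f_gt.Z.Defs
import Pool.Agent.Lib.MP_ef3f0f_gt.N.SLtop

set_option autoImplicit false

/-!
# MP_ef3f0f_gt, Part II (equidistribution of the third edge): definitions

Real valued bounded measurable `Γ`-invariant functions on `P × H`.
-/

namespace Pool.Agent.MPEF

open MeasureTheory Topology
open scoped ENNReal Pointwise

instance instMeasSL2 : MeasurableSpace SL2 := borel SL2
instance instBorelSL2 : BorelSpace SL2 := ⟨rfl⟩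
instance instLCSL2 : LocallyCompactSpace SL2 := tSLtop.1
instance instSCSL2 : SecondCountableTopology SL2 := tSLtop.2.1

section
variable {P H : Type} [Group P] [Group H] [MeasurableSpace P] [MeasurableSpace H]

/-- Bounded measurable `Γ`-invariant functions. -/
structure BI (D : Dat P H) (f : P × H → ℝ) : Prop where
  meas : Measurable f
  bdd : ∃ C : ℝ, ∀ x, |f x| ≤ C
  inv : ∀ γ ∈ D.Γ, ∀ x, f (γ * x) = f x

/-- Bounded measurable kernels with compact support on `P`. -/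
structure KB [TopologicalSpace P] (k : P → ℝ≥0∞) : Prop where
  meas : Measurable k
  bdd : ∃ C : ℝ≥0∞, C ≠ ∞ ∧ ∀ g, k g ≤ C
  supp : ∃ K : Set P, IsCompact K ∧ ∀ g, g ∉ K → k g = 0

/-- Averaging over `H`. -/
noncomputable def TT (D : Dat P H) (f : P × H → ℝ) : P × H → ℝ :=
  fun x => ∫ h, (D.ν h).toReal * f (x * ((1 : P), h)) ∂D.μ₂

/-- Averaging over `P` with the kernel `k`. -/
noncomputable def RR (D : Dat P H) (k : P → ℝ≥0∞) (f : P × H → ℝ) : P × H → ℝ :=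
  fun x => ∫ q, (k q).toReal * f (x * (q, (1 : H))) ∂D.μ₁

/-- Inner product. -/
noncomputable def ip (D : Dat P H) (f g : P × H → ℝ) : ℝ :=
  ∫ x, (D.χ x).toReal * (f x * g x) ∂D.μ

/-- Norm squared. -/
noncomputable def ns (D : Dat P H) (f : P × H → ℝ) : ℝ := ip D f f

/-- Mean. -/
noncomputable def mn (D : Dat P H) (f : P × H → ℝ) : ℝ := ∫ x, (D.χ x).toReal * f x ∂D.μ

/-- Right translation by an element of `H`. -/
def tau (h : H) (f : P × H → ℝ) : P × H → ℝ := fun x => f (x * ((1 : P), h))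

/-- Average over `{x₁} × O^c`. -/
noncomputable def g1 (D : Dat P H) (c : ℕ) (g : P × H → ℝ) : P → ℝ :=
  fun x => (D.μ₂ (D.O ^ c)).toReal⁻¹ * ∫ y in D.O ^ c, g (x, y) ∂D.μ₂

/-- Convolution on `P`. -/
noncomputable def cvP (D : Dat P H) (k k' : P → ℝ≥0∞) : P → ℝ≥0∞ :=
  fun s => ∫⁻ q, k q * k' (q⁻¹ * s) ∂D.μ₁

/-- The smoothed kernel `κ^{*21} * k * κ`. -/
noncomputable def ksm (D : Dat P H) (κ k : P → ℝ≥0∞) : P → ℝ≥0∞ :=
  (cvP D κ)^[21] (cvP D k κ)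

/-- Weak spectral gap for the kernel `κ` (II.2). -/
def WG (D : Dat P H) (κ : P → ℝ≥0∞) : Prop :=
  ∃ C₁ : ℝ, 0 ≤ C₁ ∧ ∀ δ : ℝ, 0 < δ → δ < 1 → ∀ f : P × H → ℝ, BI D f → mn D f = 0 →
    (1 - δ ^ 2) * ns D (RR D κ f) ≤ ns D (TT D (RR D κ f)) →
    ns D (RR D κ f) ≤ C₁ * δ * ns D f

/-- Equidistribution of the third edge with error `e n`. -/
def Equi (D : Dat P H) (ka : Ty → P → ℝ≥0∞) (e : ℕ → ℝ≥0∞) : Prop :=
  ∀ a n, 3 ≤ n → ∀ x y,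
    D.N (D.tk (ka a) n) x y ≤ (∫⁻ g, ka a g ∂D.μ₁) + e n ∧
    (∫⁻ g, ka a g ∂D.μ₁) ≤ D.N (D.tk (ka a) n) x y + e n

/-- Good errors. -/
def Rate (e : ℕ → ℝ≥0∞) : Prop :=
  Filter.Tendsto (fun n : ℕ => (n : ℝ≥0∞) ^ 4 * e n) Filter.atTop (nhds 0)

end

/-- Lipschitz kernels on `SL₂(ℝ)` supported in the ball of radius `ε ≤ 1/4`, of integral one. -/
structure LipK (μ : Measure SL2) (κ : SL2 → ℝ≥0∞) (ε : ℝ) : Prop where
  meas : Measurable κ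
  bdd : ∃ C : ℝ≥0∞, C ≠ ∞ ∧ ∀ g, κ g ≤ C
  supp : ∀ g, g ∉ Bs ε → κ g = 0
  int : ∫⁻ g, κ g ∂μ = 1
  lip : ∃ C : ℝ, 0 ≤ C ∧ ∀ s : ℝ, 0 < s → s ≤ 1 / 2 → ∀ θ ∈ Bs s, ∀ q : SL2,
    |(κ (θ⁻¹ * q)).toReal - (κ q).toReal| ≤ C * s ∧ (q ∉ Bs 1 → κ (θ⁻¹ * q) = κ q)

end Pool.Agent.MPEF
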