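import Pool.Agent.Lib.MP_ef3f0f_gt.Z.Spec
import Pool.Agent.Lib.MP_ef3f0f_gt.N.Spec
import Pool.Agent.Lib.MP_ef3f0f_gt.Q.Defs

set_option autoImplicit false

/-!
# MP_ef3f0f_gt, Part II (equidistribution of the third edge): the statements

Modules `Q/X.lean`: `theorem tX : S_Y P H → ... → S_X P H`, in a section with the same `variable` line
(explicit `P H`), namespace `Pool.Agent.MPEF`. Norm of `f` = `√(ns D f)`. All functions are real valued,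
bounded, measurable; integrals over `x` with the weight `χ` (bounded, compact support).
-/

namespace Pool.Agent.MPEF

open MeasureTheory Topology
open scoped ENNReal Pointwise

section General

variable (P H : Type) [Group P] [Group H] [TopologicalSpace P] [TopologicalSpace H]
  [IsTopologicalGroup P] [IsTopologicalGroup H] [LocallyCompactSpace P] [LocallyCompactSpace H]
  [T2Space P] [T2Space H] [SecondCountableTopology P] [SecondCountableTopology H]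
  [MeasurableSpace P] [MeasurableSpace H] [BorelSpace P] [BorelSpace H]

/-- Algebra of `BI` functions. Proof. `χ` is bounded by `1`, measurable, with integral `1`, so `χ.toReal * (bounded measurable)`
is integrable. Cauchy - Schwarz: discriminant of `t ↦ ns (f + t g)`. -/
def S_BI : Prop :=
  ∀ D : Dat P H, D.Ok →
    (∀ f g, BI D f → BI D g → BI D (fun x => f x + g x) ∧ BI D (fun x => f x - g x)) ∧
    (∀ (c : ℝ) (f), BI D f → BI D fun x => c * f x) ∧ (∀ c : ℝ, BI D fun _ => c) ∧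
    (∀ f g, BI D f → BI D g → Integrable (fun x => (D.χ x).toReal * (f x * g x)) D.μ) ∧
    (∀ f, BI D f → Integrable (fun x => (D.χ x).toReal * f x) D.μ) ∧
    (∀ f g, ip D f g = ip D g f) ∧
    (∀ f g h, BI D f → BI D g → BI D h → ip D (fun x => f x + g x) h = ip D f h + ip D g h) ∧
    (∀ f g h, BI D f → BI D g → BI D h → ip D (fun x => f x - g x) h = ip D f h - ip D g h) ∧
    (∀ (c : ℝ) (f g), ip D (fun x => c * f x) g = c * ip D f g) ∧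
    (∀ f, 0 ≤ ns D f) ∧ (∀ f g, BI D f → BI D g → ip D f g ^ 2 ≤ ns D f * ns D g) ∧
    (∀ f g, BI D f → BI D g →
      Real.sqrt (ns D fun x => f x + g x) ≤ Real.sqrt (ns D f) + Real.sqrt (ns D g)) ∧
    (∀ f g, BI D f → BI D g → ns D (fun x => f x - g x) ≤ 2 * ns D f + 2 * ns D g) ∧
    (∀ c : ℝ, mn D (fun _ => c) = c) ∧ (∀ f, mn D f = ip D f fun _ => 1) ∧
    (∀ f g, BI D f → BI D g → mn D (fun x => f x - g x) = mn D f - mn D g) ∧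
    (∀ f, BI D f → ENNReal.ofReal (ns D f) = D.IM fun x => ENNReal.ofReal (f x ^ 2))

/-- The operators. Proof. `TT`, `RR`, `tau` act on the right, so they preserve left invariance; Fubini on `P × H`; the shift
rule (`S_IM` (1)) gives `ip (tau h f) (tau h g) = ip f g`; self-adjointness of `TT` by `ν h⁻¹ = ν h` and inversion
invariance; contraction by Jensen (or Cauchy - Schwarz) for the probability density `ν` resp. the density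
`k`, and the shift rule. Last one: `∫ ν^(2)(v) ns (tau v g - g) = 2 ns g - 2 ip (TT (TT g)) g`
(`TT (TT g) (x) = ∫ ν^(2)(v) g(x v)`). -/
def S_TR : Prop :=
  ∀ D : Dat P H, D.Ok →
    (∀ f, BI D f → BI D (TT D f)) ∧ (∀ k f, KB k → BI D f → BI D (RR D k f)) ∧
    (∀ h f, BI D f → BI D (tau h f)) ∧
    (∀ k f, KB k → BI D f → TT D (RR D k f) = RR D k (TT D f)) ∧
    (∀ f g, BI D f → BI D g → ip D (TT D f) g = ip D f (TT D g)) ∧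
    (∀ f, BI D f → ns D (TT D f) ≤ ns D f) ∧
    (∀ k f, KB k → BI D f → ns D (RR D k f) ≤ (∫⁻ q, k q ∂D.μ₁).toReal ^ 2 * ns D f) ∧
    (∀ f, BI D f → mn D (TT D f) = mn D f) ∧
    (∀ k f, KB k → BI D f → mn D (RR D k f) = (∫⁻ q, k q ∂D.μ₁).toReal * mn D f) ∧
    (∀ f g, BI D f → BI D g → TT D (fun x => f x - g x) = fun x => TT D f x - TT D g x) ∧
    (∀ k f g, KB k → BI D f → BI D g →
      RR D k (fun x => f x - g x) = fun x => RR D k f x - RR D k g x) ∧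
    (∀ c : ℝ, TT D (fun _ => c) = fun _ => c) ∧
    (∀ (k) (c : ℝ), KB k → RR D k (fun _ => c) = fun _ => (∫⁻ q, k q ∂D.μ₁).toReal * c) ∧
    (∀ h f g, BI D f → BI D g → ip D (tau h f) (tau h g) = ip D f g) ∧
    (∀ g, BI D g → ∫ v, (D.nu 2 v).toReal * ns D (fun x => tau v g x - g x) ∂D.μ₂ =
      2 * (ns D g - ns D (TT D g)))

/-- Local bound, uniform in left translates. Proof. `∫_K f(y k)² dk = ∫_{y K} f² = ∫ ∑_γ χ(γ x) 1_{yK}(x) f(x)² =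
∫ χ(x) f(x)² #{γ | γ x ∈ y K}`, and the number is `N 1_K y x`, bounded by `S_Up` for
`k = 1_{K₁}` and `ν ≥ c` ... : cover `K` by a product of compact sets `K₁ × K₂`, `K₂ ⊆ O^n`, `ν^(n) ≥ c > 0` on `K₂`. -/
def S_loc : Prop :=
  ∀ D : Dat P H, D.Ok → ∀ K : Set (P × H), IsCompact K → ∃ C : ℝ, 0 ≤ C ∧
    ∀ (y : P × H) (f), BI D f → ∫ k in K, f (y * k) ^ 2 ∂D.μ ≤ C * ns D f

/-- (a) of II.2. Proof. `W` a symmetric open neighbourhood of `1` with `closure O * closure W ⊆ O²`; `ν^(2)` is lower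
semicontinuous and positive on the compact set `closure (O W) ⊆ O²`, so `ν^(2) ≥ c > 0` on `W ∪ O W`. For `h ∈ O`, `w ∈ W`:
`‖tau h g - g‖² ≤ 2 ‖tau h g - tau (h w) g‖² + 2 ‖tau (hw) g - g‖²` and `tau (h w) g = tau h (tau w g)`, so the first norm is `‖g - tau w g‖`. Integrate
over `w ∈ W`: `μ₂(W) ‖tau h g - g‖² ≤ (4/c) ∫ ν^(2)(v) ‖tau v g - g‖² dv = (8/c) (ns g - ns (TT g)) ≤ (8/c) δ² ns g`
(`S_TR`, last part). For `h ∈ O^l`: product of `l` elements of `O`, triangle inequality for `√ns`. -/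
def S_a : Prop :=
  ∀ D : Dat P H, D.Ok → ∃ C : ℝ, 0 ≤ C ∧ ∀ δ : ℝ, 0 ≤ δ → ∀ g, BI D g →
    (1 - δ ^ 2) * ns D g ≤ ns D (TT D g) → ∀ (l : ℕ) (h : H), h ∈ D.O ^ l →
      ns D (fun x => tau h g x - g x) ≤ C * (l : ℝ) ^ 2 * δ ^ 2 * ns D g

/-- (b) of II.2. Proof. Jensen: `(g(x,y) - g₁(x))² ≤ ⨍ (g(x,y) - g(x,y'))² dy'`; `y' = y h`, `h ∈ O^(2c)` (`O^c` symmetric):
`∫_K ∫_{O^c} ⨍ ≤ C ∫_{h ∈ O^(2c)} ∫_{K × O^c} (g - tau h g)² ≤ C' ∫_{h ∈ O^(2c)} ns (g - tau h g)` (`S_loc`), then `S_a`. -/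
def S_b : Prop :=
  ∀ D : Dat P H, D.Ok → ∀ K : Set P, IsCompact K → ∀ c : ℕ, 1 ≤ c → ∃ C : ℝ, 0 ≤ C ∧
    ∀ δ : ℝ, 0 ≤ δ → ∀ g, BI D g → (1 - δ ^ 2) * ns D g ≤ ns D (TT D g) →
      ∫ x in K, ∫ y in D.O ^ c, (g (x, y) - g1 D c g x) ^ 2 ∂D.μ₂ ∂D.μ₁ ≤ C * δ ^ 2 * ns D g

/-- (c) of II.2. Proof. By invariance `g(γ₁ x, y) = g(x, γ₂⁻¹ y)`, so `g₁(γ₁ x) = ⨍_{O^c} g(x, γ₂⁻¹ y) dy`. Let
`p_0 = γ₂⁻¹, ..., p_L = 1` with `p_i⁻¹ p_{i+1} ∈ O` (`γ₂ = o_1 ⋯ o_L`, `p_i = o_L⁻¹ ⋯ o_{i+1}⁻¹`), `A_i(x) = ⨍ g(x, p_i y) dy`.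
`(A_i(x) - A_{i+1}(x))² ≤ ⨍⨍ (g(x, p_i y) - g(x, p_{i+1} y'))² dy dy'`, and `p_{i+1} y' = p_i y h` with
`h = y⁻¹ (p_i⁻¹ p_{i+1}) y' ∈ O^(2c+1)`, so `∫_K (A_i - A_{i+1})² ≤ C ∫_{h ∈ O^(2c+1)} ∫_{K × O^c} (g - tau h g)²((1,p_i) · (x,y))`, which
is `≤ C' ∫_h ns (g - tau h g)` by `S_loc` (uniform in `p_i`), `≤ C'' δ² ns g` by `S_a`. Triangle inequality in `L²(K)` for `L` steps. -/
def S_c : Prop :=
  ∀ D : Dat P H, D.Ok → ∀ K : Set P, IsCompact K → ∀ c : ℕ, 1 ≤ c → ∃ C : ℝ, 0 ≤ C ∧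
    ∀ δ : ℝ, 0 ≤ δ → ∀ g, BI D g → (1 - δ ^ 2) * ns D g ≤ ns D (TT D g) →
    ∀ γ ∈ D.Γ, ∀ L : ℕ, 1 ≤ L → γ.2 ∈ D.O ^ L →
      ∫ x in K, (g1 D c g (γ.1 * x) - g1 D c g x) ^ 2 ∂D.μ₁ ≤ C * (L : ℝ) ^ 2 * δ ^ 2 * ns D g

/-- Covering by a product. Proof. `S_Lo` for `k = 1_U`, `x = 1`: some `u ∈ Γ` with `u y ∈ U × O^b`. -/
def S_cov : Prop :=
  ∀ D : Dat P H, D.Ok → ∀ U : Set P, IsOpen U → U.Nonempty →
    ∃ c : ℕ, 1 ≤ c ∧ ∀ x : P × H, ∃ γ ∈ D.Γ, γ * x ∈ U ×ˢ (D.O ^ c)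

/-- Variance. Proof. `∫∫ χ(x) χ(x') (g x - g x')² = 2 ns g - 2 (mn g)²`; and for an invariant `F ≥ 0`:
`∫ χ F ≤ ∫ χ(x) ∑_γ 1_E(γ x) F(x) = ∫_E F` (unfold; `∑_γ 1_E(γ x) ≥ 1`), twice. -/
def S_var : Prop :=
  ∀ D : Dat P H, D.Ok → ∀ E K : Set (P × H), MeasurableSet E → IsCompact K → E ⊆ K →
    (∀ x : P × H, ∃ γ ∈ D.Γ, γ * x ∈ E) → ∀ g, BI D g → mn D g = 0 →
      2 * ns D g ≤ ∫ x in E, ∫ x' in E, (g x - g x') ^ 2 ∂D.μ ∂D.μ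

/-- The iteration of II.1. Proof. Let `‖f‖ = √(ns f)`, `a_j(m) = ‖TT^m (RR κ)^j f‖`, decreasing in `m` (`TT` is a contraction and
commutes with `RR κ`; `mn` stays `0`). By `WG` for `g = TT^m (RR κ)^j f = RR κ (TT^m (RR κ)^(j-1) f)`: either
`a_j(m+1)² < (1-δ²) a_j(m)²` or `a_j(m)² ≤ C₁ δ a_(j-1)(m)²`. Let `C₁ δ ≤ 1`, `δ < 1`. By induction on `j`
`a_j(j m)² ≤ max ((1-δ²)^m) ((C₁ δ)^j) ‖f‖²`: if the first alternative holds for all times in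
`[(j-1) m, j m)` then `a_j(jm)² ≤ (1-δ²)^m ‖f‖²`; otherwise at some time `m'` of this interval
`a_j(j m)² ≤ a_j(m')² ≤ C₁ δ a_(j-1)(m')² ≤ C₁ δ a_(j-1)((j-1) m)²` (and `(1-δ²)^m C₁ δ ≤ (1-δ²)^m`). For `j = 20`, `δ² = 40 (log m)/m`: `(1-δ²)^m ≤ m^(-40)`,
`(C₁ δ)^20 = C (log m / m)^10`. For `M ≥ 2` put `m = ⌊M/20⌋` (if `m` is small use the trivial bound `a ≤ ‖f‖` and a large `C`). -/
def S_iter : Prop :=
  ∀ D : Dat P H, D.Ok → ∀ κ : P → ℝ≥0∞, KB κ → ∫⁻ q, κ q ∂D.μ₁ = 1 → WG D κ →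
    ∃ C : ℝ, 0 ≤ C ∧ ∀ m : ℕ, 2 ≤ m → ∀ f, BI D f → mn D f = 0 →
      ns D ((TT D)^[m] ((RR D κ)^[20] f)) ≤ C * (Real.log m / m) ^ 10 * ns D f

/-- `N` as a matrix coefficient. Proof. `N K₁ (·) y` is left invariant, bounded (`S_Up`), measurable; its mean is `∫ κ` (`S_mg`).
For `k'` and `n ≥ 1`: `N (tk (cvP κ k') n) z y = ∫ κ(q) N (tk k' n) (z (q,1)) y dq` (Tonelli), i.e. it is `RR κ` of
`N (tk k' n) (·) y`; the same for `k * κ`; `N (tk κ (m+1)) z y = ∫ ν(h) N (tk κ m) (z (1,h)) y dh`, so it is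
`TT^m (N (tk κ 1) (·) y)`. The outermost `κ` and one `ν`: `tk (cvP κ k') (n + 1) = tk κ 1 * tk k' n`, and
`N_{K * K'} x y = IM_z N_K x z · N_{K'} z y` (`S_mg`, merging with `F = 1`). `toReal` of finite quantities. `KB` for `cvP`, `ksm`: bounded by
`sup k' ∫ κ`, compact support. -/
def S_Nf : Prop :=
  ∀ D : Dat P H, D.Ok → ∀ κ k : P → ℝ≥0∞, KB κ → KB k →
    KB (ksm D κ k) ∧ (∫⁻ q, ksm D κ k q ∂D.μ₁ = (∫⁻ q, κ q ∂D.μ₁) ^ 22 * ∫⁻ q, k q ∂D.μ₁) ∧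
    (∀ y, BI D (fun z => (D.N (D.tk κ 1) z y).toReal) ∧
      BI D (fun z => (D.N (D.tk κ 1) y z).toReal) ∧
      mn D (fun z => (D.N (D.tk κ 1) z y).toReal) = (∫⁻ q, κ q ∂D.μ₁).toReal ∧
      mn D (fun z => (D.N (D.tk κ 1) y z).toReal) = (∫⁻ q, κ q ∂D.μ₁).toReal) ∧
    (∃ C : ℝ, 0 ≤ C ∧ ∀ y z, (D.N (D.tk κ 1) y z).toReal ≤ C) ∧
    (∀ n x y, D.N (D.tk (ksm D κ k) n) x y ≠ ∞) ∧
    ∀ m : ℕ, 1 ≤ m → ∀ x y,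
      (D.N (D.tk (ksm D κ k) (m + 2)) x y).toReal =
        ip D (fun z => (D.N (D.tk κ 1) x z).toReal)
          ((RR D κ)^[20] (RR D k ((TT D)^[m] fun z => (D.N (D.tk κ 1) z y).toReal)))

/-- **Equidistribution** (II.1). Proof. In `S_Nf` write `f_y = 1 + (f_y - 1)`: `RR`, `TT` of the constant `1` give the constant `∫ k`, and
`ip (N x ·) (const) = const` (mean one). The rest: `f₀ = RR k (f_y - 1)` has mean zero and `ns f₀ ≤ (∫k)² C²`; the operators commute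
(`S_TR`): `(RR κ)^20 (RR k (TT^m f)) = TT^m ((RR κ)^20 (RR k f))`; Cauchy - Schwarz and `S_iter`: error
`≤ C (log m / m)^5`. `e n = ENNReal.ofReal (C (log (n-2) / (n-2))^5)` for `n ≥ 4` (and a large constant for `n ≤ 3`, `S_Up`), maximum over the finitely many `a` and over
the two families; `n⁴ e n → 0`. -/
def S_Equi : Prop :=
  ∀ D : Dat P H, D.Ok → ∀ κ : P → ℝ≥0∞, KB κ → ∫⁻ q, κ q ∂D.μ₁ = 1 → WG D κ →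
    ∀ k k' : Ty → P → ℝ≥0∞, (∀ a, KB (k a)) → (∀ a, KB (k' a)) →
      ∃ e : ℕ → ℝ≥0∞, Rate e ∧ Equi D (fun a => ksm D κ (k a)) e ∧
        Equi D (fun a => ksm D κ (k' a)) e

/-- The kernels `ka`, `kb`. Proof. `κ` is supported in `B 0`, so `κ^{*21}` in `(B 0)^21 ⊆ B 5` (`(B 0)^(2^k) ⊆ B k`, `1 ∈ B 0`) and `ka a` in
`B 5 * Om 1 * B 0 ⊆ Om 0` (`om` with `B 5, B 0 ⊆ B 9`); `ka ≤ 1` as `∫ κ = 1`. For `g ∈ Om 2`: `ksm κ 1_{Om 1} (g) =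
∫ κ^{*21}(p) ∫ κ(q) 1_{Om 1}(p⁻¹ g q⁻¹)`, and `p⁻¹ g q⁻¹ ∈ B 9 * Om 2 * B 9 ⊆ Om 1`, so the value is `1` (use inversion and
right invariance to write `(1_{Om 1} * κ)(s) = ∫ 1_{Om 1}(s q⁻¹) κ(q) dq`). The same for `kb` with levels `5`, `4`, `6`. -/
def S_KerOk : Prop :=
  ∀ D : Dat P H, D.Ok → ∀ G : Geo P, G.Ok → ∀ κ : P → ℝ≥0∞, Measurable κ →
    (∀ g, g ∉ G.B 0 → κ g = 0) → ∫⁻ q, κ q ∂D.μ₁ = 1 → ∀ M : ℕ,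
      KerOk G M (fun a => ksm D κ ((G.Om M a 1).indicator fun _ => 1))
        (fun a => ksm D κ ((G.Om M a 5).indicator fun _ => 1)) ∧
      ∀ a l, KB ((G.Om M a l).indicator fun _ => (1 : ℝ≥0∞))

end General

section SL

variable (H : Type) [Group H] [TopologicalSpace H] [IsTopologicalGroup H]
  [LocallyCompactSpace H] [T2Space H] [SecondCountableTopology H] [MeasurableSpace H]
  [BorelSpace H]

/-- Lipschitz kernels exist. Proof. `κ(q) = c max 0 (ε - nrm (q - 1))`, with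
`|nrm (θ⁻¹ q - 1) - nrm (q - 1)| ≤ nrm (θ⁻¹ q - q) ≤ nrm (θ⁻¹ - 1) nrm q ≤ s nrm q`. If `q` or `θ⁻¹ q` is in `Bs ε` then
`q ∈ Bs (1/2 + 1/4 + 1/8) ⊆ Bs 1` and `nrm q ≤ 3`; otherwise both values are `0`. -/
def S_kap : Prop :=
  ∀ μ : Measure SL2, μ.IsHaarMeasure → ∀ ε : ℝ, 0 < ε → ε ≤ 1 / 4 → ∃ κ, LipK μ κ ε

/-- (d) of II.2. Proof. `g = RR κ f`. For `θ ∈ Bs s`, `s ≤ 1/2`: `g(x (θ,1)) = ∫ κ(θ⁻¹ q) f(x (q,1)) dq`, so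
`|g(x (θ,1)) - g(x)| ≤ C s m(x)`, `m(x) = ∫_{Bs 1} |f(x (q,1))| dq`. For `x ∈ Bs (1/4)`: `γ₁ x = p x θ`,
`θ = x⁻¹ (p⁻¹ γ₁) x ∈ Bs (9 η)` (`S_Bs`). If `9 η ≤ 1/2`: `|g(γ₁ x, y) - g(p x, y)| ≤ 9 C η m(p x, y)`,
`m² ≤ C ∫_{Bs 1} f(px (q,1))² dq`, and the integral over `x ∈ Bs (1/4)`, `y ∈ O^c`, `q ∈ Bs 1` of `f((p x q, y))²` is at most
`C ∫_{K' × O^c} f²` with the compact set `K' ⊇ Bs 1 * Bs (1/4) * Bs 1` (left and right invariance of `μ₁`), `≤ C' ns f` by `S_loc`.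
Jensen for the average over `y`. If `9 η > 1/2`: trivial bound `∫ g₁(γ₁ x)² + g₁(p x)² ≤ C ns g ≤ C ns f` (`γ₁ x`, `p x` in a fixed compact
set, `S_loc`, `S_TR`). -/
def S_d : Prop :=
  ∀ D : Dat SL2 H, D.Ok → ∀ (κ : SL2 → ℝ≥0∞) (ε : ℝ), ε ≤ 1 / 4 → LipK D.μ₁ κ ε →
    ∀ c : ℕ, 1 ≤ c → ∃ C : ℝ, 0 ≤ C ∧ ∀ f, BI D f → ∀ p ∈ Bs 1, ∀ η : ℝ, 0 < η → η ≤ 1 →
      ∀ γ ∈ D.Γ, p⁻¹ * γ.1 ∈ Bs η →
        ∫ x in Bs (1 / 4), (g1 D c (RR D κ f) (γ.1 * x) - g1 D c (RR D κ f) (p * x)) ^ 2 ∂D.μ₁ ≤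
          C * η ^ 2 * ns D f

/-- Length structure of `Γ`. Proof. `E L = {γ₁ | γ ∈ Γ, γ₂ ∈ O^L}` satisfies `LenS` (`S_O`, `dense`, `νgen`); `S_Net`. -/
def S_NetG : Prop :=
  ∀ D : Dat SL2 H, D.Ok → ∃ ρ₀ C₇ : ℝ, 0 < ρ₀ ∧ 1 ≤ C₇ ∧ ∀ p ∈ Bs ρ₀, ∀ η : ℝ, 0 < η → η ≤ 1 →
    ∃ L : ℕ, 1 ≤ L ∧ (L : ℝ) ≤ C₇ / η ^ 2 ∧ ∃ γ ∈ D.Γ, γ.2 ∈ D.O ^ L ∧ p⁻¹ * γ.1 ∈ Bs η

/-- **Weak gap** (II.2, (e)). Proof. `ρ₀ ≤ 1` from `S_NetG`, `D₁ = Bs (ρ₀/4)`, `c` from `S_cov` for `U = D₁`, `E = D₁ × O^c`.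
Let `g = RR κ f` with `(1-δ²) ns g ≤ ns (TT g)`, `F = √(ns f)`, `G = √(ns g)`. For `p ∈ Bs ρ₀`, `η ∈ (0,1]` and `γ`, `L` from `S_NetG`:
in `L²(D₁)`: `‖g₁(p ·) - g₁‖ ≤ ‖g₁(p ·) - g₁(γ₁ ·)‖ + ‖g₁(γ₁ ·) - g₁‖ ≤ τ := C (η F + η⁻² δ G)` (`S_d`, `S_c` with `K = closure D₁`).
For `x, x' ∈ D₁`: `x' = p x`, `p ∈ Bs ρ₀`: `∫∫_{D₁²} (g₁ x - g₁ x')² ≤ ∫_{p ∈ Bs ρ₀} ∫_{D₁} (g₁(p x) - g₁ x)² ≤ C τ²` (right
invariance). `mn g = 0` (`S_TR`). By `S_var` and `(a+b+c)² ≤ 3(a²+b²+c²)`: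
`2 ns g ≤ ∫∫_{E²} (g x - g x')² ≤ C (δ² ns g + τ²)` (`S_b`). So `G ≤ C₆ (η⁻² δ G + η F)` (`η ≤ 1`). Put `η = √(2 C₆ δ)`: if `η ≤ 1`:
`G ≤ G/2 + C₆ η F`, `ns g ≤ 4 C₆² η² ns f = 8 C₆³ δ ns f`. If `η > 1`: `ns g ≤ ns f ≤ 2 C₆ δ ns f`. (We may assume `C₆ ≥ 1`.) -/
def S_WG : Prop :=
  ∀ D : Dat SL2 H, D.Ok → ∀ (κ : SL2 → ℝ≥0∞) (ε : ℝ), ε ≤ 1 / 4 → LipK D.μ₁ κ ε → WG D κ

end SL

end Pool.Agent.MPEF
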