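import Pool.Agent.Lib.MP_ef3f0f_gt.Q.Spec

set_option autoImplicit false
set_option linter.unusedSectionVars false

/-! MP_ef3f0f_gt, part II, module BI: the algebra of the bounded invariant functions (helper23). -/

namespace Pool.Agent.MPEF

open MeasureTheory Topology
open scoped ENNReal Pointwise

section General

variable (P H : Type) [Group P] [Group H] [TopologicalSpace P] [TopologicalSpace H]
  [IsTopologicalGroup P] [IsTopologicalGroup H] [LocallyCompactSpace P] [LocallyCompactSpace H]
  [T2Space P] [T2Space H] [SecondCountableTopology P] [SecondCountableTopology H]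
  [MeasurableSpace P] [MeasurableSpace H] [BorelSpace P] [BorelSpace H]

private theorem BI_int_chi (D : Dat P H) (hD : D.Ok) : Integrable (fun x => (D.χ x).toReal) D.μ :=
  integrable_toReal_of_lintegral_ne_top hD.χm.aemeasurable (by rw [hD.mass]; exact ENNReal.one_ne_top)

private theorem BI_int (D : Dat P H) (hD : D.Ok) {f : P × H → ℝ} (hf : BI D f) :
    Integrable (fun x => (D.χ x).toReal * f x) D.μ := by
  obtain ⟨C, hC⟩ := hf.bdd
  exact (BI_int_chi P H D hD).mul_bdd (c := C) hf.meas.aestronglyMeasurable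
    (Filter.Eventually.of_forall fun x => by rw [Real.norm_eq_abs]; exact hC x)

private theorem BI_mul (D : Dat P H) {f g : P × H → ℝ} (hf : BI D f) (hg : BI D g) :
    BI D fun x => f x * g x := by
  obtain ⟨C, hC⟩ := hf.bdd
  obtain ⟨C', hC'⟩ := hg.bdd
  refine ⟨hf.meas.mul hg.meas, ⟨C * C', fun x => ?_⟩, fun γ hγ x => ?_⟩
  · rw [abs_mul]
    exact mul_le_mul (hC x) (hC' x) (abs_nonneg _) ((abs_nonneg _).trans (hC x))
  · show f (γ * x) * g (γ * x) = f x * g x
    rw [hf.inv γ hγ x, hg.inv γ hγ x]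

private theorem BI_add (D : Dat P H) {f g : P × H → ℝ} (hf : BI D f) (hg : BI D g) :
    BI D fun x => f x + g x := by
  obtain ⟨C, hC⟩ := hf.bdd
  obtain ⟨C', hC'⟩ := hg.bdd
  refine ⟨hf.meas.add hg.meas, ⟨C + C', fun x => ?_⟩, fun γ hγ x => ?_⟩
  · exact (abs_add_le _ _).trans (add_le_add (hC x) (hC' x))
  · show f (γ * x) + g (γ * x) = f x + g x
    rw [hf.inv γ hγ x, hg.inv γ hγ x]

private theorem BI_cst (D : Dat P H) (c : ℝ) : BI D fun _ => c :=
  ⟨measurable_const, ⟨|c|, fun _ => le_rfl⟩, fun _ _ _ => rfl⟩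

private theorem BI_smul (D : Dat P H) (c : ℝ) {f : P × H → ℝ} (hf : BI D f) :
    BI D fun x => c * f x := BI_mul P H D (BI_cst P H D c) hf

private theorem BI_sub (D : Dat P H) {f g : P × H → ℝ} (hf : BI D f) (hg : BI D g) :
    BI D fun x => f x - g x := by
  have h := BI_add P H D hf (BI_smul P H D (-1) hg)
  have e : (fun x => f x - g x) = fun x => f x + -1 * g x := by
    funext x
    ring
  rw [e]
  exact h

private theorem BI_comm (D : Dat P H) (f g : P × H → ℝ) : ip D f g = ip D g f := by
  unfold ip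
  refine integral_congr_ae (Filter.Eventually.of_forall fun x => ?_)
  show (D.χ x).toReal * (f x * g x) = (D.χ x).toReal * (g x * f x)
  rw [mul_comm (f x)]

private theorem BI_ipadd (D : Dat P H) (hD : D.Ok) {f g h : P × H → ℝ} (hf : BI D f) (hg : BI D g)
    (hh : BI D h) : ip D (fun x => f x + g x) h = ip D f h + ip D g h := by
  unfold ip
  rw [← integral_add (BI_int P H D hD (BI_mul P H D hf hh)) (BI_int P H D hD (BI_mul P H D hg hh))]
  refine integral_congr_ae (Filter.Eventually.of_forall fun x => ?_)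
  show (D.χ x).toReal * ((f x + g x) * h x) =
    (D.χ x).toReal * (f x * h x) + (D.χ x).toReal * (g x * h x)
  ring

private theorem BI_ipsmul (D : Dat P H) (c : ℝ) (f g : P × H → ℝ) :
    ip D (fun x => c * f x) g = c * ip D f g := by
  unfold ip
  rw [← integral_const_mul]
  refine integral_congr_ae (Filter.Eventually.of_forall fun x => ?_)
  show (D.χ x).toReal * (c * f x * g x) = c * ((D.χ x).toReal * (f x * g x))
  ring

private theorem BI_ipsub (D : Dat P H) (hD : D.Ok) {f g h : P × H → ℝ} (hf : BI D f) (hg : BI D g)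
    (hh : BI D h) : ip D (fun x => f x - g x) h = ip D f h - ip D g h := by
  have e : (fun x => f x - g x) = fun x => f x + (fun x => -1 * g x) x := by
    funext x
    ring
  rw [e, BI_ipadd P H D hD hf (BI_smul P H D (-1) hg) hh, BI_ipsmul]
  ring

private theorem BI_nn (D : Dat P H) (f : P × H → ℝ) : 0 ≤ ns D f :=
  integral_nonneg fun _ => mul_nonneg ENNReal.toReal_nonneg (mul_self_nonneg _)

private theorem BI_nsadd (D : Dat P H) (hD : D.Ok) {f g : P × H → ℝ} (hf : BI D f) (hg : BI D g)
    (t : ℝ) : ns D (fun x => f x + t * g x) = ns D g * (t * t) + 2 * ip D f g * t + ns D f := by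
  have hg' := BI_smul P H D t hg
  have hs := BI_add P H D hf hg'
  unfold ns
  rw [BI_ipadd P H D hD (f := f) (g := fun x => t * g x) hf hg' hs, BI_comm P H D f,
    BI_comm P H D (fun x => t * g x), BI_ipadd P H D hD (f := f) (g := fun x => t * g x) hf hg' hf,
    BI_ipadd P H D hD (f := f) (g := fun x => t * g x) hf hg' hg', BI_ipsmul, BI_ipsmul,
    BI_comm P H D f (fun x => t * g x), BI_comm P H D g (fun x => t * g x), BI_ipsmul, BI_ipsmul,
    BI_comm P H D g f]
  ring

private theorem BI_cs (D : Dat P H) (hD : D.Ok) {f g : P × H → ℝ} (hf : BI D f) (hg : BI D g) :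
    ip D f g ^ 2 ≤ ns D f * ns D g := by
  have h1 : discrim (ns D g) (2 * ip D f g) (ns D f) ≤ 0 := by
    refine discrim_le_zero fun t => ?_
    rw [← BI_nsadd P H D hD hf hg t]
    exact BI_nn P H D _
  unfold discrim at h1
  nlinarith [h1]

private theorem BI_add1 (D : Dat P H) (hD : D.Ok) {f g : P × H → ℝ} (hf : BI D f) (hg : BI D g) :
    ns D (fun x => f x + g x) = ns D g + 2 * ip D f g + ns D f := by
  have h := BI_nsadd P H D hD hf hg 1
  simp only [one_mul, mul_one] at h
  exact h

private theorem BI_sub1 (D : Dat P H) (hD : D.Ok) {f g : P × H → ℝ} (hf : BI D f) (hg : BI D g) :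
    ns D (fun x => f x - g x) = ns D g - 2 * ip D f g + ns D f := by
  have h := BI_nsadd P H D hD hf hg (-1)
  have e : (fun x => f x - g x) = fun x => f x + -1 * g x := by
    funext x
    ring
  rw [e, h]
  ring

private theorem BI_tri (D : Dat P H) (hD : D.Ok) {f g : P × H → ℝ} (hf : BI D f) (hg : BI D g) :
    Real.sqrt (ns D fun x => f x + g x) ≤ Real.sqrt (ns D f) + Real.sqrt (ns D g) := by
  rw [Real.sqrt_le_left (by positivity), BI_add1 P H D hD hf hg]
  have h1 := BI_cs P H D hD hf hg
  have h2 : ip D f g ≤ Real.sqrt (ns D f) * Real.sqrt (ns D g) := by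
    rw [← Real.sqrt_mul (BI_nn P H D f)]
    exact Real.le_sqrt_of_sq_le h1
  have h3 := Real.sq_sqrt (BI_nn P H D f)
  have h4 := Real.sq_sqrt (BI_nn P H D g)
  nlinarith

private theorem BI_one (D : Dat P H) (hD : D.Ok) : ∫ x, (D.χ x).toReal ∂D.μ = 1 := by
  rw [integral_toReal hD.χm.aemeasurable
    (Filter.Eventually.of_forall fun x => (hD.χ1 x).trans_lt ENNReal.one_lt_top), hD.mass]
  rfl

private theorem BI_mn (D : Dat P H) (f : P × H → ℝ) : mn D f = ip D f fun _ => 1 := by
  unfold mn ip
  refine integral_congr_ae (Filter.Eventually.of_forall fun x => ?_)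
  show (D.χ x).toReal * f x = (D.χ x).toReal * (f x * 1)
  rw [mul_one]

theorem tBI : S_inst P H → S_BI P H := by
  intro _ D hD
  refine ⟨fun f g hf hg => ⟨BI_add P H D hf hg, BI_sub P H D hf hg⟩, fun c f hf => BI_smul P H D c hf,
    fun c => BI_cst P H D c, fun f g hf hg => BI_int P H D hD (BI_mul P H D hf hg),
    fun f hf => BI_int P H D hD hf, fun f g => BI_comm P H D f g,
    fun f g h hf hg hh => BI_ipadd P H D hD hf hg hh, fun f g h hf hg hh => BI_ipsub P H D hD hf hg hh,
    fun c f g => BI_ipsmul P H D c f g, fun f => BI_nn P H D f, fun f g hf hg => BI_cs P H D hD hf hg,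
    fun f g hf hg => BI_tri P H D hD hf hg, fun f g hf hg => ?_, fun c => ?_, fun f => BI_mn P H D f,
    fun f g hf hg => ?_, fun f hf => ?_⟩
  · have h1 := BI_sub1 P H D hD hf hg
    have h2 := BI_add1 P H D hD hf hg
    have h3 := BI_nn P H D fun x => f x + g x
    rw [h2] at h3
    rw [h1]
    linarith
  · unfold mn
    rw [integral_mul_const, BI_one P H D hD, one_mul]
  · rw [BI_mn, BI_mn, BI_mn]
    exact BI_ipsub P H D hD hf hg (BI_cst P H D 1)
  · have h1 := BI_int P H D hD (BI_mul P H D hf hf)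
    unfold ns ip Dat.IM
    rw [ofReal_integral_eq_lintegral_ofReal h1
      (Filter.Eventually.of_forall fun x => mul_nonneg ENNReal.toReal_nonneg (mul_self_nonneg _))]
    refine lintegral_congr fun x => ?_
    rw [ENNReal.ofReal_mul ENNReal.toReal_nonneg,
      ENNReal.ofReal_toReal ((hD.χ1 x).trans_lt ENNReal.one_lt_top).ne, ← sq]

end General

end Pool.Agent.MPEF
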