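import Pool.Agent.Lib.MP_ef3f0f_gt.Q.Spec

set_option autoImplicit false
set_option linter.unusedSectionVars false

/-!
# MP_ef3f0f_gt, Part II: equidistribution of the third edge (`S_Equi`)
-/

namespace Pool.Agent.MPEF

open MeasureTheory Topology
open scoped ENNReal Pointwise

private theorem Equi_real (K : ℝ) :
    Filter.Tendsto (fun n : ℕ => ((n + 2 : ℕ) : ℝ) ^ 4 * (K * (Real.log n / n) ^ 5))
      Filter.atTop (nhds 0) := by
  have h1 : Filter.Tendsto (fun x : ℝ => Real.log x ^ 5 / (1 * x + 0)) Filter.atTop (nhds 0) :=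
    Real.tendsto_pow_log_div_mul_add_atTop 1 0 5 one_ne_zero
  have h2 : Filter.Tendsto (fun n : ℕ => Real.log (n : ℝ) ^ 5 / (1 * (n : ℝ) + 0))
      Filter.atTop (nhds 0) := h1.comp tendsto_natCast_atTop_atTop
  have h3 : Filter.Tendsto (fun n : ℕ => (1 + 2 / (n : ℝ)) ^ 4 * K) Filter.atTop
      (nhds ((1 + 0) ^ 4 * K)) := by
    have : Filter.Tendsto (fun n : ℕ => 2 / (n : ℝ)) Filter.atTop (nhds 0) :=
      tendsto_const_div_atTop_nhds_zero_nat 2
    exact ((tendsto_const_nhds.add this).pow 4).mul_const K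
  have h4 := h3.mul h2
  rw [mul_zero] at h4
  refine h4.congr' ?_
  filter_upwards [Filter.eventually_gt_atTop 0] with n hn
  have hn' : (n : ℝ) ≠ 0 := by positivity
  push_cast
  field_simp
  ring

private theorem Equi_rate (K : ℝ) :
    Rate (fun n : ℕ => if n ≤ 3 then (⊤ : ℝ≥0∞) else
      ENNReal.ofReal (K * (Real.log ((n - 2 : ℕ) : ℝ) / ((n - 2 : ℕ) : ℝ)) ^ 5)) := by
  unfold Rate
  rw [← Filter.tendsto_add_atTop_iff_nat 2]
  have h := (ENNReal.continuous_ofReal.tendsto 0).comp (Equi_real K)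
  rw [ENNReal.ofReal_zero] at h
  refine h.congr' ?_
  filter_upwards [Filter.eventually_gt_atTop 1] with n hn
  have hn3 : ¬ n + 2 ≤ 3 := by omega
  have hn2 : n + 2 - 2 = n := by omega
  simp only [Function.comp_apply, hn3, if_false, hn2]
  rw [ENNReal.ofReal_mul (by positivity), ENNReal.ofReal_pow (by positivity),
    ENNReal.ofReal_natCast]

section

variable (P H : Type) [Group P] [Group H] [TopologicalSpace P] [TopologicalSpace H]
  [IsTopologicalGroup P] [IsTopologicalGroup H] [LocallyCompactSpace P] [LocallyCompactSpace H]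
  [T2Space P] [T2Space H] [SecondCountableTopology P] [SecondCountableTopology H]
  [MeasurableSpace P] [MeasurableSpace H] [BorelSpace P] [BorelSpace H]

omit [Group H] [TopologicalSpace H] [IsTopologicalGroup H] [LocallyCompactSpace H] [T2Space H]
  [SecondCountableTopology H] [MeasurableSpace H] [BorelSpace H] [IsTopologicalGroup P]
  [LocallyCompactSpace P] [SecondCountableTopology P] in
private theorem Equi_fin (μ : Measure P) (hμ : μ.IsHaarMeasure) (k : P → ℝ≥0∞) (hk : KB k) :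
    ∫⁻ q, k q ∂μ ≠ ∞ := by
  obtain ⟨C, hC, hb⟩ := hk.bdd
  obtain ⟨K, hK, hs⟩ := hk.supp
  have h1 : ∫⁻ q, k q ∂μ ≤ ∫⁻ q, K.indicator (fun _ => C) q ∂μ := by
    refine lintegral_mono fun q => ?_
    by_cases hq : q ∈ K
    · rw [Set.indicator_of_mem hq]; exact hb q
    · rw [Set.indicator_of_notMem hq, hs q hq]
  rw [lintegral_indicator hK.measurableSet, setLIntegral_const] at h1
  exact (lt_of_le_of_lt h1 (ENNReal.mul_lt_top hC.lt_top hK.measure_lt_top)).ne

private theorem Equi_comm (D : Dat P H) (R : (P × H → ℝ) → (P × H → ℝ))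
    (T : (P × H → ℝ) → (P × H → ℝ)) (hT : ∀ f, BI D f → BI D (T f))
    (hc : ∀ f, BI D f → T (R f) = R (T f)) (m : ℕ) :
    ∀ f, BI D f → BI D (T^[m] f) ∧ T^[m] (R f) = R (T^[m] f) := by
  induction m with
  | zero => intro f hf; exact ⟨hf, rfl⟩
  | succ m ih =>
    intro f hf
    obtain ⟨h1, h2⟩ := ih f hf
    refine ⟨?_, ?_⟩
    · rw [Function.iterate_succ_apply']; exact hT _ h1
    · rw [Function.iterate_succ_apply', Function.iterate_succ_apply', h2, hc _ h1]

private theorem Equi_subc (D : Dat P H) (T : (P × H → ℝ) → (P × H → ℝ))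
    (hT : ∀ f, BI D f → BI D (T f))
    (hs : ∀ f (c : ℝ), BI D f → T (fun x => f x - c) = fun x => T f x - c) (m : ℕ) :
    ∀ f (c : ℝ), BI D f → BI D (T^[m] f) ∧ T^[m] (fun x => f x - c) = fun x => T^[m] f x - c := by
  induction m with
  | zero => intro f c hf; exact ⟨hf, rfl⟩
  | succ m ih =>
    intro f c hf
    obtain ⟨h1, h2⟩ := ih f c hf
    refine ⟨?_, ?_⟩
    · rw [Function.iterate_succ_apply']; exact hT _ h1
    · rw [Function.iterate_succ_apply', h2, hs _ _ h1, Function.iterate_succ_apply']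

private theorem Equi_ns (hBI : S_BI P H) (D : Dat P H) (hD : D.Ok) (f : P × H → ℝ) (hf : BI D f)
    (C : ℝ) (hC : ∀ x, f x ^ 2 ≤ C) : ns D f ≤ C := by
  obtain ⟨_, _, b3, b4, b5, _, _, _, _, _, _, _, _, b14, _⟩ := hBI D hD
  rw [← b14 C]
  unfold ns ip mn
  refine integral_mono (b4 f f hf hf) (b5 _ (b3 C)) fun x => ?_
  have := hC x
  exact mul_le_mul_of_nonneg_left (by nlinarith) ENNReal.toReal_nonneg

private theorem Equi_one (hBI : S_BI P H) (hTR : S_TR P H) (hit : S_iter P H) (hNf : S_Nf P H)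
    (D : Dat P H) (hD : D.Ok) (κ : P → ℝ≥0∞) (hκ : KB κ) (hκ1 : ∫⁻ q, κ q ∂D.μ₁ = 1)
    (hW : WG D κ) (k : P → ℝ≥0∞) (hk : KB k) :
    ∃ e : ℕ → ℝ≥0∞, Rate e ∧ ∀ n, 3 ≤ n → ∀ x y,
      D.N (D.tk (ksm D κ k) n) x y ≤ (∫⁻ g, ksm D κ k g ∂D.μ₁) + e n ∧
      (∫⁻ g, ksm D κ k g ∂D.μ₁) ≤ D.N (D.tk (ksm D κ k) n) x y + e n := by
  obtain ⟨b1, b2, b3, b4, b5, b6, b7, b8, b9, b10, b11, b12, b13, b14, b15, b16, b17⟩ := hBI D hD
  obtain ⟨t1, t2, t3, t4, t5, t6, t7, t8, t9, t10, t11, t12, t13, t14, t15⟩ := hTR D hD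
  obtain ⟨C', hC', hI⟩ := hit D hD κ hκ hκ1 hW
  obtain ⟨n1, n2, n3, ⟨C, hC, n4⟩, n5, n6⟩ := hNf D hD κ k hκ hk
  rw [hκ1, one_pow, one_mul] at n2
  have hkf : ∫⁻ q, k q ∂D.μ₁ ≠ ∞ := Equi_fin P D.μ₁ hD.haar₁ k hk
  set c : ℝ := (∫⁻ q, k q ∂D.μ₁).toReal with hc
  have hc0 : 0 ≤ c := ENNReal.toReal_nonneg
  -- the main estimate
  have main : ∀ m : ℕ, 2 ≤ m → ∀ x y,
      ((D.N (D.tk (ksm D κ k) (m + 2)) x y).toReal - c) ^ 2 ≤
        C ^ 2 * (C' * (Real.log m / m) ^ 10 * (c ^ 2 * (C + 1) ^ 2)) := by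
    intro m hm x y
    obtain ⟨hfy, -, hm1, -⟩ := n3 y
    obtain ⟨-, hNx, -, hm2⟩ := n3 x
    rw [hκ1, ENNReal.toReal_one] at hm1 hm2
    set f : P × H → ℝ := fun z => (D.N (D.tk κ 1) z y).toReal with hf
    set g : P × H → ℝ := fun z => (D.N (D.tk κ 1) x z).toReal with hg
    set u : P × H → ℝ := fun z => f z - 1 with hu
    have hub : BI D u := (b1 f (fun _ => 1) hfy (b3 1)).2
    have hum : mn D u = 0 := by
      have := b16 f (fun _ => 1) hfy (b3 1)
      rw [b14, hm1] at this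
      simpa using this
    have hf0 : ∀ z, 0 ≤ f z := fun z => ENNReal.toReal_nonneg
    have hf1 : ∀ z, f z ≤ C := fun z => n4 z y
    have hg0 : ∀ z, 0 ≤ g z := fun z => ENNReal.toReal_nonneg
    have hg1 : ∀ z, g z ≤ C := fun z => n4 x z
    have hun : ns D u ≤ (C + 1) ^ 2 := by
      refine Equi_ns P H hBI D hD u hub _ fun z => ?_
      have h1 := hf0 z
      have h2 := hf1 z
      refine sq_le_sq' ?_ ?_ <;> simp only [hu] <;> linarith
    have hgn : ns D g ≤ C ^ 2 := by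
      refine Equi_ns P H hBI D hD g hNx _ fun z => ?_
      have h1 := hg0 z
      have h2 := hg1 z
      nlinarith
    -- the two forms of the smoothed function
    have hTs : ∀ f (c : ℝ), BI D f → TT D (fun x => f x - c) = fun x => TT D f x - c := by
      intro f c hf
      have := t10 f (fun _ => c) hf (b3 c)
      rw [t12] at this
      exact this
    have hRs : ∀ f (c : ℝ), BI D f → RR D κ (fun x => f x - c) = fun x => RR D κ f x - c := by
      intro f c hf
      have := t11 κ f (fun _ => c) hκ hf (b3 c)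
      rw [t13 κ c hκ, hκ1, ENNReal.toReal_one, one_mul] at this
      exact this
    obtain ⟨e1, e2⟩ := Equi_subc P H D (TT D) t1 hTs m f 1 hfy
    have e3 : RR D k ((TT D)^[m] u) = fun x => RR D k ((TT D)^[m] f) x - c := by
      rw [hu, e2]
      have := t11 k ((TT D)^[m] f) (fun _ => 1) hk e1 (b3 1)
      rw [t13 k 1 hk, mul_one] at this
      exact this
    have e4 : BI D (RR D k ((TT D)^[m] f)) := t2 k _ hk e1
    obtain ⟨e5, e6⟩ := Equi_subc P H D (RR D κ) (fun f hf => t2 κ f hκ hf) hRs 20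
      (RR D k ((TT D)^[m] f)) c e4
    set A := (RR D κ)^[20] (RR D k ((TT D)^[m] f)) with hA
    have e7 : (RR D κ)^[20] (RR D k ((TT D)^[m] u)) = fun x => A x - c := by
      rw [e3, e6]
    -- commutation
    have c1 : ∀ f, BI D f → TT D (RR D κ f) = RR D κ (TT D f) := fun f hf => t4 κ f hκ hf
    have c2 : ∀ f, BI D f → BI D ((RR D κ)^[20] f) := fun f hf =>
      (Equi_comm P H D (TT D) (RR D κ) (fun f hf => t2 κ f hκ hf)
        (fun f hf => (c1 f hf).symm) 20 f hf).1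
    have c3 : ∀ f, BI D f → TT D ((RR D κ)^[20] f) = (RR D κ)^[20] (TT D f) := fun f hf =>
      ((Equi_comm P H D (TT D) (RR D κ) (fun f hf => t2 κ f hκ hf)
        (fun f hf => (c1 f hf).symm) 20 f hf).2).symm
    have hR0 : BI D (RR D k u) := t2 k u hk hub
    have c4 : (TT D)^[m] ((RR D κ)^[20] (RR D k u)) = (RR D κ)^[20] ((TT D)^[m] (RR D k u)) :=
      (Equi_comm P H D ((RR D κ)^[20]) (TT D) t1 c3 m _ hR0).2
    have c5 : (TT D)^[m] (RR D k u) = RR D k ((TT D)^[m] u) :=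
      (Equi_comm P H D (RR D k) (TT D) t1 (fun f hf => t4 k f hk hf) m _ hub).2
    have c6 : (TT D)^[m] ((RR D κ)^[20] (RR D k u)) = fun x => A x - c := by
      rw [c4, c5, e7]
    have hmn0 : mn D (RR D k u) = 0 := by rw [t9 k u hk hub, hum, mul_zero]
    have hns := hI m hm (RR D k u) hR0 hmn0
    rw [c6] at hns
    have hns0 : ns D (RR D k u) ≤ c ^ 2 * (C + 1) ^ 2 :=
      (t7 k u hk hub).trans (mul_le_mul_of_nonneg_left hun (sq_nonneg _))
    have hlog : 0 ≤ Real.log m / m := by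
      refine div_nonneg (Real.log_nonneg ?_) (by positivity)
      have : (2 : ℝ) ≤ m := by exact_mod_cast hm
      linarith
    have hns1 : ns D (fun x => A x - c) ≤
        C' * (Real.log m / m) ^ 10 * (c ^ 2 * (C + 1) ^ 2) :=
      hns.trans (mul_le_mul_of_nonneg_left hns0 (mul_nonneg hC' (pow_nonneg hlog _)))
    -- the matrix coefficient
    have hAB : BI D A := e5
    have hBB : BI D (fun x => A x - c) := (b1 A (fun _ => c) hAB (b3 c)).2
    have i1 : ip D (fun x => A x - c) g = ip D A g - ip D (fun _ => c) g :=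
      b8 A (fun _ => c) g hAB (b3 c) hNx
    have i2 : ip D (fun _ => c) g = c := by
      have := b9 c (fun _ => 1) g
      simp only [mul_one] at this
      rw [this, b6, ← b15, hm2, mul_one]
    have i3 : (D.N (D.tk (ksm D κ k) (m + 2)) x y).toReal = ip D A g := by
      rw [n6 m (by omega) x y, b6]
    have i4 : (D.N (D.tk (ksm D κ k) (m + 2)) x y).toReal - c = ip D g (fun x => A x - c) := by
      rw [i3, b6 g, i1, i2]
    rw [i4]
    exact (b11 g _ hNx hBB).trans (mul_le_mul hgn hns1 (b10 _) (sq_nonneg _))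
  set K : ℝ := C * Real.sqrt C' * (c * (C + 1)) with hK
  have hK0 : 0 ≤ K := by positivity
  refine ⟨_, Equi_rate K, ?_⟩
  intro n hn x y
  by_cases h3 : n ≤ 3
  · simp [h3]
  · simp only [h3, if_false]
    obtain ⟨m, rfl⟩ : ∃ m, n = m + 2 := ⟨n - 2, by omega⟩
    have hm : 2 ≤ m := by omega
    have hmm : m + 2 - 2 = m := by omega
    rw [hmm, n2]
    have h := main m hm x y
    have hlog : 0 ≤ Real.log m / m := by
      refine div_nonneg (Real.log_nonneg ?_) (by positivity)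
      have : (2 : ℝ) ≤ m := by exact_mod_cast hm
      linarith
    set δ : ℝ := K * (Real.log m / m) ^ 5 with hδ
    have hδ0 : 0 ≤ δ := mul_nonneg hK0 (pow_nonneg hlog _)
    have hsq : C ^ 2 * (C' * (Real.log m / m) ^ 10 * (c ^ 2 * (C + 1) ^ 2)) = δ ^ 2 := by
      rw [hδ, hK]
      have : Real.sqrt C' ^ 2 = C' := Real.sq_sqrt hC'
      calc C ^ 2 * (C' * (Real.log m / m) ^ 10 * (c ^ 2 * (C + 1) ^ 2))
          = C ^ 2 * (Real.sqrt C' ^ 2 * (Real.log m / m) ^ 10 * (c ^ 2 * (C + 1) ^ 2)) := by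
            rw [this]
        _ = _ := by ring
    rw [hsq] at h
    have habs := abs_le_of_sq_le_sq' h hδ0
    have hNf : D.N (D.tk (ksm D κ k) (m + 2)) x y ≠ ∞ := n5 (m + 2) x y
    constructor
    · rw [← ENNReal.ofReal_toReal hNf, ← ENNReal.ofReal_toReal hkf, ← ENNReal.ofReal_add hc0 hδ0]
      exact ENNReal.ofReal_le_ofReal (by linarith [habs.2])
    · rw [← ENNReal.ofReal_toReal hNf, ← ENNReal.ofReal_toReal hkf,
        ← ENNReal.ofReal_add ENNReal.toReal_nonneg hδ0]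
      exact ENNReal.ofReal_le_ofReal (by linarith [habs.1])

private theorem Equi_fam (hBI : S_BI P H) (hTR : S_TR P H) (hit : S_iter P H) (hNf : S_Nf P H)
    (D : Dat P H) (hD : D.Ok) (κ : P → ℝ≥0∞) (hκ : KB κ) (hκ1 : ∫⁻ q, κ q ∂D.μ₁ = 1)
    (hW : WG D κ) (k : Ty → P → ℝ≥0∞) (hk : ∀ a, KB (k a)) :
    ∃ e : ℕ → ℝ≥0∞, Rate e ∧ Equi D (fun a => ksm D κ (k a)) e := by
  choose e he1 he2 using fun a => Equi_one P H hBI hTR hit hNf D hD κ hκ hκ1 hW (k a) (hk a)
  refine ⟨fun n => ∑ a, e a n, ?_, ?_⟩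
  · unfold Rate
    have := tendsto_finsetSum (Finset.univ : Finset Ty) (fun a _ => he1 a)
    simp only [Finset.sum_const_zero] at this
    refine this.congr fun n => ?_
    rw [Finset.mul_sum]
  · intro a n hn x y
    obtain ⟨h1, h2⟩ := he2 a n hn x y
    have hle : e a n ≤ ∑ a, e a n :=
      Finset.single_le_sum (f := fun a => e a n) (fun _ _ => bot_le) (Finset.mem_univ a)
    exact ⟨h1.trans (add_le_add le_rfl hle), h2.trans (add_le_add le_rfl hle)⟩

/-- **Equidistribution.** -/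
theorem tEqui : S_inst P H → S_Up P H → S_BI P H → S_TR P H → S_iter P H → S_Nf P H →
    S_Equi P H := by
  intro _ _ hBI hTR hit hNf D hD κ hκ hκ1 hW k k' hk hk'
  obtain ⟨e, he1, he2⟩ := Equi_fam P H hBI hTR hit hNf D hD κ hκ hκ1 hW k hk
  obtain ⟨e', he1', he2'⟩ := Equi_fam P H hBI hTR hit hNf D hD κ hκ hκ1 hW k' hk'
  refine ⟨fun n => e n + e' n, ?_, ?_, ?_⟩
  · unfold Rate at *
    have := he1.add he1'
    rw [add_zero] at this
    refine this.congr fun n => ?_
    rw [mul_add]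
  · intro a n hn x y
    obtain ⟨h1, h2⟩ := he2 a n hn x y
    have hle : e n ≤ e n + e' n := le_self_add
    exact ⟨h1.trans (add_le_add le_rfl hle), h2.trans (add_le_add le_rfl hle)⟩
  · intro a n hn x y
    obtain ⟨h1, h2⟩ := he2' a n hn x y
    have hle : e' n ≤ e n + e' n := le_add_self
    exact ⟨h1.trans (add_le_add le_rfl hle), h2.trans (add_le_add le_rfl hle)⟩

end

end Pool.Agent.MPEF
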