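import Pool.Agent.Lib.MP_ef3f0f_gt.Q.Spec

set_option autoImplicit false

namespace Pool.Agent.MPEF

open MeasureTheory Topology
open scoped ENNReal Pointwise

variable (P H : Type) [Group P] [Group H] [TopologicalSpace P] [TopologicalSpace H]
  [IsTopologicalGroup P] [IsTopologicalGroup H] [LocallyCompactSpace P] [LocallyCompactSpace H]
  [T2Space P] [T2Space H] [SecondCountableTopology P] [SecondCountableTopology H]
  [MeasurableSpace P] [MeasurableSpace H] [BorelSpace P] [BorelSpace H]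

section
variable {P H}

omit [TopologicalSpace H] [IsTopologicalGroup H] [LocallyCompactSpace P] [LocallyCompactSpace H]
  [T2Space P] [T2Space H] [SecondCountableTopology H] [BorelSpace H] in
private theorem KerOk_meas (D : Dat P H) (hσ : SigmaFinite D.μ₁) (k k' : P → ℝ≥0∞)
    (hk : Measurable k) (hk' : Measurable k') : Measurable (cvP D k k') := by
  unfold cvP
  have h1 : Measurable fun z : P × P => k z.2 * k' (z.2⁻¹ * z.1) :=
    (hk.comp measurable_snd).mul (hk'.comp (measurable_snd.inv.mul measurable_fst))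
  exact h1.lintegral_prod_right'

omit [TopologicalSpace P] [IsTopologicalGroup P] [TopologicalSpace H] [IsTopologicalGroup H]
  [LocallyCompactSpace P] [LocallyCompactSpace H]
  [T2Space P] [T2Space H] [SecondCountableTopology P] [SecondCountableTopology H] [BorelSpace P]
  [BorelSpace H] in
private theorem KerOk_bdd (D : Dat P H) (κ k : P → ℝ≥0∞) (hκ : ∫⁻ q, κ q ∂D.μ₁ = 1)
    (hk : ∀ g, k g ≤ 1) (g : P) : cvP D κ k g ≤ 1 := by
  unfold cvP
  rw [← hκ]
  apply lintegral_mono
  intro q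
  exact mul_le_of_le_one_right zero_le (hk _)

omit [TopologicalSpace P] [IsTopologicalGroup P] [TopologicalSpace H] [IsTopologicalGroup H]
  [LocallyCompactSpace P] [LocallyCompactSpace H]
  [T2Space P] [T2Space H] [SecondCountableTopology P] [SecondCountableTopology H] [BorelSpace P]
  [BorelSpace H] in
private theorem KerOk_supp (D : Dat P H) (k k' : P → ℝ≥0∞) (S T : Set P)
    (hk : ∀ g, g ∉ S → k g = 0) (hk' : ∀ g, g ∉ T → k' g = 0) (g : P) (hg : g ∉ S * T) :
    cvP D k k' g = 0 := by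
  unfold cvP
  rw [← lintegral_zero (μ := D.μ₁)]
  congr 1
  funext q
  by_cases hq : q ∈ S
  · have h1 : q⁻¹ * g ∉ T := by
      intro h
      apply hg
      refine Set.mem_mul.mpr ⟨q, hq, q⁻¹ * g, h, ?_⟩
      group
    rw [hk' _ h1, mul_zero]
  · rw [hk q hq, zero_mul]

omit [TopologicalSpace P] [IsTopologicalGroup P] [TopologicalSpace H] [IsTopologicalGroup H]
  [LocallyCompactSpace P] [LocallyCompactSpace H]
  [T2Space P] [T2Space H] [SecondCountableTopology P] [SecondCountableTopology H] [BorelSpace P]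
  [BorelSpace H] in
private theorem KerOk_low (D : Dat P H) (κ f : P → ℝ≥0∞) (B : Set P)
    (hκ : ∫⁻ q, κ q ∂D.μ₁ = 1) (hs : ∀ g, g ∉ B → κ g = 0) :
    ∀ (j : ℕ) (g : P), (∀ p ∈ B ^ j, 1 ≤ f (p⁻¹ * g)) → 1 ≤ ((cvP D κ)^[j] f) g := by
  intro j
  induction j with
  | zero =>
    intro g hg
    have h1 := hg 1 (by rw [pow_zero]; exact Set.mem_one.mpr rfl)
    simpa using h1
  | succ j ih =>
    intro g hg
    rw [Function.iterate_succ', Function.comp_apply]
    unfold cvP
    rw [← hκ]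
    apply lintegral_mono
    intro q
    by_cases hq : q ∈ B
    · have h1 : 1 ≤ ((cvP D κ)^[j] f) (q⁻¹ * g) := by
        apply ih
        intro p hp
        have h2 := hg (q * p) (by rw [pow_succ']; exact Set.mul_mem_mul hq hp)
        have h3 : (q * p)⁻¹ * g = p⁻¹ * (q⁻¹ * g) := by group
        rwa [h3] at h2
      calc κ q = κ q * 1 := (mul_one _).symm
        _ ≤ κ q * ((cvP D κ)^[j] f) (q⁻¹ * g) := by gcongr
    · simp only [hs q hq, zero_mul]
      exact le_rfl

omit [TopologicalSpace P] [IsTopologicalGroup P] [TopologicalSpace H] [IsTopologicalGroup H]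
  [LocallyCompactSpace P] [LocallyCompactSpace H]
  [T2Space P] [T2Space H] [SecondCountableTopology P] [SecondCountableTopology H] [BorelSpace P]
  [BorelSpace H] in
private theorem KerOk_iter (D : Dat P H) (κ f : P → ℝ≥0∞) (B S : Set P)
    (hs : ∀ g, g ∉ B → κ g = 0) (hf : ∀ g, g ∉ S → f g = 0) :
    ∀ (j : ℕ) (g : P), g ∉ B ^ j * S → ((cvP D κ)^[j] f) g = 0 := by
  intro j
  induction j with
  | zero =>
    intro g hg
    rw [pow_zero, one_mul] at hg
    exact hf g hg
  | succ j ih =>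
    intro g hg
    rw [Function.iterate_succ', Function.comp_apply]
    rw [pow_succ', mul_assoc] at hg
    exact KerOk_supp D κ _ B _ hs ih g hg

omit [TopologicalSpace H] [IsTopologicalGroup H] [LocallyCompactSpace P] [LocallyCompactSpace H]
  [T2Space P] [T2Space H] [SecondCountableTopology H] [BorelSpace H] in
private theorem KerOk_meas_iter (D : Dat P H) (hσ : SigmaFinite D.μ₁) (κ f : P → ℝ≥0∞)
    (hκ : Measurable κ) (hf : Measurable f) :
    ∀ j : ℕ, Measurable ((cvP D κ)^[j] f) := by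
  intro j
  induction j with
  | zero => exact hf
  | succ j ih =>
    rw [Function.iterate_succ', Function.comp_apply]
    exact KerOk_meas D hσ κ _ hκ ih

omit [TopologicalSpace P] [IsTopologicalGroup P] [TopologicalSpace H] [IsTopologicalGroup H]
  [LocallyCompactSpace P] [LocallyCompactSpace H]
  [T2Space P] [T2Space H] [SecondCountableTopology P] [SecondCountableTopology H] [BorelSpace P]
  [BorelSpace H] in
private theorem KerOk_bdd_iter (D : Dat P H) (κ f : P → ℝ≥0∞) (hκ : ∫⁻ q, κ q ∂D.μ₁ = 1)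
    (hf : ∀ g, f g ≤ 1) : ∀ (j : ℕ) (g : P), ((cvP D κ)^[j] f) g ≤ 1 := by
  intro j
  induction j with
  | zero => exact hf
  | succ j ih =>
    intro g
    rw [Function.iterate_succ', Function.comp_apply]
    exact KerOk_bdd D κ _ hκ ih g

/-- substitution in the last convolution -/
private theorem KerOk_sub (D : Dat P H) (hD : D.Ok) (k κ : P → ℝ≥0∞) (s : P) :
    cvP D k κ s = ∫⁻ q, k (s * q⁻¹) * κ q ∂D.μ₁ := by
  have := hD.right₁
  have := hD.inv₁
  unfold cvP
  have h1 := lintegral_mul_right_eq_self (μ := D.μ₁) (fun q => k (s * q⁻¹) * κ q) s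
  have h2 := lintegral_inv_eq_self (μ := D.μ₁) (fun q => k (s * (q * s)⁻¹) * κ (q * s))
  rw [← h1, ← h2]
  congr 1
  funext q
  have h3 : s * (q⁻¹ * s)⁻¹ = q := by group
  rw [h3]

private theorem KerOk_pow (B : ℕ → Set P) (b1 : ∀ k, (1 : P) ∈ B k)
    (bm : ∀ k, B k * B k ⊆ B (k + 1)) : B 0 ^ 21 ⊆ B 5 := by
  have h1 : ∀ k, B 0 ^ (2 ^ k) ⊆ B k := by
    intro k
    induction k with
    | zero => simp
    | succ k ih =>
      rw [pow_succ, mul_comm, two_mul, pow_add]
      exact (Set.mul_subset_mul ih ih).trans (bm k)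
  exact (Set.pow_subset_pow_right (b1 0) (by norm_num)).trans (h1 5)

private theorem KerOk_mono (B : ℕ → Set P) (b1 : ∀ k, (1 : P) ∈ B k)
    (bm : ∀ k, B k * B k ⊆ B (k + 1)) : ∀ i j, i ≤ j → B i ⊆ B j := by
  intro i j hij
  induction hij with
  | refl => exact le_rfl
  | step _ ih =>
    refine ih.trans ?_
    intro x hx
    rw [← mul_one x]
    exact bm _ (Set.mul_mem_mul hx (b1 _))

private theorem KerOk_one (D : Dat P H) (hσ : SigmaFinite D.μ₁) (hD : D.Ok) (B : ℕ → Set P)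
    (b1 : ∀ k, (1 : P) ∈ B k) (bi : ∀ k, ∀ g ∈ B k, g⁻¹ ∈ B k)
    (bm : ∀ k, B k * B k ⊆ B (k + 1)) (κ : P → ℝ≥0∞) (hκm : Measurable κ)
    (hκs : ∀ g, g ∉ B 0 → κ g = 0) (hκ1 : ∫⁻ q, κ q ∂D.μ₁ = 1) (O₀ O₁ O₂ : Set P)
    (hO₁ : IsOpen O₁) (h01 : B 9 * O₁ * B 9 ⊆ O₀) (h12 : B 9 * O₂ * B 9 ⊆ O₁) :
    Measurable (ksm D κ (O₁.indicator fun _ => 1)) ∧
    (∀ g, ksm D κ (O₁.indicator fun _ => 1) g ≤ 1) ∧
    (∀ g, g ∉ O₀ → ksm D κ (O₁.indicator fun _ => 1) g = 0) ∧
    (∀ g ∈ O₂, 1 ≤ ksm D κ (O₁.indicator fun _ => 1) g) := by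
  have hind : Measurable (O₁.indicator fun _ => (1 : ℝ≥0∞)) :=
    measurable_const.indicator hO₁.measurableSet
  have hind1 : ∀ g, (O₁.indicator fun _ => (1 : ℝ≥0∞)) g ≤ 1 := by
    intro g
    by_cases hg : g ∈ O₁
    · rw [Set.indicator_of_mem hg]
    · rw [Set.indicator_of_notMem hg]
      exact zero_le
  have h59 : B 5 ⊆ B 9 := KerOk_mono B b1 bm 5 9 (by norm_num)
  have h09 : B 0 ⊆ B 9 := KerOk_mono B b1 bm 0 9 (by norm_num)
  have h21 := KerOk_pow B b1 bm
  unfold ksm
  refine ⟨?_, ?_, ?_, ?_⟩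
  · exact KerOk_meas_iter D hσ κ _ hκm (KerOk_meas D hσ _ _ hind hκm) 21
  · apply KerOk_bdd_iter D κ _ hκ1
    intro g
    rw [KerOk_sub D hD]
    refine le_trans (lintegral_mono fun q => ?_) hκ1.le
    exact mul_le_of_le_one_left zero_le (hind1 _)
  · intro g hg
    apply KerOk_iter D κ _ (B 0) (O₁ * B 0) hκs
    · intro x hx
      apply KerOk_supp D _ _ O₁ (B 0) _ hκs x hx
      intro y hy
      exact Set.indicator_of_notMem hy _
    · intro h
      apply hg
      apply h01
      rw [mul_assoc]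
      exact Set.mul_subset_mul (h21.trans h59) (Set.mul_subset_mul_left h09) h
  · intro g hg
    apply KerOk_low D κ _ (B 0) hκ1 hκs
    intro p hp
    rw [KerOk_sub D hD]
    refine hκ1.ge.trans (lintegral_mono fun q => ?_)
    by_cases hq : q ∈ B 0
    · have h1 : p⁻¹ * g * q⁻¹ ∈ O₁ := by
        apply h12
        exact Set.mul_mem_mul (Set.mul_mem_mul (bi 9 p (h59 (h21 hp))) hg) (bi 9 q (h09 hq))
      simp only [Set.indicator_of_mem h1, one_mul]
      exact le_rfl
    · simp only [hκs q hq, mul_zero]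
      exact le_rfl

end

theorem tKerOk : S_inst P H → S_KerOk P H := by
  intro hinst D hD G hG κ hκm hκs hκ1 M
  obtain ⟨hσ, -⟩ := hinst D hD
  have key := fun (a : Ty) (l : ℕ) => KerOk_one D hσ hD G.B hG.b1 hG.bi hG.bm κ hκm hκs hκ1
    (G.Om M a l) (G.Om M a (l + 1)) (G.Om M a (l + 2)) (hG.oo M a (l + 1)) (hG.om M a l)
    (hG.om M a (l + 1))
  refine ⟨⟨fun a => (key a 0).1, fun a => (key a 4).1,
    ⟨1, ENNReal.one_ne_top, fun a g => ⟨(key a 0).2.1 g, (key a 4).2.1 g⟩⟩,
    fun a => (key a 0).2.2.1, fun a => (key a 4).2.2.1,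
    ⟨1, one_pos, fun a => ⟨(key a 0).2.2.2, (key a 4).2.2.2⟩⟩⟩, ?_⟩
  intro a l
  refine ⟨measurable_const.indicator (hG.oo M a l).measurableSet, ⟨1, ENNReal.one_ne_top, ?_⟩,
    ⟨closure (G.Om M a l), hG.oc M a l, ?_⟩⟩
  · intro g
    by_cases hg : g ∈ G.Om M a l
    · rw [Set.indicator_of_mem hg]
    · rw [Set.indicator_of_notMem hg]
      exact zero_le
  · intro g hg
    exact Set.indicator_of_notMem (fun h => hg (subset_closure h)) _

end Pool.Agent.MPEF
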