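import Pool.Agent.Lib.MP_ef3f0f_gt.Q.Spec

set_option autoImplicit false

/-! MP_ef3f0f_gt, part II, module NetG: the length structure of the lattice. -/

namespace Pool.Agent.MPEF

open MeasureTheory Topology
open scoped ENNReal Pointwise

section SL

variable (H : Type) [Group H] [TopologicalSpace H] [IsTopologicalGroup H]
  [LocallyCompactSpace H] [T2Space H] [SecondCountableTopology H] [MeasurableSpace H]
  [BorelSpace H]

theorem tNetG (hO : S_O SL2 H) (hN : S_Net) : S_NetG H := by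
  intro D hD
  obtain ⟨-, h1, hi, hm, -, -, -⟩ := hO D hD
  obtain ⟨ρ₀, C₇, hρ, hC, h⟩ := hN (fun L => {g | ∃ γ ∈ D.Γ, γ.1 = g ∧ γ.2 ∈ D.O ^ L}) {
    one := ⟨1, D.Γ.one_mem, rfl, h1 0⟩
    mono := by
      rintro L L' hL g ⟨γ, hγ, hg, h2⟩
      exact ⟨γ, hγ, hg, hm L L' hL h2⟩
    mul := by
      rintro L L' g h ⟨γ, hγ, hg, h2⟩ ⟨γ', hγ', hg', h2'⟩
      refine ⟨γ * γ', D.Γ.mul_mem hγ hγ', by rw [Prod.fst_mul, hg, hg'], ?_⟩
      rw [pow_add, Prod.snd_mul]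
      exact Set.mul_mem_mul h2 h2'
    inv := by
      rintro L g ⟨γ, hγ, hg, h2⟩
      exact ⟨γ⁻¹, D.Γ.inv_mem hγ, by rw [Prod.fst_inv, hg], hi L _ h2⟩
    dense := by
      refine hD.dense.mono ?_
      rintro g ⟨γ, hγ, hg⟩
      obtain ⟨n, hn⟩ := hD.νgen γ.2
      exact Set.mem_iUnion.2 ⟨n, γ, hγ, hg, hn⟩ }
  refine ⟨ρ₀, C₇, hρ, hC, fun p hp η h0 h1 => ?_⟩
  obtain ⟨L, hL, hL', e, ⟨γ, hγ, hg, h2⟩, he⟩ := h p hp η h0 h1
  exact ⟨L, hL, hL', γ, hγ, h2, by rw [hg]; exact he⟩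

end SL

end Pool.Agent.MPEF
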