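import Pool.Agent.Lib.MP_ef3f0f_gt.Q.Spec

set_option autoImplicit false

/-!
# MP_ef3f0f_gt, Part II: the weak spectral gap
-/

namespace Pool.Agent.MPEF

open MeasureTheory Topology
open scoped ENNReal Pointwise

section

variable {α β : Type} [MeasurableSpace α] [MeasurableSpace β]

private theorem wg_int (m : Measure α) [IsFiniteMeasure m] (φ : α → ℝ) (hφ : Measurable φ) (C : ℝ)
    (hC : ∀ x, |φ x| ≤ C) : Integrable φ m :=
  Integrable.of_bound hφ.aestronglyMeasurable C (Filter.Eventually.of_forall fun x => by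
    rw [Real.norm_eq_abs]
    exact hC x)

private theorem wg_sq {B u v : ℝ} (hu : |u| ≤ B) (hv : |v| ≤ B) : |(u - v) ^ 2| ≤ (2 * B) ^ 2 := by
  rw [abs_pow]
  have : |u - v| ≤ 2 * B := (abs_sub u v).trans (by linarith)
  exact pow_le_pow_left₀ (abs_nonneg _) this 2

/-- The splitting of the variance. -/
private theorem wg_var (a : Measure α) (b : Measure β) [IsFiniteMeasure a] [IsFiniteMeasure b]
    (g : α × β → ℝ) (G : α → ℝ) (B : ℝ) (hg : Measurable g) (hG : Measurable G)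
    (hgB : ∀ z, |g z| ≤ B) (hGB : ∀ x, |G x| ≤ B) :
    ∫ z, ∫ z', (g z - g z') ^ 2 ∂(a.prod b) ∂(a.prod b) ≤
      3 * (2 * ((a.prod b).real Set.univ * ∫ x, ∫ y, (g (x, y) - G x) ^ 2 ∂b ∂a) +
        b.real Set.univ ^ 2 * ∫ x, ∫ x', (G x - G x') ^ 2 ∂a ∂a) := by
  set M := a.prod b with hM
  have hG1 : Measurable fun z : α × β => G z.1 := hG.comp measurable_fst
  have i1 : Integrable (fun w : (α × β) × (α × β) => (g w.1 - g w.2) ^ 2) (M.prod M) :=
    wg_int _ _ (((hg.comp measurable_fst).sub (hg.comp measurable_snd)).pow_const 2)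
      ((2 * B) ^ 2) fun w => wg_sq (hgB _) (hgB _)
  have i2 : Integrable (fun w : (α × β) × (α × β) => (g w.1 - G w.1.1) ^ 2) (M.prod M) :=
    wg_int _ _ (((hg.comp measurable_fst).sub (hG1.comp measurable_fst)).pow_const 2)
      ((2 * B) ^ 2) fun w => wg_sq (hgB _) (hGB _)
  have i3 : Integrable (fun w : (α × β) × (α × β) => (G w.1.1 - G w.2.1) ^ 2) (M.prod M) :=
    wg_int _ _ (((hG1.comp measurable_fst).sub (hG1.comp measurable_snd)).pow_const 2)
      ((2 * B) ^ 2) fun w => wg_sq (hGB _) (hGB _)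
  have i4 : Integrable (fun w : (α × β) × (α × β) => (g w.2 - G w.2.1) ^ 2) (M.prod M) :=
    wg_int _ _ (((hg.comp measurable_snd).sub (hG1.comp measurable_snd)).pow_const 2)
      ((2 * B) ^ 2) fun w => wg_sq (hgB _) (hGB _)
  have i5 : Integrable (fun z : α × β => (g z - G z.1) ^ 2) M :=
    wg_int _ _ ((hg.sub hG1).pow_const 2) ((2 * B) ^ 2) fun w => wg_sq (hgB _) (hGB _)
  have e1 : ∫ z, ∫ z', (g z - g z') ^ 2 ∂M ∂M = ∫ w, (g w.1 - g w.2) ^ 2 ∂(M.prod M) :=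
    (integral_prod _ i1).symm
  have e2 : ∫ w, (g w.1 - G w.1.1) ^ 2 ∂(M.prod M) = M.real Set.univ * ∫ z, (g z - G z.1) ^ 2 ∂M := by
    have := integral_fun_fst (μ := M) (ν := M) fun z : α × β => (g z - G z.1) ^ 2
    rw [smul_eq_mul] at this
    exact this
  have e3 : ∫ w, (g w.2 - G w.2.1) ^ 2 ∂(M.prod M) = M.real Set.univ * ∫ z, (g z - G z.1) ^ 2 ∂M := by
    have := integral_fun_snd (μ := M) (ν := M) fun z : α × β => (g z - G z.1) ^ 2
    rw [smul_eq_mul] at this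
    exact this
  have e4 : ∫ z, (g z - G z.1) ^ 2 ∂M = ∫ x, ∫ y, (g (x, y) - G x) ^ 2 ∂b ∂a := by
    rw [hM, integral_prod _ i5]
  have e5 : ∫ w, (G w.1.1 - G w.2.1) ^ 2 ∂(M.prod M) =
      b.real Set.univ ^ 2 * ∫ x, ∫ x', (G x - G x') ^ 2 ∂a ∂a := by
    rw [integral_prod _ i3]
    have e6 : ∀ z : α × β, ∫ z', (G z.1 - G z'.1) ^ 2 ∂M =
        b.real Set.univ * ∫ x', (G z.1 - G x') ^ 2 ∂a := by
      intro z
      have := integral_fun_fst (μ := a) (ν := b) fun x' : α => (G z.1 - G x') ^ 2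
      rw [smul_eq_mul] at this
      exact this
    simp only [e6]
    have := integral_fun_fst (μ := a) (ν := b) fun x : α =>
      b.real Set.univ * ∫ x', (G x - G x') ^ 2 ∂a
    rw [smul_eq_mul] at this
    rw [hM, this, integral_const_mul]
    ring
  rw [e1]
  calc ∫ w, (g w.1 - g w.2) ^ 2 ∂(M.prod M)
      ≤ ∫ w, 3 * ((g w.1 - G w.1.1) ^ 2 + (G w.1.1 - G w.2.1) ^ 2 + (g w.2 - G w.2.1) ^ 2)
          ∂(M.prod M) := by
        refine integral_mono i1 (((i2.add i3).add i4).const_mul 3) fun w => ?_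
        simp only
        nlinarith [sq_nonneg ((g w.1 - G w.1.1) - (G w.1.1 - G w.2.1)),
          sq_nonneg ((g w.1 - G w.1.1) + (g w.2 - G w.2.1)),
          sq_nonneg ((G w.1.1 - G w.2.1) + (g w.2 - G w.2.1))]
    _ = 3 * ((∫ w, (g w.1 - G w.1.1) ^ 2 ∂(M.prod M) + ∫ w, (G w.1.1 - G w.2.1) ^ 2 ∂(M.prod M)) +
          ∫ w, (g w.2 - G w.2.1) ^ 2 ∂(M.prod M)) := by
        have e7 := integral_add (i2.add i3) i4
        have e8 := integral_add i2 i3
        simp only [Pi.add_apply] at e7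
        rw [integral_const_mul, e7, e8]
    _ = _ := by
        rw [e2, e3, e4, e5]
        ring

end

section

variable {P : Type} [Group P] [MeasurableSpace P] [MeasurableMul₂ P]

/-- The substitution. -/
private theorem wg_sub (μ : Measure P) [μ.IsMulRightInvariant] (D₁ R : Set P)
    (hD₁ : MeasurableSet D₁) (hR : MeasurableSet R) (hDf : μ D₁ ≠ ∞) (hRf : μ R ≠ ∞)
    (hDR : ∀ x ∈ D₁, ∀ p, p * x ∈ D₁ → p ∈ R) (G : P → ℝ) (B : ℝ) (hG : Measurable G)
    (hGB : ∀ x, |G x| ≤ B) :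
    ∫ x in D₁, ∫ x' in D₁, (G x - G x') ^ 2 ∂μ ∂μ ≤
      ∫ p in R, ∫ x in D₁, (G (p * x) - G x) ^ 2 ∂μ ∂μ := by
  have f1 : IsFiniteMeasure (μ.restrict D₁) := ⟨by
    rw [Measure.restrict_apply_univ]
    exact lt_top_iff_ne_top.2 hDf⟩
  have f2 : IsFiniteMeasure (μ.restrict R) := ⟨by
    rw [Measure.restrict_apply_univ]
    exact lt_top_iff_ne_top.2 hRf⟩
  have hm : Measurable fun w : P × P => (G (w.2 * w.1) - G w.1) ^ 2 :=
    ((hG.comp (measurable_snd.mul measurable_fst)).sub (hG.comp measurable_fst)).pow_const 2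
  have i1 : Integrable (fun w : P × P => (G (w.2 * w.1) - G w.1) ^ 2)
      ((μ.restrict D₁).prod (μ.restrict R)) :=
    wg_int _ _ hm ((2 * B) ^ 2) fun w => wg_sq (hGB _) (hGB _)
  have hstep : ∀ x ∈ D₁, ∫ x' in D₁, (G x - G x') ^ 2 ∂μ ≤ ∫ p in R, (G (p * x) - G x) ^ 2 ∂μ := by
    intro x hx
    have hmx : Measurable fun p : P => (G (p * x) - G x) ^ 2 :=
      ((hG.comp (measurable_id.mul_const x)).sub_const _).pow_const 2
    rw [← integral_indicator hD₁, ← integral_indicator hR,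
      ← integral_mul_right_eq_self (D₁.indicator fun x' => (G x - G x') ^ 2) x]
    refine integral_mono_of_nonneg (Filter.Eventually.of_forall fun p => ?_) ?_
      (Filter.Eventually.of_forall fun p => ?_)
    · exact Set.indicator_nonneg (fun _ _ => sq_nonneg _) _
    · rw [integrable_indicator_iff hR]
      exact wg_int (μ.restrict R) _ hmx ((2 * B) ^ 2) fun w => wg_sq (hGB _) (hGB _)
    · simp only
      by_cases hp : p * x ∈ D₁
      · rw [Set.indicator_of_mem hp, Set.indicator_of_mem (hDR x hx p hp)]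
        exact le_of_eq (by ring)
      · rw [Set.indicator_of_notMem hp]
        exact Set.indicator_nonneg (fun _ _ => sq_nonneg _) _
  calc ∫ x in D₁, ∫ x' in D₁, (G x - G x') ^ 2 ∂μ ∂μ
      ≤ ∫ x in D₁, ∫ p in R, (G (p * x) - G x) ^ 2 ∂μ ∂μ := by
        refine integral_mono_of_nonneg (Filter.Eventually.of_forall fun x =>
          integral_nonneg fun _ => sq_nonneg _) i1.integral_prod_left ?_
        exact (ae_restrict_iff' hD₁).2 (Filter.Eventually.of_forall hstep)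
    _ = _ := integral_integral_swap i1

end

section

variable (H : Type) [Group H] [TopologicalSpace H] [IsTopologicalGroup H]
  [LocallyCompactSpace H] [T2Space H] [SecondCountableTopology H] [MeasurableSpace H]
  [BorelSpace H]

omit [LocallyCompactSpace H] [T2Space H] [SecondCountableTopology H] [BorelSpace H] in
private theorem wg_open (D : Dat SL2 H) (hD : D.Ok) (n : ℕ) (hn : 1 ≤ n) : IsOpen (D.O ^ n) := by
  have h1 : IsOpen D.O := isOpen_lt continuous_const hD.νc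
  obtain ⟨m, rfl⟩ := Nat.exists_eq_add_of_le' hn
  rw [pow_succ]
  exact h1.mul_left

omit [LocallyCompactSpace H] [T2Space H] [SecondCountableTopology H] [BorelSpace H] in
private theorem wg_cpt (D : Dat SL2 H) (hD : D.Ok) (n : ℕ) :
    ∃ K : Set H, IsCompact K ∧ D.O ^ n ⊆ K := by
  obtain ⟨K₀, hK₀, h0⟩ := hD.νK
  have h1 : D.O ⊆ K₀ := by
    intro h hh
    by_contra hc
    have : 0 < D.ν h := hh
    rw [h0 h hc] at this
    exact lt_irrefl _ this
  induction n with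
  | zero => exact ⟨{1}, isCompact_singleton, by rw [pow_zero]; exact fun x hx => hx⟩
  | succ n ih =>
    obtain ⟨K, hK, h2⟩ := ih
    refine ⟨K * K₀, hK.mul hK₀, ?_⟩
    rw [pow_succ]
    exact Set.mul_subset_mul h2 h1

omit [LocallyCompactSpace H] [T2Space H] [SecondCountableTopology H] in
/-- The weak gap with a free parameter. -/
private theorem wg_key (h2 : S_Bs) (h3 : S_inst SL2 H) (h5 : S_TR SL2 H)
    (h7 : S_b SL2 H) (h8 : S_c SL2 H) (h9 : S_cov SL2 H) (h10 : S_var SL2 H) (h11 : S_d H)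
    (h12 : S_NetG H) (D : Dat SL2 H) (hD : D.Ok) (κ : SL2 → ℝ≥0∞) (ε : ℝ) (hε : ε ≤ 1 / 4)
    (hκ : LipK D.μ₁ κ ε) (hκB : KB κ) :
    ∃ A : ℝ, 1 ≤ A ∧ ∀ δ : ℝ, 0 < δ → δ < 1 → ∀ f : SL2 × H → ℝ, BI D f → mn D f = 0 →
      (1 - δ ^ 2) * ns D (RR D κ f) ≤ ns D (TT D (RR D κ f)) → 0 ≤ ns D f → 0 ≤ ns D (RR D κ f) →
      ∀ s : ℝ, 0 < s → s ≤ 1 →
        ns D (RR D κ f) ≤ A * (s * ns D f + δ ^ 2 / s ^ 2 * ns D (RR D κ f)) := by
  obtain ⟨b1, b2, b3, b4, b5, -, b7, -⟩ := h2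
  obtain ⟨t1, t2, t3, t4, t5, t6, t7, t8, t9, -⟩ := h5 D hD
  obtain ⟨q1, q2, -⟩ := h3 D hD
  have hH1 := hD.haar₁
  have hH2 := hD.haar₂
  have hR1 := hD.right₁
  obtain ⟨ρ₀, C₇, hρ₀, hC₇, hnet⟩ := h12 D hD
  set ρ := min ρ₀ 1 with hρ
  have hρ0 : 0 < ρ := lt_min hρ₀ one_pos
  have hρ1 : ρ ≤ 1 := min_le_right _ _
  set D₁ : Set SL2 := Bs (ρ / 4) with hD₁
  set R : Set SL2 := Bs ρ with hR
  set K : Set SL2 := {g | nrm (g.1 - 1) ≤ 1 / 4} with hK
  have hKc : IsCompact K := b7 (1 / 4)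
  have hD₁K : D₁ ⊆ K := by
    intro g hg
    have : nrm (g.1 - 1) < ρ / 4 := hg
    exact this.le.trans (by linarith)
  have hD₁4 : D₁ ⊆ Bs (1 / 4) := b5 _ _ (by linarith)
  have hRK : R ⊆ {g : SL2 | nrm (g.1 - 1) ≤ 1} := by
    intro g hg
    have : nrm (g.1 - 1) < ρ := hg
    exact this.le.trans hρ1
  have hD₁o : IsOpen D₁ := b1 _
  have hRo : IsOpen R := b1 _
  obtain ⟨c, hc, hcov⟩ := h9 D hD D₁ hD₁o ⟨1, b2 _ (by positivity)⟩
  set S : Set H := D.O ^ c with hS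
  have hSo : IsOpen S := wg_open H D hD c hc
  obtain ⟨KS, hKS, hSK⟩ := wg_cpt H D hD c
  have fS : D.μ₂ S ≠ ∞ := ((measure_mono hSK).trans_lt hKS.measure_lt_top).ne
  have fD : D.μ₁ D₁ ≠ ∞ := ((measure_mono hD₁K).trans_lt hKc.measure_lt_top).ne
  have fR : D.μ₁ R ≠ ∞ := ((measure_mono hRK).trans_lt (b7 1).measure_lt_top).ne
  have fB : D.μ₁ (Bs (1 / 4)) ≠ ∞ := by
    have : Bs (1 / 4) ⊆ K := fun g hg => by
      have h : nrm (g.1 - 1) < 1 / 4 := hg
      exact h.le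
    exact ((measure_mono this).trans_lt hKc.measure_lt_top).ne
  have F1 : IsFiniteMeasure (D.μ₁.restrict D₁) :=
    ⟨by rw [Measure.restrict_apply_univ]; exact lt_top_iff_ne_top.2 fD⟩
  have F2 : IsFiniteMeasure (D.μ₂.restrict S) :=
    ⟨by rw [Measure.restrict_apply_univ]; exact lt_top_iff_ne_top.2 fS⟩
  have F3 : IsFiniteMeasure (D.μ₁.restrict R) :=
    ⟨by rw [Measure.restrict_apply_univ]; exact lt_top_iff_ne_top.2 fR⟩
  have F4 : IsFiniteMeasure (D.μ₁.restrict (Bs (1 / 4))) :=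
    ⟨by rw [Measure.restrict_apply_univ]; exact lt_top_iff_ne_top.2 fB⟩
  have F5 : IsFiniteMeasure (D.μ₁.restrict K) :=
    ⟨by rw [Measure.restrict_apply_univ]; exact hKc.measure_lt_top⟩
  obtain ⟨Cb, hCb, hb⟩ := h7 D hD K hKc c hc
  obtain ⟨Cc, hCc, hcc⟩ := h8 D hD K hKc c hc
  obtain ⟨Cd, hCd, hdd⟩ := h11 D hD κ ε hε hκ c hc
  set m₁ := ((D.μ₁.restrict D₁).prod (D.μ₂.restrict S)).real Set.univ with hm₁
  set m₂ := (D.μ₂.restrict S).real Set.univ with hm₂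
  set m₃ := (D.μ₁.restrict R).real Set.univ with hm₃
  have hm₁0 : 0 ≤ m₁ := measureReal_nonneg
  have hm₂0 : 0 ≤ m₂ := measureReal_nonneg
  have hm₃0 : 0 ≤ m₃ := measureReal_nonneg
  refine ⟨1 + 3 * m₁ * Cb + 3 * m₂ ^ 2 * m₃ * Cd + 3 * m₂ ^ 2 * m₃ * Cc * C₇ ^ 2, by
    have : 0 ≤ 3 * m₁ * Cb + 3 * m₂ ^ 2 * m₃ * Cd + 3 * m₂ ^ 2 * m₃ * Cc * C₇ ^ 2 := by positivity
    linarith, fun δ hδ0 hδ1 f hf hf0 hgap hnf hng s hs0 hs1 => ?_⟩
  set g := RR D κ f with hg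
  have hgB : BI D g := t2 κ f hκB hf
  have hg0 : mn D g = 0 := by
    rw [hg, t9 κ f hκB hf, hf0, mul_zero]
  obtain ⟨B, hB⟩ := hgB.bdd
  set G : SL2 → ℝ := g1 D c g with hG
  have hB0 : 0 ≤ B := (abs_nonneg _).trans (hB 1)
  have hGm : Measurable G := by
    have e : StronglyMeasurable fun x : SL2 => ∫ y, g (x, y) ∂(D.μ₂.restrict S) :=
      hgB.meas.stronglyMeasurable.integral_prod_right'
    exact e.measurable.const_mul _
  have hGB : ∀ x, |G x| ≤ B := by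
    intro x
    have e1 : ‖∫ y in S, g (x, y) ∂D.μ₂‖ ≤ B * (D.μ₂.restrict S).real Set.univ :=
      norm_integral_le_of_norm_le_const (Filter.Eventually.of_forall fun y => by
        rw [Real.norm_eq_abs]
        exact hB _)
    have e2 : (D.μ₂.restrict S).real Set.univ = (D.μ₂ S).toReal := by
      rw [measureReal_def, Measure.restrict_apply_univ]
    rw [e2, Real.norm_eq_abs] at e1
    change |(D.μ₂ S).toReal⁻¹ * ∫ y in S, g (x, y) ∂D.μ₂| ≤ B
    have e3 : 0 ≤ (D.μ₂ S).toReal := ENNReal.toReal_nonneg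
    rw [abs_mul, abs_inv, abs_of_nonneg e3]
    rcases e3.eq_or_lt with h | h
    · rw [← h, inv_zero, zero_mul]
      exact hB0
    · rw [inv_mul_le_iff₀ h]
      linarith
  -- the variance
  have hv := h10 D hD (D₁ ×ˢ S) (K ×ˢ KS) (hD₁o.measurableSet.prod hSo.measurableSet)
    (hKc.prod hKS) (Set.prod_mono hD₁K hSK) hcov g hgB hg0
  have hrest : D.μ.restrict (D₁ ×ˢ S) = (D.μ₁.restrict D₁).prod (D.μ₂.restrict S) := by
    rw [Dat.μ, Measure.prod_restrict]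
  rw [hrest] at hv
  have hv2 := wg_var (D.μ₁.restrict D₁) (D.μ₂.restrict S) g G B hgB.meas hGm hB hGB
  rw [← hm₁, ← hm₂] at hv2
  -- I₁
  have hI1 : ∫ x in D₁, ∫ y in S, (g (x, y) - G x) ^ 2 ∂D.μ₂ ∂D.μ₁ ≤ Cb * δ ^ 2 * ns D g := by
    refine le_trans (setIntegral_mono_set ?_ (Filter.Eventually.of_forall fun x =>
      integral_nonneg fun _ => sq_nonneg _) (Filter.Eventually.of_forall hD₁K))
      (hb δ hδ0.le g hgB hgap)
    have i0 : Integrable (fun w : SL2 × H => (g w - G w.1) ^ 2)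
        ((D.μ₁.restrict K).prod (D.μ₂.restrict S)) :=
      wg_int _ _ ((hgB.meas.sub (hGm.comp measurable_fst)).pow_const 2) ((2 * B) ^ 2)
        fun w => wg_sq (hB _) (hGB _)
    exact i0.integral_prod_left
  -- I₂
  have hI2 : ∫ x in D₁, ∫ x' in D₁, (G x - G x') ^ 2 ∂D.μ₁ ∂D.μ₁ ≤
      m₃ * (2 * (Cd * s * ns D f) + 2 * (Cc * (C₇ / s) ^ 2 * δ ^ 2 * ns D g)) := by
    refine (wg_sub D.μ₁ D₁ R hD₁o.measurableSet hRo.measurableSet fD fR ?_ G B hGm hGB).trans ?_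
    · intro x hx p hp
      have e1 : p = (p * x) * x⁻¹ := by group
      have e2 := b4 (ρ / 4) (ρ / 4) (Set.mul_mem_mul hp ((b3 (ρ / 4) x).2 hx))
      rw [← e1] at e2
      exact b5 _ _ (by nlinarith) e2
    · have hp : ∀ p ∈ R, ∫ x in D₁, (G (p * x) - G x) ^ 2 ∂D.μ₁ ≤
          2 * (Cd * s * ns D f) + 2 * (Cc * (C₇ / s) ^ 2 * δ ^ 2 * ns D g) := by
        intro p hp
        have hη0 : 0 < Real.sqrt s := Real.sqrt_pos.2 hs0
        have hη1 : Real.sqrt s ≤ 1 := Real.sqrt_le_one.2 hs1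
        have hη2 : Real.sqrt s ^ 2 = s := Real.sq_sqrt hs0.le
        obtain ⟨L, hL1, hL2, γ, hγ, hγL, hγη⟩ := hnet p (b5 _ _ (min_le_left _ _) hp)
          (Real.sqrt s) hη0 hη1
        rw [hη2] at hL2
        have k1 := hdd f hf p (b5 _ _ hρ1 hp) (Real.sqrt s) hη0 hη1 γ hγ hγη
        have k2 := hcc δ hδ0.le g hgB hgap γ hγ L hL1 hγL
        rw [hη2, ← hg, ← hG] at k1
        rw [← hG] at k2
        have mγ : Measurable fun x : SL2 => G (γ.1 * x) := hGm.comp (measurable_const_mul γ.1)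
        have mp : Measurable fun x : SL2 => G (p * x) := hGm.comp (measurable_const_mul p)
        have bd1 : ∀ x, |(G (γ.1 * x) - G (p * x)) ^ 2| ≤ (2 * B) ^ 2 :=
          fun x => wg_sq (hGB _) (hGB _)
        have bd2 : ∀ x, |(G (γ.1 * x) - G x) ^ 2| ≤ (2 * B) ^ 2 := fun x => wg_sq (hGB _) (hGB _)
        have j1 : ∫ x in D₁, (G (γ.1 * x) - G (p * x)) ^ 2 ∂D.μ₁ ≤ Cd * s * ns D f :=
          le_trans (setIntegral_mono_set (wg_int (D.μ₁.restrict (Bs (1 / 4))) _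
            ((mγ.sub mp).pow_const 2) _ bd1) (Filter.Eventually.of_forall fun x => sq_nonneg _)
            (Filter.Eventually.of_forall hD₁4)) k1
        have j2 : ∫ x in D₁, (G (γ.1 * x) - G x) ^ 2 ∂D.μ₁ ≤ Cc * (L : ℝ) ^ 2 * δ ^ 2 * ns D g :=
          le_trans (setIntegral_mono_set (wg_int (D.μ₁.restrict K) _
            ((mγ.sub hGm).pow_const 2) _ bd2) (Filter.Eventually.of_forall fun x => sq_nonneg _)
            (Filter.Eventually.of_forall hD₁K)) k2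
        have j3 : Cc * (L : ℝ) ^ 2 * δ ^ 2 * ns D g ≤ Cc * (C₇ / s) ^ 2 * δ ^ 2 * ns D g := by
          have : (L : ℝ) ^ 2 ≤ (C₇ / s) ^ 2 := pow_le_pow_left₀ (Nat.cast_nonneg L) hL2 2
          gcongr
        have i1 : Integrable (fun x => (G (γ.1 * x) - G (p * x)) ^ 2) (D.μ₁.restrict D₁) :=
          wg_int _ _ ((mγ.sub mp).pow_const 2) _ bd1
        have i2 : Integrable (fun x => (G (γ.1 * x) - G x) ^ 2) (D.μ₁.restrict D₁) :=
          wg_int _ _ ((mγ.sub hGm).pow_const 2) _ bd2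
        calc ∫ x in D₁, (G (p * x) - G x) ^ 2 ∂D.μ₁
            ≤ ∫ x in D₁, (2 * (G (γ.1 * x) - G (p * x)) ^ 2 + 2 * (G (γ.1 * x) - G x) ^ 2)
                ∂D.μ₁ := by
              refine integral_mono (wg_int _ _ ((mp.sub hGm).pow_const 2) _
                fun x => wg_sq (hGB _) (hGB _)) ((i1.const_mul 2).add (i2.const_mul 2))
                fun x => ?_
              simp only
              nlinarith [sq_nonneg ((G (γ.1 * x) - G (p * x)) + (G (γ.1 * x) - G x))]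
          _ = 2 * ∫ x in D₁, (G (γ.1 * x) - G (p * x)) ^ 2 ∂D.μ₁ +
                2 * ∫ x in D₁, (G (γ.1 * x) - G x) ^ 2 ∂D.μ₁ := by
              rw [integral_add (i1.const_mul 2) (i2.const_mul 2), integral_const_mul,
                integral_const_mul]
          _ ≤ _ := by linarith
      have hcon : ∫ p in R, ∫ x in D₁, (G (p * x) - G x) ^ 2 ∂D.μ₁ ∂D.μ₁ ≤
          ∫ _p in R, (2 * (Cd * s * ns D f) + 2 * (Cc * (C₇ / s) ^ 2 * δ ^ 2 * ns D g)) ∂D.μ₁ := by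
        refine integral_mono_of_nonneg (Filter.Eventually.of_forall fun x =>
          integral_nonneg fun _ => sq_nonneg _) (integrable_const _) ?_
        exact (ae_restrict_iff' hRo.measurableSet).2 (Filter.Eventually.of_forall hp)
      rw [integral_const, smul_eq_mul] at hcon
      exact hcon
  -- conclusion
  have hX : 0 ≤ ns D g := hng
  have hfin : ns D g ≤ 3 * m₁ * (Cb * δ ^ 2 * ns D g) + 3 / 2 * m₂ ^ 2 *
      (m₃ * (2 * (Cd * s * ns D f) + 2 * (Cc * (C₇ / s) ^ 2 * δ ^ 2 * ns D g))) := by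
    have e1 := mul_le_mul_of_nonneg_left hI1 hm₁0
    have e2 := mul_le_mul_of_nonneg_left hI2 (sq_nonneg m₂)
    linarith
  refine hfin.trans ?_
  have hs2 : 0 < s ^ 2 := by positivity
  have hδs : δ ^ 2 ≤ δ ^ 2 / s ^ 2 := by
    rw [le_div_iff₀ hs2]
    have : s ^ 2 ≤ 1 := pow_le_one₀ hs0.le hs1
    nlinarith [sq_nonneg δ]
  have e3 : 3 * m₁ * (Cb * δ ^ 2 * ns D g) ≤ 3 * m₁ * Cb * (δ ^ 2 / s ^ 2 * ns D g) := by
    have := mul_le_mul_of_nonneg_right hδs hX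
    have h0 : 0 ≤ 3 * m₁ * Cb := by positivity
    calc 3 * m₁ * (Cb * δ ^ 2 * ns D g) = 3 * m₁ * Cb * (δ ^ 2 * ns D g) := by ring
      _ ≤ _ := mul_le_mul_of_nonneg_left this h0
  have e4 : 3 / 2 * m₂ ^ 2 *
      (m₃ * (2 * (Cd * s * ns D f) + 2 * (Cc * (C₇ / s) ^ 2 * δ ^ 2 * ns D g))) =
      3 * m₂ ^ 2 * m₃ * Cd * (s * ns D f) +
        3 * m₂ ^ 2 * m₃ * Cc * C₇ ^ 2 * (δ ^ 2 / s ^ 2 * ns D g) := by
    field_simp
  rw [e4]
  have p1 : 0 ≤ s * ns D f := by positivity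
  have p2 : 0 ≤ δ ^ 2 / s ^ 2 * ns D g := by positivity
  have q3 : 0 ≤ 3 * m₁ * Cb := by positivity
  have q4 : 0 ≤ 3 * m₂ ^ 2 * m₃ * Cd := by positivity
  have q5 : 0 ≤ 3 * m₂ ^ 2 * m₃ * Cc * C₇ ^ 2 := by positivity
  nlinarith [mul_nonneg q3 p1, mul_nonneg q4 p2, mul_nonneg q5 p1]

theorem tWG (_h1 : S_nrm) (h2 : S_Bs) (h3 : S_inst SL2 H) (h4 : S_BI SL2 H) (h5 : S_TR SL2 H)
    (_h6 : S_loc SL2 H) (h7 : S_b SL2 H) (h8 : S_c SL2 H) (h9 : S_cov SL2 H) (h10 : S_var SL2 H)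
    (h11 : S_d H) (h12 : S_NetG H) : S_WG H := by
  intro D hD κ ε hε hκ
  have hκB : KB κ := by
    refine ⟨hκ.meas, hκ.bdd, {g | nrm (g.1 - 1) ≤ ε}, h2.2.2.2.2.2.2.1 ε, fun g hg => ?_⟩
    refine hκ.supp g fun h => hg ?_
    have h' : nrm (g.1 - 1) < ε := h
    exact h'.le
  obtain ⟨A, hA, key⟩ := wg_key H h2 h3 h5 h7 h8 h9 h10 h11 h12 D hD κ ε hε hκ hκB
  obtain ⟨-, -, -, -, -, -, -, -, -, c10, -⟩ := h4 D hD
  obtain ⟨-, -, -, -, -, -, t7, -⟩ := h5 D hD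
  have hS0 : 0 < Real.sqrt (2 * A) := Real.sqrt_pos.2 (by linarith)
  have hS2 : Real.sqrt (2 * A) ^ 2 = 2 * A := Real.sq_sqrt (by linarith)
  refine ⟨2 * A * Real.sqrt (2 * A) + Real.sqrt (2 * A), by positivity,
    fun δ hδ0 hδ1 f hf hf0 hgap => ?_⟩
  have hnf : 0 ≤ ns D f := c10 f
  have hng : 0 ≤ ns D (RR D κ f) := c10 _
  have hle : ns D (RR D κ f) ≤ ns D f := by
    have := t7 κ f hκB hf
    rwa [hκ.int, ENNReal.toReal_one, one_pow, one_mul] at this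
  have hsδ : 0 < Real.sqrt (2 * A) * δ := by positivity
  rcases le_or_gt (Real.sqrt (2 * A) * δ) 1 with h | h
  · have k := key δ hδ0 hδ1 f hf hf0 hgap hnf hng (Real.sqrt (2 * A) * δ) hsδ h
    have e1 : A * (δ ^ 2 / (Real.sqrt (2 * A) * δ) ^ 2 * ns D (RR D κ f)) =
        ns D (RR D κ f) / 2 := by
      rw [mul_pow, hS2]
      field_simp
    rw [mul_add, e1] at k
    have e2 : ns D (RR D κ f) ≤ 2 * (A * (Real.sqrt (2 * A) * δ * ns D f)) := by linarith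
    refine e2.trans ?_
    have : 0 ≤ Real.sqrt (2 * A) * δ * ns D f := by positivity
    calc 2 * (A * (Real.sqrt (2 * A) * δ * ns D f)) =
        2 * A * Real.sqrt (2 * A) * δ * ns D f := by ring
      _ ≤ 2 * A * Real.sqrt (2 * A) * δ * ns D f + Real.sqrt (2 * A) * δ * ns D f := by linarith
      _ = _ := by ring
  · refine hle.trans ?_
    have e1 : ns D f ≤ Real.sqrt (2 * A) * δ * ns D f := by nlinarith
    have e2 : 0 ≤ 2 * A * Real.sqrt (2 * A) * δ * ns D f := by positivity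
    calc ns D f ≤ Real.sqrt (2 * A) * δ * ns D f := e1
      _ ≤ 2 * A * Real.sqrt (2 * A) * δ * ns D f + Real.sqrt (2 * A) * δ * ns D f := by linarith
      _ = _ := by ring

end

end Pool.Agent.MPEF
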