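import Pool.Agent.Lib.MP_ef3f0f_gt.Q.Spec

set_option autoImplicit false
set_option linter.unusedSectionVars false

/-! Averages over `H`. -/

namespace Pool.Agent.MPEF

open MeasureTheory Topology
open scoped ENNReal Pointwise

variable (P H : Type) [Group P] [Group H] [TopologicalSpace P] [TopologicalSpace H]
  [IsTopologicalGroup P] [IsTopologicalGroup H] [LocallyCompactSpace P] [LocallyCompactSpace H]
  [T2Space P] [T2Space H] [SecondCountableTopology P] [SecondCountableTopology H]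
  [MeasurableSpace P] [MeasurableSpace H] [BorelSpace P] [BorelSpace H]

/-- Variance form of Cauchy - Schwarz on a set of finite measure. -/
private theorem b_cs {α : Type} [MeasurableSpace α] (μ : Measure α) (S : Set α)
    (hS0 : 0 < (μ S).toReal) (hSf : μ S ≠ ∞) (u : α → ℝ) (hu : Measurable u)
    (hb : ∃ C : ℝ, ∀ x, |u x| ≤ C) :
    ((μ S).toReal⁻¹ * ∫ y in S, u y ∂μ) ^ 2 ≤ (μ S).toReal⁻¹ * ∫ y in S, u y ^ 2 ∂μ := by
  obtain ⟨C, hC⟩ := hb
  haveI : IsFiniteMeasure (μ.restrict S) := ⟨by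
    rw [Measure.restrict_apply_univ]
    exact hSf.lt_top⟩
  have i1 : Integrable u (μ.restrict S) :=
    Integrable.of_bound hu.aestronglyMeasurable C
      (Filter.Eventually.of_forall fun x => by rw [Real.norm_eq_abs]; exact hC x)
  have i2 : Integrable (fun y => u y ^ 2) (μ.restrict S) := by
    refine Integrable.of_bound (hu.pow_const 2).aestronglyMeasurable (C ^ 2)
      (Filter.Eventually.of_forall fun x => ?_)
    rw [Real.norm_eq_abs, abs_of_nonneg (sq_nonneg _), ← sq_abs]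
    exact pow_le_pow_left₀ (abs_nonneg _) (hC x) 2
  set m : ℝ := (μ S).toReal with hm
  set a : ℝ := m⁻¹ * ∫ y in S, u y ∂μ with ha
  have e0 : ∫ y in S, u y ∂μ = m * a := by
    rw [ha, ← mul_assoc, mul_inv_cancel₀ hS0.ne', one_mul]
  have h0 : 0 ≤ ∫ y in S, (u y - a) ^ 2 ∂μ := integral_nonneg fun y => sq_nonneg _
  have e1 : ∫ y in S, (u y - a) ^ 2 ∂μ = (∫ y in S, u y ^ 2 ∂μ) - m * a ^ 2 := by
    have e2 : (fun y => (u y - a) ^ 2) = fun y => (u y ^ 2 - 2 * a * u y) + a ^ 2 := by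
      funext y
      ring
    have i3 : Integrable (fun y => u y ^ 2 - 2 * a * u y) (μ.restrict S) :=
      i2.sub (i1.const_mul (2 * a))
    rw [e2, integral_add i3 (integrable_const _),
      integral_sub i2 (i1.const_mul (2 * a)), integral_const_mul, e0, integral_const,
      smul_eq_mul]
    have e3 : (μ.restrict S).real Set.univ = m := by
      simp [Measure.real, hm]
    rw [e3]
    ring
  rw [e1] at h0
  have h1 : m * a ^ 2 ≤ ∫ y in S, u y ^ 2 ∂μ := by linarith
  calc a ^ 2 = m⁻¹ * (m * a ^ 2) := by rw [← mul_assoc, inv_mul_cancel₀ hS0.ne', one_mul]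
    _ ≤ m⁻¹ * ∫ y in S, u y ^ 2 ∂μ := mul_le_mul_of_nonneg_left h1 (inv_nonneg.mpr hS0.le)

/-- The pointwise bound. -/
private theorem b_pt (hi : S_inst P H) (hO : S_O P H) (D : Dat P H) (hD : D.Ok) (c : ℕ)
    (hc : 1 ≤ c) (g : P × H → ℝ) (hg : BI D g) (x : P) (y : H) (hy : y ∈ D.O ^ c) :
    ENNReal.ofReal ((g (x, y) - g1 D c g x) ^ 2) ≤
      ENNReal.ofReal (D.μ₂ (D.O ^ c)).toReal⁻¹ *
        ∫⁻ h in D.O ^ (2 * c), ENNReal.ofReal ((g (x, y) - g (x, y * h)) ^ 2) ∂D.μ₂ := by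
  obtain ⟨hO1, hO2, hO3, hO4, hO5, hO6, hO7⟩ := hO D hD
  haveI := hD.haar₂
  have hSo : IsOpen (D.O ^ c) := hO1 c hc
  have hSf : D.μ₂ (D.O ^ c) ≠ ∞ :=
    ne_top_of_le_ne_top (hO6 c).measure_lt_top.ne (measure_mono subset_closure)
  have hS0 : 0 < (D.μ₂ (D.O ^ c)).toReal :=
    ENNReal.toReal_pos (hSo.measure_pos D.μ₂ ⟨1, hO2 c⟩).ne' hSf
  obtain ⟨B, hB⟩ := hg.bdd
  have hgx : Measurable fun y' : H => g (x, y') :=
    hg.meas.comp (measurable_const.prodMk measurable_id)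
  have hu : Measurable fun y' : H => g (x, y) - g (x, y') := measurable_const.sub hgx
  have hub : ∀ y', |g (x, y) - g (x, y')| ≤ 2 * B := by
    intro y'
    calc |g (x, y) - g (x, y')| ≤ |g (x, y)| + |g (x, y')| := abs_sub _ _
      _ ≤ B + B := add_le_add (hB _) (hB _)
      _ = 2 * B := by ring
  have h1 := b_cs D.μ₂ (D.O ^ c) hS0 hSf (fun y' => g (x, y) - g (x, y')) hu ⟨2 * B, hub⟩
  haveI : IsFiniteMeasure (D.μ₂.restrict (D.O ^ c)) := ⟨by
    rw [Measure.restrict_apply_univ]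
    exact hSf.lt_top⟩
  have i1 : Integrable (fun y' => g (x, y')) (D.μ₂.restrict (D.O ^ c)) :=
    Integrable.of_bound hgx.aestronglyMeasurable B
      (Filter.Eventually.of_forall fun x => by rw [Real.norm_eq_abs]; exact hB _)
  have i2 : Integrable (fun y' => (g (x, y) - g (x, y')) ^ 2) (D.μ₂.restrict (D.O ^ c)) := by
    refine Integrable.of_bound (hu.pow_const 2).aestronglyMeasurable ((2 * B) ^ 2)
      (Filter.Eventually.of_forall fun y' => ?_)
    rw [Real.norm_eq_abs, abs_of_nonneg (sq_nonneg _), ← sq_abs]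
    exact pow_le_pow_left₀ (abs_nonneg _) (hub y') 2
  have e1 : (D.μ₂ (D.O ^ c)).toReal⁻¹ * ∫ y' in D.O ^ c, (g (x, y) - g (x, y')) ∂D.μ₂ =
      g (x, y) - g1 D c g x := by
    rw [integral_sub (integrable_const _) i1, integral_const, smul_eq_mul]
    have e3 : (D.μ₂.restrict (D.O ^ c)).real Set.univ = (D.μ₂ (D.O ^ c)).toReal := by
      simp [Measure.real]
    rw [e3, mul_sub, ← mul_assoc, inv_mul_cancel₀ hS0.ne', one_mul]
    rfl
  rw [e1] at h1
  calc ENNReal.ofReal ((g (x, y) - g1 D c g x) ^ 2)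
      ≤ ENNReal.ofReal ((D.μ₂ (D.O ^ c)).toReal⁻¹ *
          ∫ y' in D.O ^ c, (g (x, y) - g (x, y')) ^ 2 ∂D.μ₂) := ENNReal.ofReal_le_ofReal h1
    _ = ENNReal.ofReal (D.μ₂ (D.O ^ c)).toReal⁻¹ *
          ∫⁻ y' in D.O ^ c, ENNReal.ofReal ((g (x, y) - g (x, y')) ^ 2) ∂D.μ₂ := by
        rw [ENNReal.ofReal_mul (inv_nonneg.mpr hS0.le), ofReal_integral_eq_lintegral_ofReal i2
          (Filter.Eventually.of_forall fun y' => sq_nonneg _)]
    _ ≤ _ := by
        refine mul_le_mul_right ?_ _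
        rw [← lintegral_indicator hSo.measurableSet,
          ← lintegral_indicator (hO1 (2 * c) (by omega)).measurableSet,
          ← lintegral_mul_left_eq_self _ y]
        refine lintegral_mono fun h => ?_
        by_cases hh : y * h ∈ D.O ^ c
        · have hh2 : h ∈ D.O ^ (2 * c) := by
            have e4 : h = y⁻¹ * (y * h) := by group
            rw [e4, two_mul, pow_add]
            exact Set.mul_mem_mul (hO3 c y hy) hh
          rw [Set.indicator_of_mem hh, Set.indicator_of_mem hh2]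
        · rw [Set.indicator_of_notMem hh]
          exact zero_le

theorem tb : S_inst P H → S_O P H → S_BI P H → S_TR P H → S_loc P H → S_a P H → S_b P H := by
  intro hi hO hBI hT hloc ha D hD K hK c hc
  obtain ⟨hO1, hO2, hO3, hO4, hO5, hO6, hO7⟩ := hO D hD
  obtain ⟨hσ₁, hσ₂, hσ, -⟩ := hi D hD
  obtain ⟨hB1, -, -, -, -, -, -, -, -, hB10, -⟩ := hBI D hD
  obtain ⟨-, -, hT3, -⟩ := hT D hD
  obtain ⟨Ca, hCa, hA⟩ := ha D hD
  have hSo : IsOpen (D.O ^ c) := hO1 c hc
  have hTo : IsOpen (D.O ^ (2 * c)) := hO1 (2 * c) (by omega)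
  obtain ⟨Cl, hCl, hL⟩ := hloc D hD (K ×ˢ closure (D.O ^ c)) (hK.prod (hO6 c))
  haveI := hD.haar₁
  haveI := hD.haar₂
  have hTf : D.μ₂ (D.O ^ (2 * c)) ≠ ∞ :=
    ne_top_of_le_ne_top (hO6 (2 * c)).measure_lt_top.ne (measure_mono subset_closure)
  have hKm : MeasurableSet K := hK.measurableSet
  have hKS : D.μ (K ×ˢ closure (D.O ^ c)) ≠ ∞ := by
    unfold Dat.μ
    rw [Measure.prod_prod]
    exact ENNReal.mul_ne_top hK.measure_lt_top.ne (hO6 c).measure_lt_top.ne
  set m : ℝ := (D.μ₂ (D.O ^ c)).toReal⁻¹ with hm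
  have hm0 : 0 ≤ m := inv_nonneg.mpr ENNReal.toReal_nonneg
  set t : ℝ := (D.μ₂ (D.O ^ (2 * c))).toReal with ht
  have ht0 : 0 ≤ t := ENNReal.toReal_nonneg
  refine ⟨m * (t * (Cl * (Ca * ((2 * c : ℕ) : ℝ) ^ 2))), by positivity,
    fun δ hδ g hg hgap => ?_⟩
  obtain ⟨B, hB⟩ := hg.bdd
  have hns : 0 ≤ ns D g := hB10 g
  have hgm := hg.meas
  -- the triple function
  have hΨ : Measurable fun q : (P × H) × H => ENNReal.ofReal ((g q.1 - g (q.1.1, q.1.2 * q.2)) ^ 2) := by
    refine (((hgm.comp measurable_fst).sub (hgm.comp ?_)).pow_const 2).ennreal_ofReal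
    exact (measurable_fst.comp measurable_fst).prodMk
      ((measurable_snd.comp measurable_fst).mul measurable_snd)
  have hφ : Measurable fun q : P × H => (g q - g1 D c g q.1) ^ 2 := by
    have h1 : Measurable fun x : P => g1 D c g x := by
      unfold g1
      exact (hgm.stronglyMeasurable.integral_prod_right' (ν := D.μ₂.restrict (D.O ^ c))).measurable.const_mul _
    exact (hgm.sub (h1.comp measurable_fst)).pow_const 2
  -- (A)
  have hΦ : Measurable fun x : P => ∫ y in D.O ^ c, (g (x, y) - g1 D c g x) ^ 2 ∂D.μ₂ :=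
    (hφ.stronglyMeasurable.integral_prod_right' (ν := D.μ₂.restrict (D.O ^ c))).measurable
  have hR0 : 0 ≤ m * (t * (Cl * (Ca * ((2 * c : ℕ) : ℝ) ^ 2))) * δ ^ 2 * ns D g := by positivity
  rw [integral_eq_lintegral_of_nonneg_ae
    (Filter.Eventually.of_forall fun x => integral_nonneg fun y => sq_nonneg _)
    hΦ.aestronglyMeasurable]
  refine ENNReal.toReal_le_of_le_ofReal hR0 ?_
  -- (E)
  have hE : ∀ h ∈ D.O ^ (2 * c), ∫⁻ q in K ×ˢ (D.O ^ c),
      ENNReal.ofReal ((g q - g (q.1, q.2 * h)) ^ 2) ∂D.μ ≤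
      ENNReal.ofReal (Cl * (Ca * ((2 * c : ℕ) : ℝ) ^ 2 * δ ^ 2 * ns D g)) := by
    intro h hh
    have hf : BI D (fun x => tau h g x - g x) := (hB1 _ _ (hT3 h g hg) hg).2
    have h1 := hL 1 _ hf
    have h2 := hA δ hδ g hg hgap (2 * c) h hh
    obtain ⟨B', hB'⟩ := hf.bdd
    haveI : IsFiniteMeasure (D.μ.restrict (K ×ˢ closure (D.O ^ c))) := ⟨by
      rw [Measure.restrict_apply_univ]
      exact hKS.lt_top⟩
    have i1 : Integrable (fun k : P × H => (fun x => tau h g x - g x) (1 * k) ^ 2)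
        (D.μ.restrict (K ×ˢ closure (D.O ^ c))) := by
      refine Integrable.of_bound ((hf.meas.comp (measurable_const_mul 1)).pow_const
        2).aestronglyMeasurable (B' ^ 2) (Filter.Eventually.of_forall fun y' => ?_)
      rw [Real.norm_eq_abs, abs_of_nonneg (sq_nonneg _), ← sq_abs]
      exact pow_le_pow_left₀ (abs_nonneg _) (hB' _) 2
    calc ∫⁻ q in K ×ˢ (D.O ^ c), ENNReal.ofReal ((g q - g (q.1, q.2 * h)) ^ 2) ∂D.μ
        ≤ ∫⁻ q in K ×ˢ closure (D.O ^ c), ENNReal.ofReal ((g q - g (q.1, q.2 * h)) ^ 2) ∂D.μ :=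
          lintegral_mono_set (Set.prod_mono_right subset_closure)
      _ = ∫⁻ q in K ×ˢ closure (D.O ^ c),
            ENNReal.ofReal ((fun x => tau h g x - g x) (1 * q) ^ 2) ∂D.μ := by
          refine lintegral_congr fun q => ?_
          have e5 : q * ((1 : P), h) = (q.1, q.2 * h) := Prod.ext (by simp) (by simp)
          simp only [tau, one_mul, e5]
          congr 1
          ring
      _ = ENNReal.ofReal (∫ q in K ×ˢ closure (D.O ^ c),
            (fun x => tau h g x - g x) (1 * q) ^ 2 ∂D.μ) :=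
          (ofReal_integral_eq_lintegral_ofReal i1
            (Filter.Eventually.of_forall fun y' => sq_nonneg _)).symm
      _ ≤ _ := ENNReal.ofReal_le_ofReal (h1.trans (mul_le_mul_of_nonneg_left h2 hCl))
  calc ∫⁻ x in K, ENNReal.ofReal (∫ y in D.O ^ c, (g (x, y) - g1 D c g x) ^ 2 ∂D.μ₂) ∂D.μ₁
      ≤ ∫⁻ x in K, (ENNReal.ofReal m * ∫⁻ y in D.O ^ c, ∫⁻ h in D.O ^ (2 * c),
          ENNReal.ofReal ((g (x, y) - g (x, y * h)) ^ 2) ∂D.μ₂ ∂D.μ₂) ∂D.μ₁ := by
        refine lintegral_mono fun x => ?_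
        change ENNReal.ofReal (∫ y in D.O ^ c, (g (x, y) - g1 D c g x) ^ 2 ∂D.μ₂) ≤ _
        have hφx : Measurable fun y : H => (g (x, y) - g1 D c g x) ^ 2 :=
          hφ.comp (measurable_const.prodMk measurable_id)
        rw [integral_eq_lintegral_of_nonneg_ae (Filter.Eventually.of_forall fun y => sq_nonneg _)
          hφx.aestronglyMeasurable]
        refine ENNReal.ofReal_toReal_le.trans ?_
        rw [← lintegral_const_mul' _ _ ENNReal.ofReal_ne_top]
        refine setLIntegral_mono' hSo.measurableSet fun y hy => ?_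
        exact b_pt P H hi hO D hD c hc g hg x y hy
    _ = ENNReal.ofReal m * ∫⁻ q in K ×ˢ (D.O ^ c), ∫⁻ h in D.O ^ (2 * c),
          ENNReal.ofReal ((g q - g (q.1, q.2 * h)) ^ 2) ∂D.μ₂ ∂D.μ := by
        rw [lintegral_const_mul' _ _ ENNReal.ofReal_ne_top]
        congr 1
        unfold Dat.μ
        rw [← Measure.prod_restrict, lintegral_prod]
        exact (hΨ.lintegral_prod_right' (ν := D.μ₂.restrict (D.O ^ (2 * c)))).aemeasurable
    _ = ENNReal.ofReal m * ∫⁻ h in D.O ^ (2 * c), ∫⁻ q in K ×ˢ (D.O ^ c),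
          ENNReal.ofReal ((g q - g (q.1, q.2 * h)) ^ 2) ∂D.μ ∂D.μ₂ := by
        rw [lintegral_lintegral_swap]
        exact hΨ.aemeasurable
    _ ≤ ENNReal.ofReal m * ∫⁻ h in D.O ^ (2 * c),
          ENNReal.ofReal (Cl * (Ca * ((2 * c : ℕ) : ℝ) ^ 2 * δ ^ 2 * ns D g)) ∂D.μ₂ := by
        refine mul_le_mul_right ?_ _
        exact setLIntegral_mono' hTo.measurableSet fun h hh => hE h hh
    _ = ENNReal.ofReal (m * (t * (Cl * (Ca * ((2 * c : ℕ) : ℝ) ^ 2))) * δ ^ 2 * ns D g) := by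
        rw [setLIntegral_const, ← ENNReal.ofReal_toReal hTf, ← ENNReal.ofReal_mul (by positivity),
          ← ENNReal.ofReal_mul hm0]
        congr 1
        rw [← ht]
        ring

end Pool.Agent.MPEF
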