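import Pool.Agent.Lib.MP_ef3f0f_gt.Q.Spec

set_option autoImplicit false

/-! MP_ef3f0f_gt, part II.2, module c: almost invariance of the averages under `Γ`. -/

namespace Pool.Agent.MPEF

open MeasureTheory Topology
open scoped ENNReal Pointwise

private theorem c_int {X : Type} [MeasurableSpace X] {ρ : Measure X} [IsFiniteMeasure ρ] {F : X → ℝ}
    (hF : Measurable F) {C : ℝ} (h : ∀ x, |F x| ≤ C) : Integrable F ρ :=
  Integrable.of_bound hF.aestronglyMeasurable C (ae_of_all _ h)

/-- Jensen -/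
private theorem c_jen {X : Type} [MeasurableSpace X] {ρ : Measure X} [IsFiniteMeasure ρ] {F : X → ℝ}
    (hF : Measurable F) {C : ℝ} (h : ∀ x, |F x| ≤ C) {m : ℝ} (hm : 0 < m) (hρ : ρ.real Set.univ = m) :
    (m⁻¹ * ∫ x, F x ∂ρ) ^ 2 ≤ m⁻¹ * ∫ x, F x ^ 2 ∂ρ := by
  set a : ℝ := m⁻¹ * ∫ x, F x ∂ρ with ha
  have i1 : Integrable F ρ := c_int hF h
  have i2 : Integrable (fun x => F x ^ 2) ρ := by
    refine c_int (hF.pow_const 2) (C := C ^ 2) fun x => ?_
    rw [abs_pow]
    exact pow_le_pow_left₀ (abs_nonneg _) (h x) 2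
  have h1 : 0 ≤ ∫ x, (F x - a) ^ 2 ∂ρ := integral_nonneg fun x => sq_nonneg _
  have h2 : ∫ x, (F x - a) ^ 2 ∂ρ = ∫ x, F x ^ 2 ∂ρ - 2 * a * ∫ x, F x ∂ρ + m * a ^ 2 := by
    have e1 : ∀ x, (F x - a) ^ 2 = F x ^ 2 - 2 * a * F x + a ^ 2 := fun x => by ring
    simp only [e1]
    have i3 : Integrable (fun x => F x ^ 2 - 2 * a * F x) ρ := i2.sub (i1.const_mul (2 * a))
    rw [integral_add i3 (integrable_const _), integral_sub i2 (i1.const_mul (2 * a)),
      integral_const_mul, integral_const, hρ, smul_eq_mul]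
  have h3 : ∫ x, F x ∂ρ = m * a := by
    rw [ha]
    field_simp
  rw [h2, h3] at h1
  have h4 : m * a ^ 2 ≤ ∫ x, F x ^ 2 ∂ρ := by nlinarith
  calc a ^ 2 = m⁻¹ * (m * a ^ 2) := by field_simp
    _ ≤ m⁻¹ * ∫ x, F x ^ 2 ∂ρ := mul_le_mul_of_nonneg_left h4 (by positivity)

variable (P H : Type) [Group P] [Group H] [TopologicalSpace P] [TopologicalSpace H]
  [IsTopologicalGroup P] [IsTopologicalGroup H] [LocallyCompactSpace P] [LocallyCompactSpace H]
  [T2Space P] [T2Space H] [SecondCountableTopology P] [SecondCountableTopology H]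
  [MeasurableSpace P] [MeasurableSpace H] [BorelSpace P] [BorelSpace H]

theorem tc : S_inst P H → S_O P H → S_BI P H → S_TR P H → S_loc P H → S_a P H → S_c P H := by
  intro hinst hO hBI hTR hloc ha D hD K hK c hc
  obtain ⟨i1, i2, i3, -, -, -, -, -, -⟩ := hinst D hD
  obtain ⟨oo, o1, oinv, omono, -, ocpt, -⟩ := hO D hD
  have := hD.haar₁
  have := hD.haar₂
  obtain ⟨Ca, hCa0, hCa⟩ := ha D hD
  obtain ⟨Cl, hCl0, hCl⟩ := hloc D hD (K ×ˢ closure (D.O ^ c)) (hK.prod (ocpt c))
  obtain ⟨B1, -⟩ := hBI D hD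
  obtain ⟨-, -, T3, -⟩ := hTR D hD
  -- measures
  have fin : ∀ n, D.μ₂ (D.O ^ n) < ∞ := fun n =>
    lt_of_le_of_lt (measure_mono subset_closure) (ocpt n).measure_lt_top
  have finK : D.μ₁ K < ∞ := hK.measure_lt_top
  set m : ℝ := (D.μ₂ (D.O ^ c)).toReal with hm
  have m0 : 0 < m := ENNReal.toReal_pos ((oo c hc).measure_pos D.μ₂ ⟨1, o1 c⟩).ne' (fin c).ne
  set M : ℝ := (D.μ₂ (D.O ^ (2 * c + 1))).toReal with hM
  have M0 : 0 ≤ M := ENNReal.toReal_nonneg
  have f1 : IsFiniteMeasure (D.μ₁.restrict K) := ⟨by rw [Measure.restrict_apply_univ]; exact finK⟩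
  have f2 : IsFiniteMeasure (D.μ₂.restrict (D.O ^ c)) := ⟨by rw [Measure.restrict_apply_univ]; exact fin c⟩
  have f3 : IsFiniteMeasure (D.μ₂.restrict (D.O ^ (2 * c + 1))) :=
    ⟨by rw [Measure.restrict_apply_univ]; exact fin _⟩
  have hKm : MeasurableSet K := hK.measurableSet
  have hOm : ∀ n, 1 ≤ n → MeasurableSet (D.O ^ n) := fun n hn => (oo n hn).measurableSet
  refine ⟨m⁻¹ * (m⁻¹ * (M * (Cl * (Ca * ((2 * c + 1 : ℕ) : ℝ) ^ 2)))), by positivity, ?_⟩
  intro δ hδ g hg hgap γ hγ L hL hγL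
  obtain ⟨gm, ⟨C, hC⟩, ginv⟩ := hg
  have hg' : BI D g := ⟨gm, ⟨C, hC⟩, ginv⟩
  have C0 : 0 ≤ C := le_trans (abs_nonneg _) (hC 1)
  set E : ℝ := Ca * ((2 * c + 1 : ℕ) : ℝ) ^ 2 * δ ^ 2 * ns D g with hE
  -- the averages
  set A : H → P → ℝ := fun p x => m⁻¹ * ∫ y in D.O ^ c, g (x, p * y) ∂D.μ₂ with hA
  have gmp : ∀ p : H, Measurable fun z : P × H => g (z.1, p * z.2) := fun p =>
    gm.comp (measurable_fst.prodMk (measurable_const.mul measurable_snd))
  have Am : ∀ p, Measurable (A p) := fun p => by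
    have h1 : StronglyMeasurable fun x : P => ∫ y, (fun z : P × H => g (z.1, p * z.2)) (x, y)
        ∂(D.μ₂.restrict (D.O ^ c)) := (gmp p).stronglyMeasurable.integral_prod_right'
    exact h1.measurable.const_mul _
  have hmr : (D.μ₂.restrict (D.O ^ c)).real Set.univ = m := by
    rw [measureReal_restrict_apply_univ]
    rfl
  have Ab : ∀ p x, |A p x| ≤ C := fun p x => by
    have h1 : ‖∫ y in D.O ^ c, g (x, p * y) ∂D.μ₂‖ ≤ C * (D.μ₂.restrict (D.O ^ c)).real Set.univ :=
      norm_integral_le_of_norm_le_const (ae_of_all _ fun y => hC _)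
    rw [hmr, Real.norm_eq_abs] at h1
    rw [hA]
    simp only
    rw [abs_mul, abs_of_pos (inv_pos.2 m0)]
    calc m⁻¹ * |∫ y in D.O ^ c, g (x, p * y) ∂D.μ₂| ≤ m⁻¹ * (C * m) :=
          mul_le_mul_of_nonneg_left h1 (inv_pos.2 m0).le
      _ = C := by field_simp
  have Ai : ∀ p q, Integrable (fun x => (A p x - A q x) ^ 2) (D.μ₁.restrict K) := fun p q => by
    refine c_int (((Am p).sub (Am q)).pow_const 2) (C := (2 * C) ^ 2) fun x => ?_
    rw [abs_pow]
    refine pow_le_pow_left₀ (abs_nonneg _) ?_ 2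
    have h1 := abs_le.1 (Ab p x)
    have h2 := abs_le.1 (Ab q x)
    rw [abs_le]
    constructor <;> linarith
  -- one step
  have step : ∀ p o : H, o ∈ D.O → ∫ x in K, (A p x - A (p * o) x) ^ 2 ∂D.μ₁ ≤ m⁻¹ * (m⁻¹ * (M * (Cl * E))) := by
    intro p o ho
    set Θ : (P × H) × H → ℝ := fun w => (g (w.1.1, p * w.1.2) - g (w.1.1, p * (w.1.2 * w.2))) ^ 2 with hΘ
    have Θm : Measurable Θ := by
      refine Measurable.pow_const (Measurable.sub ?_ ?_) 2
      · exact gm.comp ((measurable_fst.comp measurable_fst).prodMk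
          (measurable_const.mul (measurable_snd.comp measurable_fst)))
      · exact gm.comp ((measurable_fst.comp measurable_fst).prodMk
          (measurable_const.mul ((measurable_snd.comp measurable_fst).mul measurable_snd)))
    have Θ0 : ∀ w, 0 ≤ Θ w := fun w => sq_nonneg _
    have Θb : ∀ w, |Θ w| ≤ (2 * C) ^ 2 := fun w => by
      rw [hΘ]
      simp only
      rw [abs_pow]
      refine pow_le_pow_left₀ (abs_nonneg _) ?_ 2
      have h1 := abs_le.1 (hC (w.1.1, p * w.1.2))
      have h2 := abs_le.1 (hC (w.1.1, p * (w.1.2 * w.2)))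
      rw [abs_le]
      constructor <;> linarith
    -- the integral over `h`
    set J : P × H → ℝ := fun z => ∫ h in D.O ^ (2 * c + 1), Θ (z, h) ∂D.μ₂ with hJ
    have Jm : Measurable J := (Θm.stronglyMeasurable.integral_prod_right'
      (ν := D.μ₂.restrict (D.O ^ (2 * c + 1)))).measurable
    have Jb : ∀ z, |J z| ≤ (2 * C) ^ 2 * (D.μ₂.restrict (D.O ^ (2 * c + 1))).real Set.univ := fun z => by
      have h1 : ‖∫ h in D.O ^ (2 * c + 1), Θ (z, h) ∂D.μ₂‖ ≤
          (2 * C) ^ 2 * (D.μ₂.restrict (D.O ^ (2 * c + 1))).real Set.univ :=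
        norm_integral_le_of_norm_le_const (ae_of_all _ fun h => Θb (z, h))
      exact h1
    -- pointwise
    have pw : ∀ x, (A p x - A (p * o) x) ^ 2 ≤ m⁻¹ * (m⁻¹ * ∫ y in D.O ^ c, J (x, y) ∂D.μ₂) := by
      intro x
      have gx : ∀ q : H, Measurable fun y : H => g (x, q * y) := fun q =>
        gm.comp (measurable_const.prodMk (measurable_const.mul measurable_id))
      have e1 : A p x - A (p * o) x = m⁻¹ * ∫ y in D.O ^ c, (g (x, p * y) - A (p * o) x) ∂D.μ₂ := by
        rw [integral_sub (c_int (gx p) fun y => hC _) (integrable_const _), integral_const, hmr, smul_eq_mul,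
          mul_sub]
        congr 1
        field_simp
      have e2 : ∀ y, g (x, p * y) - A (p * o) x =
          m⁻¹ * ∫ y' in D.O ^ c, (g (x, p * y) - g (x, p * o * y')) ∂D.μ₂ := by
        intro y
        rw [integral_sub (integrable_const _) (c_int (gx (p * o)) fun y => hC _), integral_const, hmr, smul_eq_mul,
          mul_sub]
        congr 1
        field_simp
      have b2 : ∀ y, |g (x, p * y) - A (p * o) x| ≤ 2 * C := fun y => by
        have h1 := abs_le.1 (hC (x, p * y))
        have h2 := abs_le.1 (Ab (p * o) x)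
        rw [abs_le]
        constructor <;> linarith
      have s1 : (A p x - A (p * o) x) ^ 2 ≤ m⁻¹ * ∫ y in D.O ^ c, (g (x, p * y) - A (p * o) x) ^ 2 ∂D.μ₂ := by
        rw [e1]
        exact c_jen ((gx p).sub measurable_const) b2 m0 hmr
      have s2 : ∀ y ∈ D.O ^ c, (g (x, p * y) - A (p * o) x) ^ 2 ≤ m⁻¹ * J (x, y) := by
        intro y hy
        have b3 : ∀ y', |g (x, p * y) - g (x, p * o * y')| ≤ 2 * C := fun y' => by
          have h1 := abs_le.1 (hC (x, p * y))
          have h2 := abs_le.1 (hC (x, p * o * y'))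
          rw [abs_le]
          constructor <;> linarith
        have t1 : (g (x, p * y) - A (p * o) x) ^ 2 ≤
            m⁻¹ * ∫ y' in D.O ^ c, (g (x, p * y) - g (x, p * o * y')) ^ 2 ∂D.μ₂ := by
          rw [e2 y]
          exact c_jen (measurable_const.sub (gx (p * o))) b3 m0 hmr
        refine t1.trans (mul_le_mul_of_nonneg_left ?_ (inv_pos.2 m0).le)
        -- change of variables `y' = o⁻¹ y h`
        have hmc : MeasurableSet (D.O ^ c) := hOm c hc
        rw [← integral_indicator hmc,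
          ← integral_mul_left_eq_self (μ := D.μ₂) ((D.O ^ c).indicator fun y' =>
            (g (x, p * y) - g (x, p * o * y')) ^ 2) (o⁻¹ * y)]
        rw [hJ]
        simp only
        rw [← integral_indicator (hOm (2 * c + 1) (by omega))]
        have mem : ∀ h : H, o⁻¹ * y * h ∈ D.O ^ c → h ∈ D.O ^ (2 * c + 1) := by
          intro h hh
          have h1 : h = y⁻¹ * o * (o⁻¹ * y * h) := by group
          rw [h1, show 2 * c + 1 = c + 1 + c from by ring, pow_add, pow_add, pow_one]
          exact Set.mul_mem_mul (Set.mul_mem_mul (oinv c y hy) ho) hh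
        have eqv : ∀ h : H, (g (x, p * y) - g (x, p * o * (o⁻¹ * y * h))) ^ 2 = Θ ((x, y), h) := by
          intro h
          rw [hΘ]
          simp only
          have : p * o * (o⁻¹ * y * h) = p * (y * h) := by group
          rw [this]
        have ind_b : ∀ h : H, |(D.O ^ (2 * c + 1)).indicator (fun h => Θ ((x, y), h)) h| ≤
            (D.O ^ (2 * c + 1)).indicator (fun _ => (2 * C) ^ 2) h := by
          intro h
          by_cases hh : h ∈ D.O ^ (2 * c + 1)
          · rw [Set.indicator_of_mem hh, Set.indicator_of_mem hh]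
            exact Θb _
          · rw [Set.indicator_of_notMem hh, Set.indicator_of_notMem hh, abs_zero]
        have Θxm : Measurable fun h : H => Θ ((x, y), h) := Θm.comp (measurable_const.prodMk measurable_id)
        have i2 : Integrable ((D.O ^ (2 * c + 1)).indicator fun h => Θ ((x, y), h)) D.μ₂ := by
          rw [integrable_indicator_iff (hOm (2 * c + 1) (by omega))]
          exact c_int Θxm fun h => Θb _
        have le : ∀ h : H, (D.O ^ c).indicator (fun y' => (g (x, p * y) - g (x, p * o * y')) ^ 2) (o⁻¹ * y * h) ≤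
            (D.O ^ (2 * c + 1)).indicator (fun h => Θ ((x, y), h)) h := by
          intro h
          by_cases hh : o⁻¹ * y * h ∈ D.O ^ c
          · rw [Set.indicator_of_mem hh, Set.indicator_of_mem (mem h hh), eqv h]
          · rw [Set.indicator_of_notMem hh]
            exact Set.indicator_nonneg (fun h _ => Θ0 _) _
        have nn : ∀ h : H, 0 ≤ (D.O ^ c).indicator (fun y' => (g (x, p * y) - g (x, p * o * y')) ^ 2)
            (o⁻¹ * y * h) := fun h => Set.indicator_nonneg (fun h _ => sq_nonneg _) _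
        exact integral_mono_of_nonneg (ae_of_all _ nn) i2 (ae_of_all _ le)
      have i4 : Integrable (fun y => J (x, y)) (D.μ₂.restrict (D.O ^ c)) :=
        c_int (Jm.comp (measurable_const.prodMk measurable_id)) fun y => Jb _
      refine s1.trans (mul_le_mul_of_nonneg_left ?_ (inv_pos.2 m0).le)
      rw [← integral_const_mul]
      refine setIntegral_mono_on ?_ (i4.const_mul _) (hOm c hc) s2
      refine c_int (((gx p).sub measurable_const).pow_const 2) (C := (2 * C) ^ 2) fun y => ?_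
      rw [abs_pow]
      exact pow_le_pow_left₀ (abs_nonneg _) (b2 y) 2
    -- integrate over `x`
    have i5 : Integrable J ((D.μ₁.restrict K).prod (D.μ₂.restrict (D.O ^ c))) := c_int Jm Jb
    have u1 : ∫ x in K, (A p x - A (p * o) x) ^ 2 ∂D.μ₁ ≤
        ∫ x in K, m⁻¹ * (m⁻¹ * ∫ y in D.O ^ c, J (x, y) ∂D.μ₂) ∂D.μ₁ :=
      integral_mono (Ai p (p * o)) ((i5.integral_prod_left.const_mul _).const_mul _) pw
    rw [integral_const_mul, integral_const_mul] at u1
    refine u1.trans (mul_le_mul_of_nonneg_left (mul_le_mul_of_nonneg_left ?_ (inv_pos.2 m0).le) (inv_pos.2 m0).le)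
    have u2 : ∫ x in K, ∫ y in D.O ^ c, J (x, y) ∂D.μ₂ ∂D.μ₁ =
        ∫ z, J z ∂((D.μ₁.restrict K).prod (D.μ₂.restrict (D.O ^ c))) := (integral_prod J i5).symm
    rw [u2]
    have i6 : Integrable Θ (((D.μ₁.restrict K).prod (D.μ₂.restrict (D.O ^ c))).prod
        (D.μ₂.restrict (D.O ^ (2 * c + 1)))) := c_int Θm Θb
    have u3 : ∫ z, J z ∂((D.μ₁.restrict K).prod (D.μ₂.restrict (D.O ^ c))) =
        ∫ h in D.O ^ (2 * c + 1), ∫ z, Θ (z, h) ∂((D.μ₁.restrict K).prod (D.μ₂.restrict (D.O ^ c))) ∂D.μ₂ :=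
      integral_integral_swap (f := fun z h => Θ (z, h)) i6
    rw [u3]
    have u4 : ∀ h ∈ D.O ^ (2 * c + 1),
        ∫ z, Θ (z, h) ∂((D.μ₁.restrict K).prod (D.μ₂.restrict (D.O ^ c))) ≤ Cl * E := by
      intro h hh
      set f : P × H → ℝ := fun z => tau h g z - g z with hf
      have hfB : BI D f := (B1 _ _ (T3 h g hg') hg').2
      have v1 := hCl ((1 : P), p) f hfB
      have v2 := hCa δ hδ g hg' hgap (2 * c + 1) h hh
      have v3 : ∀ z : P × H, f (((1 : P), p) * z) ^ 2 = Θ (z, h) := by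
        intro z
        have e1 : ((1 : P), p) * z = (z.1, p * z.2) := by
          ext
          · exact one_mul _
          · rfl
        have e2 : ((z.1, p * z.2) : P × H) * ((1 : P), h) = (z.1, p * (z.2 * h)) := by
          ext
          · exact mul_one _
          · exact mul_assoc _ _ _
        rw [hf, hΘ]
        simp only [tau]
        rw [e1, e2]
        ring
      have v4 : ∫ z, Θ (z, h) ∂((D.μ₁.restrict K).prod (D.μ₂.restrict (D.O ^ c))) ≤
          ∫ k in K ×ˢ closure (D.O ^ c), f (((1 : P), p) * k) ^ 2 ∂D.μ := by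
        simp only [v3]
        rw [Measure.prod_restrict]
        have hfin : D.μ (K ×ˢ closure (D.O ^ c)) < ∞ := by
          rw [Dat.μ, Measure.prod_prod]
          exact ENNReal.mul_lt_top finK (ocpt c).measure_lt_top
        have : IsFiniteMeasure (D.μ.restrict (K ×ˢ closure (D.O ^ c))) :=
          ⟨by rw [Measure.restrict_apply_univ]; exact hfin⟩
        refine setIntegral_mono_set ?_ (ae_of_all _ fun z => Θ0 (z, h))
          (Filter.Eventually.of_forall (Set.prod_mono subset_rfl subset_closure))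
        show Integrable (fun z => Θ (z, h)) (D.μ.restrict (K ×ˢ closure (D.O ^ c)))
        exact c_int (Θm.comp (measurable_id.prodMk measurable_const)) fun z => Θb _
      exact v4.trans (v1.trans (mul_le_mul_of_nonneg_left v2 hCl0))
    have i7 : Integrable (fun h => ∫ z, Θ (z, h) ∂((D.μ₁.restrict K).prod (D.μ₂.restrict (D.O ^ c))))
        (D.μ₂.restrict (D.O ^ (2 * c + 1))) := i6.integral_prod_right
    have u5 : ∫ h in D.O ^ (2 * c + 1), ∫ z, Θ (z, h) ∂((D.μ₁.restrict K).prod (D.μ₂.restrict (D.O ^ c))) ∂D.μ₂ ≤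
        ∫ _ in D.O ^ (2 * c + 1), Cl * E ∂D.μ₂ :=
      setIntegral_mono_on i7 (integrable_const _) (hOm _ (by omega)) u4
    refine u5.trans (le_of_eq ?_)
    rw [integral_const, measureReal_restrict_apply_univ, smul_eq_mul]
    rfl
  -- several steps
  set S : ℝ := m⁻¹ * (m⁻¹ * (M * (Cl * E))) with hS
  have many : ∀ (l : ℕ), ∀ q ∈ D.O ^ (l + 1), ∀ p : H,
      ∫ x in K, (A p x - A (p * q) x) ^ 2 ∂D.μ₁ ≤ ((l : ℝ) + 1) ^ 2 * S := by
    intro l
    induction l with
    | zero =>
      intro q hq p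
      rw [zero_add, pow_one] at hq
      have := step p q hq
      simpa using this
    | succ l ih =>
      intro q hq p
      rw [pow_succ] at hq
      obtain ⟨q', hq', o, ho, rfl⟩ := Set.mem_mul.1 hq
      have h1 := ih q' hq' p
      have h2 := step (p * q') o ho
      have hl : (0 : ℝ) < (l : ℝ) + 1 := by positivity
      have pw : ∀ x, (A p x - A (p * (q' * o)) x) ^ 2 ≤
          (1 + ((l : ℝ) + 1)⁻¹) * (A p x - A (p * q') x) ^ 2 +
            (1 + ((l : ℝ) + 1)) * (A (p * q') x - A (p * q' * o) x) ^ 2 := by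
        intro x
        rw [← mul_assoc p q' o]
        set a : ℝ := A p x - A (p * q') x
        set b : ℝ := A (p * q') x - A (p * q' * o) x
        have e1 : A p x - A (p * q' * o) x = a + b := by ring
        rw [e1]
        have h3 : 0 ≤ ((l : ℝ) + 1)⁻¹ * (a - ((l : ℝ) + 1) * b) ^ 2 := by positivity
        have h4 : ((l : ℝ) + 1)⁻¹ * (a - ((l : ℝ) + 1) * b) ^ 2 =
            ((l : ℝ) + 1)⁻¹ * a ^ 2 - 2 * a * b + ((l : ℝ) + 1) * b ^ 2 := by
          field_simp
          ring
        rw [h4] at h3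
        nlinarith
      have h5 := integral_mono (Ai p (p * (q' * o))) (((Ai p (p * q')).const_mul (1 + ((l : ℝ) + 1)⁻¹)).add
        ((Ai (p * q') (p * q' * o)).const_mul (1 + ((l : ℝ) + 1)))) pw
      simp only [Pi.add_apply] at h5
      rw [integral_add ((Ai p (p * q')).const_mul (1 + ((l : ℝ) + 1)⁻¹))
        ((Ai (p * q') (p * q' * o)).const_mul (1 + ((l : ℝ) + 1))), integral_const_mul, integral_const_mul] at h5
      refine h5.trans ?_
      have h6 : (1 + ((l : ℝ) + 1)⁻¹) * ∫ x in K, (A p x - A (p * q') x) ^ 2 ∂D.μ₁ ≤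
          (1 + ((l : ℝ) + 1)⁻¹) * (((l : ℝ) + 1) ^ 2 * S) := mul_le_mul_of_nonneg_left h1 (by positivity)
      have h7 : (1 + ((l : ℝ) + 1)) * ∫ x in K, (A (p * q') x - A (p * q' * o) x) ^ 2 ∂D.μ₁ ≤
          (1 + ((l : ℝ) + 1)) * S := mul_le_mul_of_nonneg_left h2 (by positivity)
      refine (add_le_add h6 h7).trans (le_of_eq ?_)
      push_cast
      field_simp
      ring
  obtain ⟨l, rfl⟩ : ∃ l, L = l + 1 := ⟨L - 1, by omega⟩
  have h1 := many l γ.2 hγL γ.2⁻¹
  rw [inv_mul_cancel] at h1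
  have e1 : ∀ x, A γ.2⁻¹ x = g1 D c g (γ.1 * x) := by
    intro x
    rw [hA]
    simp only [g1]
    congr 1
    refine integral_congr_ae (ae_of_all _ fun y => ?_)
    simp only
    rw [← ginv γ hγ (x, γ.2⁻¹ * y)]
    congr 1
    ext
    · rfl
    · exact mul_inv_cancel_left _ _
  have e2 : ∀ x, A 1 x = g1 D c g x := by
    intro x
    rw [hA]
    simp only [g1, one_mul]
    rfl
  simp only [e1, e2] at h1
  refine h1.trans (le_of_eq ?_)
  rw [hS, hE]
  push_cast
  ring

end Pool.Agent.MPEF
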