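import Pool.Agent.Lib.MP_ef3f0f_gt.Q.Spec

set_option autoImplicit false

/-! MP_ef3f0f_gt, part II, module cov: covering by a product. -/

namespace Pool.Agent.MPEF

open MeasureTheory Topology
open scoped ENNReal Pointwise

section General

variable (P H : Type) [Group P] [Group H] [TopologicalSpace P] [TopologicalSpace H]
  [IsTopologicalGroup P] [IsTopologicalGroup H] [LocallyCompactSpace P] [LocallyCompactSpace H]
  [T2Space P] [T2Space H] [SecondCountableTopology P] [SecondCountableTopology H]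
  [MeasurableSpace P] [MeasurableSpace H] [BorelSpace P] [BorelSpace H]

theorem tcov (hnu : S_nu P H) (hLo : S_Lo P H) : S_cov P H := by
  intro D hD U hU hne
  classical
  obtain ⟨b, c, hb, hc, h⟩ := hLo D hD (U.indicator fun _ => 1) U 1
    (measurable_const.indicator hU.measurableSet) hU hne one_pos (fun g hg => by
      rw [Set.indicator_of_mem hg])
  refine ⟨b, hb, fun y => ?_⟩
  have h1 := h b le_rfl 1 1 1 y
  have h2 : D.N (D.tk (fun g => (U.indicator fun _ => (1 : ℝ≥0∞)) (1 * g * 1)) b) 1 y ≠ 0 :=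
    (hc.trans_le h1).ne'
  unfold Dat.N at h2
  rw [Ne, ENNReal.tsum_eq_zero, not_forall] at h2
  obtain ⟨u, hu⟩ := h2
  rw [inv_one, one_mul] at hu
  unfold Dat.tk at hu
  beta_reduce at hu
  rw [one_mul, mul_one] at hu
  obtain ⟨hu1, hu2⟩ := mul_ne_zero_iff.1 hu
  refine ⟨u, u.2, ?_, ?_⟩
  · by_contra hn
    exact hu1 (Set.indicator_of_notMem hn _)
  · exact ((hnu D hD).2.2.1 b hb _).1 (pos_iff_ne_zero.2 hu2)

end General

end Pool.Agent.MPEF
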