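import Pool.Agent.Lib.MP_ef3f0f_gt.Q.Spec

set_option autoImplicit false

/-! MP_ef3f0f_gt, part II, module d: smoothness estimate. -/

namespace Pool.Agent.MPEF

open MeasureTheory Topology
open scoped ENNReal Pointwise

private theorem d_integrable {α : Type} [MeasurableSpace α] (m : Measure α) [IsFiniteMeasure m]
    (φ : α → ℝ) (hφ : Measurable φ) (C : ℝ) (hC : ∀ x, |φ x| ≤ C) : Integrable φ m :=
  Integrable.of_bound hφ.aestronglyMeasurable C (Filter.Eventually.of_forall hC)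

private theorem d_sqb (t C : ℝ) (h : |t| ≤ C) : |t ^ 2| ≤ C ^ 2 := by
  rw [abs_pow]
  exact pow_le_pow_left₀ (abs_nonneg _) h 2

private theorem d_cs {α : Type} [MeasurableSpace α] (m : Measure α) [IsFiniteMeasure m]
    (φ : α → ℝ) (hφ : Measurable φ) (C : ℝ) (hC : ∀ x, |φ x| ≤ C) :
    (∫ x, φ x ∂m) ^ 2 ≤ (m Set.univ).toReal * ∫ x, φ x ^ 2 ∂m := by
  have hi := d_integrable m φ hφ C hC
  have hi2 : Integrable (fun x => φ x ^ 2) m :=
    d_integrable m _ (hφ.pow_const 2) (C ^ 2) fun x => d_sqb _ _ (hC x)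
  have key : ∀ t : ℝ, 0 ≤ (∫ x, φ x ^ 2 ∂m) - 2 * t * (∫ x, φ x ∂m) +
      t ^ 2 * (m Set.univ).toReal := by
    intro t
    have h1 : ∫ x, (φ x - t) ^ 2 ∂m = (∫ x, φ x ^ 2 ∂m) - 2 * t * (∫ x, φ x ∂m) +
        t ^ 2 * (m Set.univ).toReal := by
      have h2 : ∀ x, (φ x - t) ^ 2 = (φ x ^ 2 - (2 * t) * φ x) + t ^ 2 := fun x => by ring
      have h3 : Integrable (fun x => (2 * t) * φ x) m := hi.const_mul _
      have h4 : Integrable (fun x => φ x ^ 2 - (2 * t) * φ x) m := hi2.sub h3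
      have h5 : Integrable (fun _ : α => t ^ 2) m := integrable_const _
      rw [integral_congr_ae (Filter.Eventually.of_forall h2), integral_add h4 h5,
        integral_sub hi2 h3, integral_const_mul, integral_const]
      rw [smul_eq_mul, Measure.real, mul_comm (m Set.univ).toReal]
    rw [← h1]
    exact integral_nonneg fun x => sq_nonneg _
  rcases eq_or_lt_of_le (ENNReal.toReal_nonneg : 0 ≤ (m Set.univ).toReal) with hv | hv
  · have h0 : m Set.univ = 0 := by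
      rcases (ENNReal.toReal_eq_zero_iff _).1 hv.symm with h | h
      · exact h
      · exact absurd h (measure_ne_top m _)
    have h1 : m = 0 := Measure.measure_univ_eq_zero.1 h0
    rw [h1]
    simp
  · have h1 := key ((∫ x, φ x ∂m) / (m Set.univ).toReal)
    have h2 : (∫ x, φ x ^ 2 ∂m) - 2 * ((∫ x, φ x ∂m) / (m Set.univ).toReal) * (∫ x, φ x ∂m) +
        ((∫ x, φ x ∂m) / (m Set.univ).toReal) ^ 2 * (m Set.univ).toReal =
        (∫ x, φ x ^ 2 ∂m) - (∫ x, φ x ∂m) ^ 2 / (m Set.univ).toReal := by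
      field_simp
      ring
    rw [h2, sub_nonneg, div_le_iff₀ hv] at h1
    linarith

private theorem d_cs2 {α : Type} [MeasurableSpace α] (m : Measure α) [IsFiniteMeasure m]
    (φ : α → ℝ) (hφ : Measurable φ) (C : ℝ) (hC : ∀ x, |φ x| ≤ C) :
    ENNReal.ofReal ((∫ x, φ x ∂m) ^ 2) ≤
      ENNReal.ofReal (m Set.univ).toReal * ∫⁻ x, ENNReal.ofReal (φ x ^ 2) ∂m := by
  have hi2 : Integrable (fun x => φ x ^ 2) m :=
    d_integrable m _ (hφ.pow_const 2) (C ^ 2) fun x => d_sqb _ _ (hC x)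
  rw [← ofReal_integral_eq_lintegral_ofReal hi2 (Filter.Eventually.of_forall fun x => sq_nonneg _),
    ← ENNReal.ofReal_mul ENNReal.toReal_nonneg]
  exact ENNReal.ofReal_le_ofReal (d_cs m φ hφ C hC)

private theorem d_avg {α : Type} [MeasurableSpace α] (m : Measure α) [IsFiniteMeasure m]
    (φ : α → ℝ) (hφ : Measurable φ) (C : ℝ) (hC : ∀ x, |φ x| ≤ C) :
    ENNReal.ofReal (((m Set.univ).toReal⁻¹ * ∫ x, φ x ∂m) ^ 2) ≤
      ENNReal.ofReal (m Set.univ).toReal⁻¹ * ∫⁻ x, ENNReal.ofReal (φ x ^ 2) ∂m := by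
  have hv0 : 0 ≤ (m Set.univ).toReal := ENNReal.toReal_nonneg
  rw [mul_pow, ENNReal.ofReal_mul (sq_nonneg _)]
  calc ENNReal.ofReal ((m Set.univ).toReal⁻¹ ^ 2) * ENNReal.ofReal ((∫ x, φ x ∂m) ^ 2)
      ≤ ENNReal.ofReal ((m Set.univ).toReal⁻¹ ^ 2) * (ENNReal.ofReal (m Set.univ).toReal *
        ∫⁻ x, ENNReal.ofReal (φ x ^ 2) ∂m) := mul_le_mul_right (d_cs2 m φ hφ C hC) _
    _ = ENNReal.ofReal (m Set.univ).toReal⁻¹ * ∫⁻ x, ENNReal.ofReal (φ x ^ 2) ∂m := by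
      rw [← mul_assoc, ← ENNReal.ofReal_mul (sq_nonneg _)]
      congr 2
      rcases eq_or_lt_of_le hv0 with h | h
      · rw [← h]; simp
      · field_simp

section SL

variable (H : Type) [Group H] [TopologicalSpace H] [IsTopologicalGroup H]
  [LocallyCompactSpace H] [T2Space H] [SecondCountableTopology H] [MeasurableSpace H]
  [BorelSpace H]

private theorem d_smooth (D : Dat SL2 H) (hD : D.Ok) (κ : SL2 → ℝ≥0∞) (ε : ℝ) (CL : ℝ)
    (hκ : LipK D.μ₁ κ ε) (hCL : 0 ≤ CL)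
    (hlip : ∀ s : ℝ, 0 < s → s ≤ 1 / 2 → ∀ θ ∈ Bs s, ∀ q : SL2,
      |(κ (θ⁻¹ * q)).toReal - (κ q).toReal| ≤ CL * s ∧ (q ∉ Bs 1 → κ (θ⁻¹ * q) = κ q))
    (hfin : D.μ₁ (Bs 1) ≠ ∞)
    (f : SL2 × H → ℝ) (hf : BI D f) (s : ℝ) (hs : 0 < s) (hs2 : s ≤ 1 / 2) (θ : SL2)
    (hθ : θ ∈ Bs s) (z : SL2 × H) :
    ENNReal.ofReal ((RR D κ f (z * (θ, (1 : H))) - RR D κ f z) ^ 2) ≤
      ENNReal.ofReal ((D.μ₁ (Bs 1)).toReal * (CL * s) ^ 2) *
        ∫⁻ q in Bs 1, ENNReal.ofReal (f (z * (q, (1 : H))) ^ 2) ∂D.μ₁ := by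
  have i1 := hD.haar₁
  obtain ⟨hfm, ⟨Cf, hCf⟩, -⟩ := hf
  have hfin' : IsFiniteMeasure (D.μ₁.restrict (Bs 1)) :=
    ⟨by rw [Measure.restrict_apply_univ]; exact lt_top_iff_ne_top.2 hfin⟩
  have hφm : Measurable fun q : SL2 => f (z * (q, (1 : H))) :=
    hfm.comp (measurable_const.mul (measurable_id.prodMk measurable_const))
  have hκi : Integrable (fun q => (κ q).toReal) D.μ₁ :=
    integrable_toReal_of_lintegral_ne_top hκ.meas.aemeasurable (by rw [hκ.int]; exact ENNReal.one_ne_top)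
  have hI : ∀ φ : SL2 → ℝ, Measurable φ → (∀ q, |φ q| ≤ Cf) →
      Integrable (fun q => (κ q).toReal * φ q) D.μ₁ := by
    intro φ hφ hb
    exact hκi.mul_bdd (c := Cf) hφ.aestronglyMeasurable (Filter.Eventually.of_forall hb)
  have e1 : RR D κ f (z * (θ, (1 : H))) =
      ∫ q, (κ (θ⁻¹ * q)).toReal * f (z * (q, (1 : H))) ∂D.μ₁ := by
    unfold RR
    rw [← integral_mul_left_eq_self (fun q => (κ (θ⁻¹ * q)).toReal * f (z * (q, (1 : H)))) θ]
    apply integral_congr_ae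
    filter_upwards with q
    have h1 : θ⁻¹ * (θ * q) = q := by group
    have h2 : z * (θ, (1 : H)) * (q, (1 : H)) = z * (θ * q, (1 : H)) :=
      Prod.ext (mul_assoc _ _ _) (by simp only [Prod.snd_mul, mul_one])
    rw [h1, h2]
  have hi1 : Integrable (fun q => (κ (θ⁻¹ * q)).toReal * f (z * (q, (1 : H)))) D.μ₁ := by
    have h1 := (hI (fun q => f (z * (θ * q, (1 : H))))
      (hfm.comp (measurable_const.mul ((measurable_const_mul θ).prodMk measurable_const)))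
      (fun q => hCf _)).comp_mul_left θ⁻¹
    refine h1.congr (Filter.Eventually.of_forall fun q => ?_)
    have h2 : θ * (θ⁻¹ * q) = q := by group
    show (κ (θ⁻¹ * q)).toReal * f (z * (θ * (θ⁻¹ * q), (1 : H))) = _
    rw [h2]
  have hi2 : Integrable (fun q => (κ q).toReal * f (z * (q, (1 : H)))) D.μ₁ :=
    hI _ hφm fun q => hCf _
  have e2 : RR D κ f (z * (θ, (1 : H))) - RR D κ f z =
      ∫ q in Bs 1, ((κ (θ⁻¹ * q)).toReal - (κ q).toReal) * f (z * (q, (1 : H))) ∂D.μ₁ := by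
    rw [e1]
    unfold RR
    rw [← integral_sub hi1 hi2]
    rw [setIntegral_eq_integral_of_forall_compl_eq_zero]
    · apply integral_congr_ae
      filter_upwards with q
      ring
    · intro q hq
      rw [(hlip s hs hs2 θ hθ q).2 hq, sub_self, zero_mul]
  have hψm : Measurable fun q => ((κ (θ⁻¹ * q)).toReal - (κ q).toReal) * f (z * (q, (1 : H))) :=
    (((hκ.meas.comp (measurable_const_mul θ⁻¹)).ennreal_toReal).sub
      hκ.meas.ennreal_toReal).mul hφm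
  have hb0 : ∀ q, |((κ (θ⁻¹ * q)).toReal - (κ q).toReal) * f (z * (q, (1 : H)))| ≤
      (CL * s) * |f (z * (q, (1 : H)))| := by
    intro q
    rw [abs_mul]
    exact mul_le_mul_of_nonneg_right (hlip s hs hs2 θ hθ q).1 (abs_nonneg _)
  have hCLs : 0 ≤ CL * s := mul_nonneg hCL hs.le
  have hcs := d_cs2 (D.μ₁.restrict (Bs 1)) _ hψm ((CL * s) * Cf) fun q =>
    (hb0 q).trans (mul_le_mul_of_nonneg_left (hCf _) hCLs)
  rw [e2]
  refine hcs.trans ?_
  rw [Measure.restrict_apply_univ, ENNReal.ofReal_mul ENNReal.toReal_nonneg, mul_assoc]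
  refine mul_le_mul_right ?_ _
  rw [← lintegral_const_mul _ (hφm.pow_const 2).ennreal_ofReal]
  apply lintegral_mono
  intro q
  show ENNReal.ofReal _ ≤ ENNReal.ofReal ((CL * s) ^ 2) * ENNReal.ofReal (f (z * (q, (1 : H))) ^ 2)
  rw [← ENNReal.ofReal_mul (sq_nonneg _)]
  apply ENNReal.ofReal_le_ofReal
  have h1 := pow_le_pow_left₀ (abs_nonneg _) (hb0 q) 2
  rw [sq_abs, mul_pow (CL * s), sq_abs] at h1
  exact h1

private theorem d_loc (D : Dat SL2 H) (hD : D.Ok) (hinst : S_inst SL2 H) (hloc : S_loc SL2 H)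
    (K : Set (SL2 × H)) (hK : IsCompact K) : ∃ C : ℝ, 0 ≤ C ∧ ∀ (y : SL2 × H) (f), BI D f →
      ∫⁻ k in K, ENNReal.ofReal (f (y * k) ^ 2) ∂D.μ ≤ ENNReal.ofReal (C * ns D f) := by
  obtain ⟨-, -, -, -, iH, -⟩ := hinst D hD
  obtain ⟨C, hC, h⟩ := hloc D hD K hK
  refine ⟨C, hC, fun y f hf => ?_⟩
  have hfin : IsFiniteMeasure (D.μ.restrict K) :=
    ⟨by rw [Measure.restrict_apply_univ]; exact hK.measure_lt_top⟩
  have h1 := h y f hf
  obtain ⟨hfm, ⟨Cf, hCf⟩, -⟩ := hf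
  have hi2 : Integrable (fun k => f (y * k) ^ 2) (D.μ.restrict K) :=
    d_integrable _ _ ((hfm.comp (measurable_const_mul y)).pow_const 2) (Cf ^ 2)
      fun x => d_sqb _ _ (hCf _)
  rw [← ofReal_integral_eq_lintegral_ofReal hi2 (Filter.Eventually.of_forall fun x => sq_nonneg _)]
  exact ENNReal.ofReal_le_ofReal h1

/-- the integral over a rectangle -/
private theorem d_rect (D : Dat SL2 H) (hD : D.Ok) (hinst : S_inst SL2 H) (hloc : S_loc SL2 H)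
    (K : Set SL2) (hK : IsCompact K) (L : Set H) (hL : IsCompact (closure L)) :
    ∃ C : ℝ, 0 ≤ C ∧ ∀ (p : SL2) (f), BI D f →
      ∫⁻ x in K, ∫⁻ y in L, ENNReal.ofReal (f (p * x, y) ^ 2) ∂D.μ₂ ∂D.μ₁ ≤
        ENNReal.ofReal (C * ns D f) := by
  obtain ⟨s1, s2, -, -, iH, -⟩ := hinst D hD
  obtain ⟨C, hC, h⟩ := d_loc H D hD hinst hloc (K ×ˢ closure L) (hK.prod hL)
  refine ⟨C, hC, fun p f hf => ?_⟩
  refine le_trans ?_ (h (p, (1 : H)) f hf)
  have e1 : ∀ k : SL2 × H, (p, (1 : H)) * k = (p * k.1, k.2) := fun k =>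
    Prod.ext rfl (one_mul _)
  have hm : Measurable fun k : SL2 × H => ENNReal.ofReal (f (p * k.1, k.2) ^ 2) :=
    ((hf.meas.comp ((measurable_fst.const_mul p).prodMk measurable_snd)).pow_const 2).ennreal_ofReal
  have e2 : D.μ.restrict (K ×ˢ closure L) = (D.μ₁.restrict K).prod (D.μ₂.restrict (closure L)) :=
    (Measure.prod_restrict K (closure L)).symm
  simp only [e1]
  rw [e2, lintegral_prod _ hm.aemeasurable]
  apply lintegral_mono
  intro x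
  exact lintegral_mono_set subset_closure

private theorem d_swap (D : Dat SL2 H) (hD : D.Ok) (hinst : S_inst SL2 H) (L : Set H)
    (K : Set SL2) (A B : Set SL2) (hA : MeasurableSet A)
    (hB : MeasurableSet B) (hK : MeasurableSet K) (hAB : ∀ x ∈ A, ∀ q ∈ B, x * q ∈ K)
    (f : SL2 × H → ℝ) (hf : Measurable f) (p : SL2) :
    ∫⁻ x in A, ∫⁻ y in L, ∫⁻ q in B, ENNReal.ofReal (f ((p * x, y) * (q, (1 : H))) ^ 2)
      ∂D.μ₁ ∂D.μ₂ ∂D.μ₁ ≤
    (∫⁻ x in K, ∫⁻ y in L, ENNReal.ofReal (f (p * x, y) ^ 2) ∂D.μ₂ ∂D.μ₁) * D.μ₁ B := by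
  obtain ⟨s1, s2, -, -, iH, -⟩ := hinst D hD
  have i1 := hD.right₁
  have e1 : ∀ (x q : SL2) (y : H), (p * x, y) * (q, (1 : H)) = (p * (x * q), y) := fun x q y =>
    Prod.ext (mul_assoc _ _ _) (mul_one _)
  simp only [e1]
  have hΨ : Measurable fun w : (SL2 × SL2) × H =>
      ENNReal.ofReal (f (p * (w.1.1 * w.1.2), w.2) ^ 2) :=
    ((hf.comp ((((measurable_fst.comp measurable_fst).mul
      (measurable_snd.comp measurable_fst)).const_mul p).prodMk measurable_snd)).pow_const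
      2).ennreal_ofReal
  have hΦ : Measurable fun x : SL2 => ∫⁻ y in L, ENNReal.ofReal (f (p * x, y) ^ 2) ∂D.μ₂ := by
    have h1 : Measurable fun w : SL2 × H => ENNReal.ofReal (f (p * w.1, w.2) ^ 2) :=
      ((hf.comp ((measurable_fst.const_mul p).prodMk measurable_snd)).pow_const 2).ennreal_ofReal
    exact h1.lintegral_prod_right'
  have e2 : ∀ x : SL2, ∫⁻ y in L, ∫⁻ q in B, ENNReal.ofReal (f (p * (x * q), y) ^ 2) ∂D.μ₁ ∂D.μ₂ =
      ∫⁻ q in B, ∫⁻ y in L, ENNReal.ofReal (f (p * (x * q), y) ^ 2) ∂D.μ₂ ∂D.μ₁ := by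
    intro x
    have hc : Measurable fun w : H × SL2 => ((p * (x * w.2), w.1) : SL2 × H) :=
      ((measurable_snd.const_mul x).const_mul p).prodMk measurable_fst
    have hd : Measurable fun w : H × SL2 => ENNReal.ofReal (f (p * (x * w.2), w.1) ^ 2) :=
      ((hf.comp hc).pow_const 2).ennreal_ofReal
    exact lintegral_lintegral_swap hd.aemeasurable
  have hΨ2 : Measurable fun w : SL2 × SL2 => ∫⁻ y in L, ENNReal.ofReal (f (p * (w.1 * w.2), y) ^ 2)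
      ∂D.μ₂ := hΨ.lintegral_prod_right'
  have e3 : ∫⁻ x in A, ∫⁻ q in B, ∫⁻ y in L, ENNReal.ofReal (f (p * (x * q), y) ^ 2)
      ∂D.μ₂ ∂D.μ₁ ∂D.μ₁ = ∫⁻ q in B, ∫⁻ x in A, ∫⁻ y in L,
      ENNReal.ofReal (f (p * (x * q), y) ^ 2) ∂D.μ₂ ∂D.μ₁ ∂D.μ₁ :=
    lintegral_lintegral_swap hΨ2.aemeasurable
  rw [lintegral_congr e2, e3]
  calc ∫⁻ q in B, ∫⁻ x in A, ∫⁻ y in L, ENNReal.ofReal (f (p * (x * q), y) ^ 2) ∂D.μ₂ ∂D.μ₁ ∂D.μ₁
        ≤ ∫⁻ _ in B, (∫⁻ x in K, ∫⁻ y in L, ENNReal.ofReal (f (p * x, y) ^ 2) ∂D.μ₂ ∂D.μ₁)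
          ∂D.μ₁ := by
          apply setLIntegral_mono' hB
          intro q hq
          rw [← lintegral_indicator hA, ← lintegral_indicator hK]
          rw [← lintegral_mul_right_eq_self (K.indicator fun x =>
            ∫⁻ y in L, ENNReal.ofReal (f (p * x, y) ^ 2) ∂D.μ₂) q]
          apply lintegral_mono
          intro x
          by_cases hx : x ∈ A
          · rw [Set.indicator_of_mem hx]
            exact le_of_eq (Set.indicator_of_mem (hAB x hx q hq) (fun x =>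
              ∫⁻ y in L, ENNReal.ofReal (f (p * x, y) ^ 2) ∂D.μ₂)).symm
          · rw [Set.indicator_of_notMem hx]
            exact zero_le
      _ = (∫⁻ x in K, ∫⁻ y in L, ENNReal.ofReal (f (p * x, y) ^ 2) ∂D.μ₂ ∂D.μ₁) * D.μ₁ B :=
          setLIntegral_const _ _

private theorem d_g1m (D : Dat SL2 H) [SFinite D.μ₂] (c : ℕ) (g : SL2 × H → ℝ) (hg : Measurable g) :
    Measurable (g1 D c g) := by
  unfold g1
  exact (hg.stronglyMeasurable.integral_prod_right' (ν := D.μ₂.restrict (D.O ^ c))).measurable.const_mul _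

theorem td : S_nrm → S_Bs → S_inst SL2 H → S_O SL2 H → S_BI SL2 H → S_TR SL2 H → S_loc SL2 H →
    S_d H := by
  intro hn hBs hinst hO _ hTR hloc D hD κ ε hε hκ c hc
  obtain ⟨h0, -⟩ := hn
  obtain ⟨b1, b2, b3, b4, b5, b6, b7, b8, b9, b10, b11⟩ := hBs
  obtain ⟨CL, hCL, hlip⟩ := hκ.lip
  have i1 := hD.haar₁
  have i2 := hD.haar₂
  obtain ⟨s1, s2, -, -, iH, -⟩ := hinst D hD
  have hKB : KB κ := ⟨hκ.meas, hκ.bdd, ⟨{g : SL2 | nrm (g.1 - 1) ≤ ε}, b7 ε, fun g hg =>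
    hκ.supp g (fun h => hg (show nrm (g.1 - 1) ≤ ε from le_of_lt h))⟩⟩
  obtain ⟨t1, t2, t3, t4, t5, t6, t7, -⟩ := hTR D hD
  have hLo : IsOpen (D.O ^ c) := (hO D hD).1 c hc
  have hLc : IsCompact (closure (D.O ^ c)) := (hO D hD).2.2.2.2.2.1 c
  have hLfin : D.μ₂ (D.O ^ c) ≠ ∞ :=
    ((measure_mono subset_closure).trans_lt hLc.measure_lt_top).ne
  have hBfin : D.μ₁ (Bs 1) ≠ ∞ := by
    have h1 : Bs 1 ⊆ {g : SL2 | nrm (g.1 - 1) ≤ 1} := fun g hg =>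
      show nrm (g.1 - 1) ≤ 1 from le_of_lt hg
    exact ((measure_mono h1).trans_lt (b7 1).measure_lt_top).ne
  have hfL : IsFiniteMeasure (D.μ₂.restrict (D.O ^ c)) :=
    ⟨by rw [Measure.restrict_apply_univ]; exact lt_top_iff_ne_top.2 hLfin⟩
  have hmu : (D.μ₂.restrict (D.O ^ c)) Set.univ = D.μ₂ (D.O ^ c) := Measure.restrict_apply_univ _
  obtain ⟨C₁, hC₁, hrect⟩ := d_rect H D hD hinst hloc {g : SL2 | nrm (g.1 - 1) ≤ 2} (b7 2) _ hLc
  have hv : 0 ≤ (D.μ₂ (D.O ^ c)).toReal⁻¹ := inv_nonneg.2 ENNReal.toReal_nonneg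
  have hv₁ : 0 ≤ (D.μ₁ (Bs 1)).toReal := ENNReal.toReal_nonneg
  refine ⟨(D.μ₂ (D.O ^ c)).toReal⁻¹ * ((D.μ₁ (Bs 1)).toReal * (CL * 9) ^ 2) * C₁ *
    (D.μ₁ (Bs 1)).toReal + 4 * (D.μ₂ (D.O ^ c)).toReal⁻¹ * C₁ * 18 ^ 2, by positivity, ?_⟩
  intro f hf p hp η hη hη1 γ hγ hpγ
  have hg : BI D (RR D κ f) := t2 κ f hKB hf
  have hnsf : 0 ≤ ns D f := by
    unfold ns ip
    apply integral_nonneg
    intro x
    exact mul_nonneg ENNReal.toReal_nonneg (mul_self_nonneg _)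
  have hnsg : ns D (RR D κ f) ≤ ns D f := by
    have h1 := t7 κ f hKB hf
    rw [hκ.int, ENNReal.toReal_one, one_pow, one_mul] at h1
    exact h1
  obtain ⟨Cg, hCg⟩ := hg.bdd
  have hgm := hg.meas
  have hgs : ∀ a : SL2, Measurable fun y : H => RR D κ f (a, y) := fun a =>
    hgm.comp (measurable_const.prodMk measurable_id)
  have hG1 := d_g1m H D c (RR D κ f) hgm
  have hGm : Measurable fun x : SL2 =>
      (g1 D c (RR D κ f) (γ.1 * x) - g1 D c (RR D κ f) (p * x)) ^ 2 :=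
    ((hG1.comp (measurable_const_mul γ.1)).sub (hG1.comp (measurable_const_mul p))).pow_const 2
  rw [integral_eq_lintegral_of_nonneg_ae (Filter.Eventually.of_forall fun x => sq_nonneg _)
    hGm.aestronglyMeasurable]
  have hC1f : 0 ≤ C₁ * ns D f := mul_nonneg hC₁ hnsf
  apply ENNReal.toReal_le_of_le_ofReal
  · positivity
  rcases le_or_gt (9 * η) (1 / 2) with h9 | h9
  · have hpt : ∀ x ∈ Bs (1 / 4), ENNReal.ofReal
        ((g1 D c (RR D κ f) (γ.1 * x) - g1 D c (RR D κ f) (p * x)) ^ 2) ≤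
        (ENNReal.ofReal (D.μ₂ (D.O ^ c)).toReal⁻¹ * ENNReal.ofReal ((D.μ₁ (Bs 1)).toReal *
          (CL * (9 * η)) ^ 2)) * ∫⁻ y in D.O ^ c, ∫⁻ q in Bs 1,
            ENNReal.ofReal (f ((p * x, y) * (q, (1 : H))) ^ 2) ∂D.μ₁ ∂D.μ₂ := by
      intro x hx
      have e1 : g1 D c (RR D κ f) (γ.1 * x) - g1 D c (RR D κ f) (p * x) =
          ((D.μ₂.restrict (D.O ^ c)) Set.univ).toReal⁻¹ *
            ∫ y in D.O ^ c, (RR D κ f (γ.1 * x, y) - RR D κ f (p * x, y)) ∂D.μ₂ := by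
        rw [hmu, integral_sub (d_integrable _ _ (hgs _) Cg fun y => hCg _)
          (d_integrable _ _ (hgs _) Cg fun y => hCg _), mul_sub]
        rfl
      have h1 := d_avg (D.μ₂.restrict (D.O ^ c))
        (fun y => RR D κ f (γ.1 * x, y) - RR D κ f (p * x, y)) ((hgs _).sub (hgs _)) (Cg + Cg)
        fun y => (abs_sub _ _).trans (add_le_add (hCg _) (hCg _))
      rw [e1]
      refine h1.trans ?_
      rw [hmu, mul_assoc]
      refine mul_le_mul_right ?_ _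
      rw [← lintegral_const_mul' _ _ ENNReal.ofReal_ne_top]
      apply lintegral_mono
      intro y
      have hθ : x⁻¹ * (p⁻¹ * γ.1) * x ∈ Bs (9 * η) := by
        show nrm ((x⁻¹ * (p⁻¹ * γ.1) * x).1 - 1) < 9 * η
        have k1 := b10 x (p⁻¹ * γ.1)
        have k2 := b9 (1 / 4) x hx
        have k3 : nrm ((p⁻¹ * γ.1).1 - 1) < η := hpγ
        have k4 : nrm x.1 ^ 2 ≤ (2 + 1 / 4) ^ 2 := pow_le_pow_left₀ (h0 _) k2 2
        have k5 : nrm x.1 ^ 2 * nrm ((p⁻¹ * γ.1).1 - 1) ≤ (2 + 1 / 4) ^ 2 * η :=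
          mul_le_mul k4 k3.le (h0 _) (by norm_num)
        have k6 : (2 + 1 / 4 : ℝ) ^ 2 * η < 9 * η := mul_lt_mul_of_pos_right (by norm_num) hη
        exact lt_of_le_of_lt (k1.trans k5) k6
      have h2 := d_smooth H D hD κ ε CL hκ hCL hlip hBfin f hf (9 * η) (by positivity) h9
        (x⁻¹ * (p⁻¹ * γ.1) * x) hθ (p * x, y)
      have e2 : (p * x, y) * (x⁻¹ * (p⁻¹ * γ.1) * x, (1 : H)) = (γ.1 * x, y) := by
        refine Prod.ext ?_ (mul_one _)
        show p * x * (x⁻¹ * (p⁻¹ * γ.1) * x) = γ.1 * x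
        group
      rw [e2] at h2
      exact h2
    calc ∫⁻ x in Bs (1 / 4), ENNReal.ofReal
          ((g1 D c (RR D κ f) (γ.1 * x) - g1 D c (RR D κ f) (p * x)) ^ 2) ∂D.μ₁
        ≤ ∫⁻ x in Bs (1 / 4), (ENNReal.ofReal (D.μ₂ (D.O ^ c)).toReal⁻¹ *
          ENNReal.ofReal ((D.μ₁ (Bs 1)).toReal * (CL * (9 * η)) ^ 2)) * ∫⁻ y in D.O ^ c,
            ∫⁻ q in Bs 1, ENNReal.ofReal (f ((p * x, y) * (q, (1 : H))) ^ 2) ∂D.μ₁ ∂D.μ₂ ∂D.μ₁ :=
          setLIntegral_mono' (b1 _).measurableSet hpt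
      _ = (ENNReal.ofReal (D.μ₂ (D.O ^ c)).toReal⁻¹ *
          ENNReal.ofReal ((D.μ₁ (Bs 1)).toReal * (CL * (9 * η)) ^ 2)) *
          ∫⁻ x in Bs (1 / 4), ∫⁻ y in D.O ^ c,
            ∫⁻ q in Bs 1, ENNReal.ofReal (f ((p * x, y) * (q, (1 : H))) ^ 2) ∂D.μ₁ ∂D.μ₂ ∂D.μ₁ :=
          lintegral_const_mul' _ _ (ENNReal.mul_ne_top ENNReal.ofReal_ne_top ENNReal.ofReal_ne_top)
      _ ≤ (ENNReal.ofReal (D.μ₂ (D.O ^ c)).toReal⁻¹ *
          ENNReal.ofReal ((D.μ₁ (Bs 1)).toReal * (CL * (9 * η)) ^ 2)) *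
          (ENNReal.ofReal (C₁ * ns D f) * D.μ₁ (Bs 1)) := by
          refine mul_le_mul_right ?_ _
          refine (d_swap H D hD hinst (D.O ^ c) {g : SL2 | nrm (g.1 - 1) ≤ 2}
            (Bs (1 / 4)) (Bs 1) (b1 _).measurableSet (b1 _).measurableSet (b7 2).measurableSet
            ?_ f hf.meas p).trans ?_
          · intro x hx q hq
            have k1 := b4 (1 / 4) 1 (Set.mul_mem_mul hx hq)
            have k2 : nrm ((x * q).1 - 1) < 1 / 4 + 1 + 1 / 4 * 1 := k1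
            show nrm ((x * q).1 - 1) ≤ 2
            linarith
          · exact mul_le_mul_left (hrect p f hf) _
      _ = ENNReal.ofReal ((D.μ₂ (D.O ^ c)).toReal⁻¹ * ((D.μ₁ (Bs 1)).toReal *
          (CL * (9 * η)) ^ 2) * (C₁ * ns D f * (D.μ₁ (Bs 1)).toReal)) := by
          rw [← ENNReal.ofReal_toReal hBfin, ← ENNReal.ofReal_mul hv, ← ENNReal.ofReal_mul hC1f,
            ← ENNReal.ofReal_mul (by positivity), ENNReal.toReal_ofReal hv₁]
      _ ≤ _ := by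
          apply ENNReal.ofReal_le_ofReal
          have k1 : 0 ≤ 4 * (D.μ₂ (D.O ^ c)).toReal⁻¹ * C₁ * 18 ^ 2 * η ^ 2 * ns D f := by
            positivity
          nlinarith [k1]
  · have hpt : ∀ x : SL2, ENNReal.ofReal
        ((g1 D c (RR D κ f) (γ.1 * x) - g1 D c (RR D κ f) (p * x)) ^ 2) ≤
        (2 * ENNReal.ofReal (D.μ₂ (D.O ^ c)).toReal⁻¹) *
          (∫⁻ y in D.O ^ c, ENNReal.ofReal (RR D κ f (γ.1 * x, y) ^ 2) ∂D.μ₂) +
        (2 * ENNReal.ofReal (D.μ₂ (D.O ^ c)).toReal⁻¹) *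
          (∫⁻ y in D.O ^ c, ENNReal.ofReal (RR D κ f (p * x, y) ^ 2) ∂D.μ₂) := by
      intro x
      have hone : ∀ a : SL2, ENNReal.ofReal (g1 D c (RR D κ f) a ^ 2) ≤
          ENNReal.ofReal (D.μ₂ (D.O ^ c)).toReal⁻¹ *
            ∫⁻ y in D.O ^ c, ENNReal.ofReal (RR D κ f (a, y) ^ 2) ∂D.μ₂ := by
        intro a
        have h1 := d_avg (D.μ₂.restrict (D.O ^ c)) (fun y => RR D κ f (a, y)) (hgs _) Cg
          fun y => hCg _
        rw [hmu] at h1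
        exact h1
      have h2 : (g1 D c (RR D κ f) (γ.1 * x) - g1 D c (RR D κ f) (p * x)) ^ 2 ≤
          2 * g1 D c (RR D κ f) (γ.1 * x) ^ 2 + 2 * g1 D c (RR D κ f) (p * x) ^ 2 := by
        nlinarith [sq_nonneg (g1 D c (RR D κ f) (γ.1 * x) + g1 D c (RR D κ f) (p * x))]
      refine (ENNReal.ofReal_le_ofReal h2).trans ?_
      rw [ENNReal.ofReal_add (by positivity) (by positivity), ENNReal.ofReal_mul (by norm_num),
        ENNReal.ofReal_mul (by norm_num), ENNReal.ofReal_ofNat, mul_assoc, mul_assoc]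
      exact add_le_add (mul_le_mul_right (hone _) _) (mul_le_mul_right (hone _) _)
    have hBK : Bs (1 / 4) ⊆ {g : SL2 | nrm (g.1 - 1) ≤ 2} := by
      intro g hg
      have : nrm (g.1 - 1) < 1 / 4 := hg
      show nrm (g.1 - 1) ≤ 2
      linarith
    have hm1 : ∀ a : SL2, Measurable fun x : SL2 =>
        ∫⁻ y in D.O ^ c, ENNReal.ofReal (RR D κ f (a * x, y) ^ 2) ∂D.μ₂ := by
      intro a
      have h1 : Measurable fun w : SL2 × H => ENNReal.ofReal (RR D κ f (a * w.1, w.2) ^ 2) :=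
        ((hgm.comp ((measurable_fst.const_mul a).prodMk measurable_snd)).pow_const 2).ennreal_ofReal
      exact h1.lintegral_prod_right'
    have hr : ∀ a : SL2, ∫⁻ x in Bs (1 / 4), ∫⁻ y in D.O ^ c,
        ENNReal.ofReal (RR D κ f (a * x, y) ^ 2) ∂D.μ₂ ∂D.μ₁ ≤ ENNReal.ofReal (C₁ * ns D f) := by
      intro a
      refine (lintegral_mono_set hBK).trans ((hrect a _ hg).trans ?_)
      exact ENNReal.ofReal_le_ofReal (mul_le_mul_of_nonneg_left hnsg hC₁)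
    calc ∫⁻ x in Bs (1 / 4), ENNReal.ofReal
          ((g1 D c (RR D κ f) (γ.1 * x) - g1 D c (RR D κ f) (p * x)) ^ 2) ∂D.μ₁
        ≤ ∫⁻ x in Bs (1 / 4), ((2 * ENNReal.ofReal (D.μ₂ (D.O ^ c)).toReal⁻¹) *
          (∫⁻ y in D.O ^ c, ENNReal.ofReal (RR D κ f (γ.1 * x, y) ^ 2) ∂D.μ₂) +
        (2 * ENNReal.ofReal (D.μ₂ (D.O ^ c)).toReal⁻¹) *
          (∫⁻ y in D.O ^ c, ENNReal.ofReal (RR D κ f (p * x, y) ^ 2) ∂D.μ₂)) ∂D.μ₁ :=
          lintegral_mono hpt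
      _ = (2 * ENNReal.ofReal (D.μ₂ (D.O ^ c)).toReal⁻¹) * (∫⁻ x in Bs (1 / 4), ∫⁻ y in D.O ^ c,
            ENNReal.ofReal (RR D κ f (γ.1 * x, y) ^ 2) ∂D.μ₂ ∂D.μ₁) +
          (2 * ENNReal.ofReal (D.μ₂ (D.O ^ c)).toReal⁻¹) * (∫⁻ x in Bs (1 / 4), ∫⁻ y in D.O ^ c,
            ENNReal.ofReal (RR D κ f (p * x, y) ^ 2) ∂D.μ₂ ∂D.μ₁) := by
          rw [lintegral_add_left ((hm1 _).const_mul _), lintegral_const_mul _ (hm1 _),
            lintegral_const_mul _ (hm1 _)]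
      _ ≤ (2 * ENNReal.ofReal (D.μ₂ (D.O ^ c)).toReal⁻¹) * ENNReal.ofReal (C₁ * ns D f) +
          (2 * ENNReal.ofReal (D.μ₂ (D.O ^ c)).toReal⁻¹) * ENNReal.ofReal (C₁ * ns D f) :=
          add_le_add (mul_le_mul_right (hr _) _) (mul_le_mul_right (hr _) _)
      _ = ENNReal.ofReal (4 * (D.μ₂ (D.O ^ c)).toReal⁻¹ * C₁ * ns D f) := by
          have k1 : (2 : ℝ≥0∞) = ENNReal.ofReal 2 := by rw [ENNReal.ofReal_ofNat]
          rw [k1, ← ENNReal.ofReal_mul (by norm_num), ← ENNReal.ofReal_mul (by positivity),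
            ← ENNReal.ofReal_add (by positivity) (by positivity)]
          congr 1
          ring
      _ ≤ _ := by
          apply ENNReal.ofReal_le_ofReal
          have k1 : 1 ≤ 18 ^ 2 * η ^ 2 := by nlinarith
          have k2 : 0 ≤ 4 * (D.μ₂ (D.O ^ c)).toReal⁻¹ * C₁ * ns D f := by positivity
          have k3 : 0 ≤ (D.μ₂ (D.O ^ c)).toReal⁻¹ * ((D.μ₁ (Bs 1)).toReal * (CL * 9) ^ 2) * C₁ *
            (D.μ₁ (Bs 1)).toReal * η ^ 2 * ns D f := by positivity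
          have k4 := mul_le_mul_of_nonneg_left k1 k2
          linarith

end SL

end Pool.Agent.MPEF
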