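import Pool.Agent.Lib.MP_ef3f0f_gt.Q.Spec

set_option autoImplicit false

/-!
# MP_ef3f0f_gt, Part II: the iteration
-/

namespace Pool.Agent.MPEF

open MeasureTheory Topology
open scoped ENNReal Pointwise

/-- The abstract iteration. -/
private theorem iter_abs (N : ℕ → ℕ → ℝ) (q θ : ℝ) (hN : ∀ j m, 0 ≤ N j m) (hq0 : 0 ≤ q)
    (hθ0 : 0 ≤ θ) (hθ1 : θ ≤ 1) (hm : ∀ j m, N j (m + 1) ≤ N j m)
    (hj : ∀ j m, N (j + 1) m ≤ N j m)
    (hd : ∀ j m, N (j + 1) (m + 1) ≤ q * N (j + 1) m ∨ N (j + 1) m ≤ θ * N j m) (n : ℕ) (j : ℕ) :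
    N j (j * n) ≤ max (q ^ n) (θ ^ j) * N 0 0 := by
  have hanti : ∀ j m k, N j (m + k) ≤ N j m := by
    intro j m k
    induction k with
    | zero => exact le_rfl
    | succ k ih => exact (hm j (m + k)).trans ih
  have h0 : ∀ j m, N j m ≤ N 0 0 := by
    intro j m
    have h1 : ∀ j, N j 0 ≤ N 0 0 := by
      intro j
      induction j with
      | zero => exact le_rfl
      | succ j ih => exact (hj j 0).trans ih
    have := hanti j 0 m
    rw [zero_add] at this
    exact this.trans (h1 j)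
  have hN00 := hN 0 0
  induction j with
  | zero =>
    rw [zero_mul, pow_zero]
    have : 1 ≤ max (q ^ n) 1 := le_max_right _ _
    nlinarith
  | succ j ih =>
    by_cases hall : ∀ i, i < n → N (j + 1) (j * n + i + 1) ≤ q * N (j + 1) (j * n + i)
    · have h2 : ∀ i, i ≤ n → N (j + 1) (j * n + i) ≤ q ^ i * N (j + 1) (j * n) := by
        intro i
        induction i with
        | zero =>
          intro _
          rw [add_zero, pow_zero, one_mul]
        | succ i ihi =>
          intro hi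
          have h3 := ihi (by omega)
          have h4 := hall i (by omega)
          rw [pow_succ, mul_comm (q ^ i) q, mul_assoc]
          exact h4.trans (mul_le_mul_of_nonneg_left h3 hq0)
      have h3 := h2 n le_rfl
      rw [add_mul, one_mul]
      refine h3.trans ?_
      calc q ^ n * N (j + 1) (j * n) ≤ q ^ n * N 0 0 :=
            mul_le_mul_of_nonneg_left (h0 _ _) (pow_nonneg hq0 n)
        _ ≤ _ := mul_le_mul_of_nonneg_right (le_max_left _ _) hN00
    · push Not at hall
      obtain ⟨i, hi, hi'⟩ := hall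
      have h2 := (hd j (j * n + i)).resolve_left (not_le.2 hi')
      have h3 : N (j + 1) ((j + 1) * n) ≤ N (j + 1) (j * n + i) := by
        have := hanti (j + 1) (j * n + i) (n - i)
        rwa [show j * n + i + (n - i) = (j + 1) * n by
          rw [add_mul, one_mul]
          omega] at this
      have h4 : N j (j * n + i) ≤ N j (j * n) := hanti j (j * n) i
      have h5 : θ * max (q ^ n) (θ ^ j) ≤ max (q ^ n) (θ ^ (j + 1)) := by
        rw [mul_max_of_nonneg _ _ hθ0]
        refine max_le_max ?_ (by rw [pow_succ, mul_comm])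
        exact mul_le_of_le_one_left (pow_nonneg hq0 n) hθ1
      calc N (j + 1) ((j + 1) * n) ≤ θ * N j (j * n + i) := h3.trans h2
        _ ≤ θ * (max (q ^ n) (θ ^ j) * N 0 0) :=
            mul_le_mul_of_nonneg_left (h4.trans ih) hθ0
        _ = (θ * max (q ^ n) (θ ^ j)) * N 0 0 := by ring
        _ ≤ _ := mul_le_mul_of_nonneg_right h5 hN00

/-- The choice of the parameters. -/
private theorem iter_num (C₁ : ℝ) (M : ℕ) (hM : 2 ≤ M)
    (hρ : 400 * (1 + C₁ ^ 2) * (Real.log M / M) < 1) :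
    ∃ (δ : ℝ) (n : ℕ), 0 < δ ∧ δ < 1 ∧ C₁ * δ ≤ 1 ∧ 20 * n ≤ M ∧
      (1 - δ ^ 2) ^ n ≤ (400 * (1 + C₁ ^ 2) * (Real.log M / M)) ^ 10 ∧
      (C₁ * δ) ^ 20 ≤ (400 * (1 + C₁ ^ 2) * (Real.log M / M)) ^ 10 := by
  have hM0 : (0 : ℝ) < M := by exact_mod_cast (by omega : 0 < M)
  have hlog2 : (1 : ℝ) / 2 ≤ Real.log M := by
    have h1 : Real.log 2 ≤ Real.log M := Real.log_le_log (by norm_num) (by exact_mod_cast hM)
    have h2 := Real.log_two_gt_d9
    linarith
  have hlog : 0 < Real.log M := by linarith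
  set t := Real.log M / M with ht
  have ht0 : 0 < t := div_pos hlog hM0
  have hC2 : 0 ≤ C₁ ^ 2 := sq_nonneg _
  have h400 : 400 * t < 1 := by nlinarith
  have hM200 : 200 < M := by
    have h1 : 400 * Real.log M < M := by
      rw [ht, mul_div_assoc', div_lt_one hM0] at h400
      exact h400
    have : (200 : ℝ) < M := by linarith
    exact_mod_cast this
  set n := M / 20 with hn
  have hn0 : 1 ≤ n := by omega
  have hnM : 20 * n ≤ M := by omega
  have hnM' : (M : ℝ) ≤ 40 * n := by exact_mod_cast (by omega : M ≤ 40 * n)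
  have hn0' : (0 : ℝ) < n := by exact_mod_cast hn0
  have hδ2 : 10 * Real.log M / n ≤ 400 * t := by
    rw [div_le_iff₀ hn0', ht]
    have : 400 * (Real.log M / M) * n = 10 * Real.log M * (40 * n / M) := by ring
    rw [this]
    have h2 : 1 ≤ 40 * (n : ℝ) / M := (one_le_div hM0).2 hnM'
    nlinarith
  have hpos : 0 < 10 * Real.log M / n := by positivity
  set δ := Real.sqrt (10 * Real.log M / n) with hδ
  have hsq : δ ^ 2 = 10 * Real.log M / n := Real.sq_sqrt hpos.le
  have hδ0 : 0 < δ := Real.sqrt_pos.2 hpos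
  have hδ1 : δ < 1 := by
    by_contra h
    push Not at h
    have : 1 ≤ δ ^ 2 := by nlinarith
    linarith
  have hle : δ ^ 2 ≤ 400 * t := by rw [hsq]; exact hδ2
  have hCδ : (C₁ * δ) ^ 2 ≤ 400 * (1 + C₁ ^ 2) * t := by
    rw [mul_pow]
    nlinarith
  refine ⟨δ, n, hδ0, hδ1, ?_, hnM, ?_, ?_⟩
  · by_contra h
    push Not at h
    have : 1 ≤ (C₁ * δ) ^ 2 := by nlinarith
    linarith
  · have h1 : (1 - δ ^ 2) ^ n ≤ Real.exp (-(10 * Real.log M)) := by
      have h2 : 1 - δ ^ 2 ≤ Real.exp (-δ ^ 2) := by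
        have := Real.add_one_le_exp (-δ ^ 2)
        linarith
      have h3 : 0 ≤ 1 - δ ^ 2 := by nlinarith
      calc (1 - δ ^ 2) ^ n ≤ (Real.exp (-δ ^ 2)) ^ n := pow_le_pow_left₀ h3 h2 n
        _ = Real.exp (-(10 * Real.log M)) := by
          rw [← Real.exp_nat_mul, hsq]
          congr 1
          field_simp
    have h2 : Real.exp (-(10 * Real.log M)) = (1 / (M : ℝ)) ^ 10 := by
      rw [Real.exp_neg, show 10 * Real.log M = ((10 : ℕ) : ℝ) * Real.log M by norm_num,
        Real.exp_nat_mul, Real.exp_log hM0, one_div, inv_pow]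
    rw [h2] at h1
    refine h1.trans (pow_le_pow_left₀ (by positivity) ?_ 10)
    have h3 : 1 / (M : ℝ) ≤ 2 * t := by
      rw [ht, mul_div_assoc']
      gcongr
      linarith
    nlinarith
  · rw [show (C₁ * δ) ^ 20 = ((C₁ * δ) ^ 2) ^ 10 by ring]
    exact pow_le_pow_left₀ (sq_nonneg _) hCδ 10

section General

variable (P H : Type) [Group P] [Group H] [TopologicalSpace P] [TopologicalSpace H]
  [IsTopologicalGroup P] [IsTopologicalGroup H] [LocallyCompactSpace P] [LocallyCompactSpace H]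
  [T2Space P] [T2Space H] [SecondCountableTopology P] [SecondCountableTopology H]
  [MeasurableSpace P] [MeasurableSpace H] [BorelSpace P] [BorelSpace H]

theorem titer (h1 : S_BI P H) (h2 : S_TR P H) : S_iter P H := by
  intro D hD κ hκ hint hWG
  obtain ⟨b1, b2, -, b4, -, b6, b7, b8, b9, -⟩ := h2 D hD
  obtain ⟨-, -, -, -, -, -, -, -, -, c10, -⟩ := h1 D hD
  obtain ⟨C₁, hC₁, hW⟩ := hWG
  have b7' : ∀ f, BI D f → ns D (RR D κ f) ≤ ns D f := by
    intro f hf
    have := b7 κ f hκ hf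
    rwa [hint, ENNReal.toReal_one, one_pow, one_mul] at this
  have b9' : ∀ f, BI D f → mn D (RR D κ f) = mn D f := by
    intro f hf
    have := b9 κ f hκ hf
    rwa [hint, ENNReal.toReal_one, one_mul] at this
  refine ⟨(400 * (1 + C₁ ^ 2)) ^ 10, by positivity, fun M hM f hf hf0 => ?_⟩
  -- iterates of R
  have hR : ∀ j, BI D ((RR D κ)^[j] f) ∧ mn D ((RR D κ)^[j] f) = 0 := by
    intro j
    induction j with
    | zero => exact ⟨hf, hf0⟩
    | succ j ih =>
      rw [Function.iterate_succ_apply']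
      exact ⟨b2 κ _ hκ ih.1, (b9' _ ih.1).trans ih.2⟩
  -- iterates of T
  have hT : ∀ (g : P × H → ℝ), BI D g → ∀ m, BI D ((TT D)^[m] g) ∧
      mn D ((TT D)^[m] g) = mn D g ∧ (TT D)^[m] (RR D κ g) = RR D κ ((TT D)^[m] g) := by
    intro g hg m
    induction m with
    | zero => exact ⟨hg, rfl, rfl⟩
    | succ m ih =>
      rw [Function.iterate_succ_apply', Function.iterate_succ_apply', ih.2.2]
      exact ⟨b1 _ ih.1, (b8 _ ih.1).trans ih.2.1, b4 κ _ hκ ih.1⟩
  set N : ℕ → ℕ → ℝ := fun j m => ns D ((TT D)^[m] ((RR D κ)^[j] f)) with hN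
  have hN0 : ∀ j m, 0 ≤ N j m := fun j m => c10 _
  have hm : ∀ j m, N j (m + 1) ≤ N j m := by
    intro j m
    simp only [hN]
    rw [Function.iterate_succ_apply']
    exact b6 _ (hT _ (hR j).1 m).1
  have hcomm : ∀ j m, (TT D)^[m] ((RR D κ)^[j + 1] f) =
      RR D κ ((TT D)^[m] ((RR D κ)^[j] f)) := by
    intro j m
    rw [Function.iterate_succ_apply']
    exact (hT _ (hR j).1 m).2.2
  have hj : ∀ j m, N (j + 1) m ≤ N j m := by
    intro j m
    simp only [hN]
    rw [hcomm]
    exact b7' _ (hT _ (hR j).1 m).1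
  have hM0 : (0 : ℝ) < M := by exact_mod_cast (by omega : 0 < M)
  have hlog : 0 ≤ Real.log M := Real.log_natCast_nonneg M
  have htriv : ∀ j m, N j m ≤ N 0 0 := by
    intro j m
    have e1 : N j m ≤ N j 0 := by
      induction m with
      | zero => exact le_rfl
      | succ m ih => exact (hm j m).trans ih
    have e2 : N j 0 ≤ N 0 0 := by
      clear e1
      induction j with
      | zero => exact le_rfl
      | succ j ih => exact (hj j 0).trans ih
    exact e1.trans e2
  have hfin : ∀ ρ : ℝ, ρ = 400 * (1 + C₁ ^ 2) * (Real.log M / M) → N 20 M ≤ ρ ^ 10 * N 0 0 →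
      ns D ((TT D)^[M] ((RR D κ)^[20] f)) ≤
        (400 * (1 + C₁ ^ 2)) ^ 10 * (Real.log M / M) ^ 10 * ns D f := by
    intro ρ hρ h
    rw [← mul_pow, ← hρ]
    exact h
  rcases le_or_gt 1 (400 * (1 + C₁ ^ 2) * (Real.log M / M)) with h | h
  · refine hfin _ rfl ((htriv 20 M).trans ?_)
    have h3 : 1 ≤ (400 * (1 + C₁ ^ 2) * (Real.log M / M)) ^ 10 := one_le_pow₀ h
    nlinarith [hN0 0 0]
  · obtain ⟨δ, n, hδ0, hδ1, hCδ, hn, e1, e2⟩ := iter_num C₁ M hM h
    have hd : ∀ j m, N (j + 1) (m + 1) ≤ (1 - δ ^ 2) * N (j + 1) m ∨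
        N (j + 1) m ≤ (C₁ * δ) * N j m := by
      intro j m
      rcases le_or_gt ((1 - δ ^ 2) * N (j + 1) m) (N (j + 1) (m + 1)) with h3 | h3
      · right
        have h4 := hT _ (hR j).1 m
        have h5 := hW δ hδ0 hδ1 ((TT D)^[m] ((RR D κ)^[j] f)) h4.1 (h4.2.1.trans (hR j).2)
        have h6 : N (j + 1) (m + 1) = ns D (TT D (RR D κ ((TT D)^[m] ((RR D κ)^[j] f)))) := by
          simp only [hN]
          rw [Function.iterate_succ_apply', hcomm]
        have h7 : N (j + 1) m = ns D (RR D κ ((TT D)^[m] ((RR D κ)^[j] f))) := by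
          simp only [hN]
          rw [hcomm]
        rw [h7]
        refine h5 ?_
        rw [← h6, ← h7]
        exact h3
      · exact Or.inl h3.le
    have hmain := iter_abs N (1 - δ ^ 2) (C₁ * δ) hN0 (by nlinarith)
      (mul_nonneg hC₁ hδ0.le) hCδ hm hj hd n 20
    have h3 : N 20 M ≤ N 20 (20 * n) := by
      obtain ⟨k, rfl⟩ := Nat.exists_eq_add_of_le hn
      have hanti : ∀ k, N 20 (20 * n + k) ≤ N 20 (20 * n) := by
        intro k
        induction k with
        | zero => exact le_rfl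
        | succ k ih => exact (hm 20 (20 * n + k)).trans ih
      exact hanti k
    refine hfin _ rfl (h3.trans (hmain.trans ?_))
    exact mul_le_mul_of_nonneg_right (max_le e1 e2) (hN0 0 0)

end General

end Pool.Agent.MPEF
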