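import Pool.Agent.Lib.MP_ef3f0f_gt.Q.Spec

set_option autoImplicit false

namespace Pool.Agent.MPEF

open MeasureTheory Topology
open scoped ENNReal Pointwise

theorem tkap : S_nrm → S_Bs → S_kap := by
  intro hn hB μ hμ ε hε hε4
  obtain ⟨n0, nz, nadd, nsub, nsmul, nmul, nadj, nij, nsq, ncont, none1, ninv, ninv2, nge⟩ := hn
  obtain ⟨Bo, B1, Bi, Bm, Bmono, Bnh, Bc, Bc2, Bn2, Bcj, Bpq⟩ := hB
  let b : SL2 → ℝ := fun q => max (ε - nrm (q.1 - 1)) 0
  have hbc : Continuous b := by
    refine Continuous.max (continuous_const.sub (ncont.comp ?_)) continuous_const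
    exact (continuous_subtype_val (p := fun A : M2 => A.det = 1)).sub continuous_const
  have hb0 : ∀ q, 0 ≤ b q := fun q => le_max_right _ _
  have hbε : ∀ q, b q ≤ ε := by
    intro q
    refine max_le ?_ hε.le
    have := n0 (q.1 - 1)
    linarith
  have hbz : ∀ q, q ∉ Bs ε → b q = 0 := by
    intro q hq
    have h1 : ¬ (nrm (q.1 - 1) < ε) := hq
    exact max_eq_right (by linarith)
  have hbp : ∀ q, q ∈ Bs ε → 0 < b q := by
    intro q hq
    have h1 : nrm (q.1 - 1) < ε := hq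
    exact lt_max_of_lt_left (by linarith)
  let I : ℝ≥0∞ := ∫⁻ q, ENNReal.ofReal (b q) ∂μ
  have hmeas : Measurable fun q => ENNReal.ofReal (b q) := hbc.measurable.ennreal_ofReal
  have hI0 : I ≠ 0 := by
    have h1 : 0 < I := by
      rw [lintegral_pos_iff_support hmeas]
      refine lt_of_lt_of_le ((Bo ε).measure_pos μ ⟨1, B1 ε hε⟩) (measure_mono ?_)
      intro q hq
      rw [Function.mem_support]
      exact (ENNReal.ofReal_pos.mpr (hbp q hq)).ne'
    exact h1.ne'
  have hIt : I ≠ ∞ := by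
    have h1 : I ≤ ∫⁻ q, ({g : SL2 | nrm (g.1 - 1) ≤ ε}).indicator
        (fun _ => ENNReal.ofReal ε) q ∂μ := by
      apply lintegral_mono
      intro q
      by_cases hq : nrm (q.1 - 1) ≤ ε
      · have h2 : q ∈ {g : SL2 | nrm (g.1 - 1) ≤ ε} := hq
        simp only [Set.indicator_of_mem h2]
        exact ENNReal.ofReal_le_ofReal (hbε q)
      · have h2 : b q = 0 := hbz q (fun h => hq (le_of_lt h))
        simp only [h2, ENNReal.ofReal_zero]
        exact zero_le
    have hcl : MeasurableSet {g : SL2 | nrm (g.1 - 1) ≤ ε} := (Bc ε).measurableSet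
    rw [lintegral_indicator_const hcl] at h1
    exact ne_top_of_le_ne_top (ENNReal.mul_ne_top ENNReal.ofReal_ne_top (Bc ε).measure_ne_top) h1
  refine ⟨fun q => I⁻¹ * ENNReal.ofReal (b q), ?_, ?_, ?_, ?_, ?_⟩
  · exact hmeas.const_mul _
  · refine ⟨I⁻¹ * ENNReal.ofReal ε, ENNReal.mul_ne_top (ENNReal.inv_ne_top.mpr hI0)
      ENNReal.ofReal_ne_top, ?_⟩
    intro q
    exact mul_le_mul_right (ENNReal.ofReal_le_ofReal (hbε q)) _
  · intro q hq
    simp only [hbz q hq, ENNReal.ofReal_zero, mul_zero]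
  · rw [lintegral_const_mul _ hmeas]
    exact ENNReal.inv_mul_cancel hI0 hIt
  · have hin : ∀ s : ℝ, s ≤ 1 / 2 → ∀ θ ∈ Bs s, ∀ q : SL2, θ⁻¹ * q ∈ Bs ε → q ∈ Bs 1 := by
      intro s hs θ hθ q hq
      have h1 : θ * (θ⁻¹ * q) ∈ Bs s * Bs ε := Set.mul_mem_mul hθ hq
      rw [mul_inv_cancel_left] at h1
      have h2 := Bm s ε h1
      exact Bmono _ 1 (by nlinarith) h2
    have habs : ∀ A B : M2, |nrm A - nrm B| ≤ nrm (A - B) := by
      intro A B
      rw [abs_le]
      have h1 := nadd (A - B) B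
      have h2 := nadd (B - A) A
      rw [sub_add_cancel] at h1 h2
      have h3 : nrm (B - A) = nrm (A - B) := by
        have h4 := nsmul (-1) (A - B)
        rw [abs_neg, abs_one, one_mul] at h4
        rw [← h4]
        congr 1
        simp
      rw [h3] at h2
      constructor <;> linarith
    refine ⟨3 * I.toReal⁻¹, by positivity, ?_⟩
    intro s hs hs2 θ hθ q
    constructor
    · simp only [ENNReal.toReal_mul, ENNReal.toReal_inv, ENNReal.toReal_ofReal (hb0 _)]
      rw [← mul_sub, abs_mul, abs_of_nonneg (by positivity : (0 : ℝ) ≤ I.toReal⁻¹)]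
      have hmain : |b (θ⁻¹ * q) - b q| ≤ 3 * s := by
        by_cases hq : q ∈ Bs 1
        · have h1 : |b (θ⁻¹ * q) - b q| ≤ |(ε - nrm ((θ⁻¹ * q).1 - 1)) - (ε - nrm (q.1 - 1))| :=
            abs_max_sub_max_le_abs _ _ _
          have h2 : |(ε - nrm ((θ⁻¹ * q).1 - 1)) - (ε - nrm (q.1 - 1))| =
              |nrm (q.1 - 1) - nrm ((θ⁻¹ * q).1 - 1)| := by
            congr 1
            ring
          have h3 := habs (q.1 - 1) ((θ⁻¹ * q).1 - 1)
          have h4 : q.1 - 1 - ((θ⁻¹ * q).1 - 1) = (-1 : ℝ) • (((θ⁻¹).1 - 1) * q.1) := by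
            rw [Matrix.SpecialLinearGroup.coe_mul, sub_mul, one_mul, neg_one_smul]
            abel
          rw [h4, nsmul, abs_neg, abs_one, one_mul] at h3
          have h5 : nrm ((θ⁻¹).1 - 1) < s := (Bi s θ).mpr hθ
          have h6 := nmul ((θ⁻¹).1 - 1) q.1
          have h7 := Bn2 1 q hq
          have h8 : nrm ((θ⁻¹).1 - 1) * nrm q.1 ≤ s * 3 := by
            apply mul_le_mul h5.le (by linarith) (n0 _) hs.le
          rw [h2] at h1
          linarith
        · have h1 : b q = 0 := hbz q (fun h => hq (Bmono ε 1 (by linarith) h))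
          have h2 : b (θ⁻¹ * q) = 0 := hbz _ (fun h => hq (hin s hs2 θ hθ q h))
          rw [h1, h2, sub_zero, abs_zero]
          positivity
      calc I.toReal⁻¹ * |b (θ⁻¹ * q) - b q| ≤ I.toReal⁻¹ * (3 * s) := by gcongr
        _ = 3 * I.toReal⁻¹ * s := by ring
    · intro hq
      have h1 : b q = 0 := hbz q (fun h => hq (Bmono ε 1 (by linarith) h))
      have h2 : b (θ⁻¹ * q) = 0 := hbz _ (fun h => hq (hin s hs2 θ hθ q h))
      simp only [h1, h2]

end Pool.Agent.MPEF
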