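import Pool.Agent.Lib.MP_ef3f0f_gt.Q.Spec

set_option autoImplicit false
set_option linter.unusedSectionVars false

/-! Local bound, uniform in left translates. -/

namespace Pool.Agent.MPEF

open MeasureTheory Topology
open scoped ENNReal Pointwise

variable (P H : Type) [Group P] [Group H] [TopologicalSpace P] [TopologicalSpace H]
  [IsTopologicalGroup P] [IsTopologicalGroup H] [LocallyCompactSpace P] [LocallyCompactSpace H]
  [T2Space P] [T2Space H] [SecondCountableTopology P] [SecondCountableTopology H]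
  [MeasurableSpace P] [MeasurableSpace H] [BorelSpace P] [BorelSpace H]

/-- The number of `u` with `x⁻¹ u y ∈ K` is bounded. -/
private theorem loc_N (hO : S_O P H) (hnu : S_nu P H) (hUp : S_Up P H) (D : Dat P H) (hD : D.Ok)
    (K : Set (P × H)) (hK : IsCompact K) :
    ∃ C : ℝ≥0∞, C ≠ ∞ ∧ ∀ x y, D.N (K.indicator fun _ => 1) x y ≤ C := by
  obtain ⟨-, -, -, hO4, -, -, hO7⟩ := hO D hD
  obtain ⟨hnm, hnl, hnp, -, -, -, ⟨C₀, hC₀, hbd⟩, -⟩ := hnu D hD
  rcases K.eq_empty_or_nonempty with hKe | hKne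
  · refine ⟨0, ENNReal.zero_ne_top, fun x y => ?_⟩
    unfold Dat.N
    simp [hKe]
  have hK1 : IsCompact (Prod.fst '' K) := hK.image continuous_fst
  have hK2 : IsCompact (Prod.snd '' K) := hK.image continuous_snd
  obtain ⟨n0, hn0⟩ := hO7 _ hK2
  have hsub : Prod.snd '' K ⊆ D.O ^ (n0 + 1) := hn0.trans (hO4 n0 (n0 + 1) (Nat.le_succ _))
  obtain ⟨a, ha, hmin⟩ := LowerSemicontinuousOn.exists_isMinOn (hKne.image Prod.snd) hK2
    ((hnl (n0 + 1)).lowerSemicontinuousOn _)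
  have ha0 : D.nu (n0 + 1) a ≠ 0 := ((hnp (n0 + 1) (by omega) a).mpr (hsub ha)).ne'
  have hat : D.nu (n0 + 1) a ≠ ∞ := ne_top_of_le_ne_top hC₀ (hbd _ _)
  obtain ⟨C, hC, hCb⟩ := hUp D hD ((Prod.fst '' K).indicator fun _ => 1)
    (measurable_const.indicator hK1.measurableSet)
    ⟨1, ENNReal.one_ne_top, fun g => Set.indicator_le_self' (fun _ _ => zero_le) g⟩
    ⟨Prod.fst '' K, hK1, fun g hg => Set.indicator_of_notMem hg _⟩
  refine ⟨(D.nu (n0 + 1) a)⁻¹ * C, ENNReal.mul_ne_top (ENNReal.inv_ne_top.mpr ha0) hC,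
    fun x y => ?_⟩
  calc D.N (K.indicator fun _ => 1) x y
      ≤ ∑' u : D.Γ, (D.nu (n0 + 1) a)⁻¹ *
          D.tk ((Prod.fst '' K).indicator fun _ => 1) (n0 + 1) (x⁻¹ * (u : P × H) * y) := by
        unfold Dat.N
        refine ENNReal.tsum_le_tsum fun u => ?_
        by_cases hg : x⁻¹ * (u : P × H) * y ∈ K
        · rw [Set.indicator_of_mem hg]
          unfold Dat.tk
          rw [Set.indicator_of_mem (Set.mem_image_of_mem Prod.fst hg), one_mul]
          have h1 : D.nu (n0 + 1) a ≤ D.nu (n0 + 1) (x⁻¹ * (u : P × H) * y).2 :=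
            hmin (Set.mem_image_of_mem Prod.snd hg)
          calc (1 : ℝ≥0∞) = (D.nu (n0 + 1) a)⁻¹ * D.nu (n0 + 1) a :=
                (ENNReal.inv_mul_cancel ha0 hat).symm
            _ ≤ _ := by gcongr
        · rw [Set.indicator_of_notMem hg]
          exact zero_le
    _ = (D.nu (n0 + 1) a)⁻¹ *
          D.N (D.tk ((Prod.fst '' K).indicator fun _ => 1) (n0 + 1)) x y := by
        unfold Dat.N
        rw [ENNReal.tsum_mul_left]
    _ ≤ (D.nu (n0 + 1) a)⁻¹ * C := by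
        gcongr
        exact hCb _ _ _

/-- The bound for functions with values in `ℝ≥0∞`. -/
private theorem loc_F (hi : S_inst P H) (hO : S_O P H) (hnu : S_nu P H) (hUp : S_Up P H)
    (D : Dat P H) (hD : D.Ok) (K : Set (P × H)) (hK : IsCompact K) :
    ∃ C : ℝ≥0∞, C ≠ ∞ ∧ ∀ (y : P × H) (F : P × H → ℝ≥0∞), Measurable F →
      (∀ γ ∈ D.Γ, ∀ x, F (γ * x) = F x) →
      ∫⁻ k in K, F (y * k) ∂D.μ ≤ C * ∫⁻ x, D.χ x * F x ∂D.μ := by
  obtain ⟨C, hC, hN⟩ := loc_N P H hO hnu hUp D hD K hK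
  refine ⟨C, hC, fun y F hF hinv => ?_⟩
  obtain ⟨-, -, -, h4, -, h6, -⟩ := hi D hD
  have hχ := hD.χm
  have hKm : MeasurableSet K := hK.measurableSet
  have hI : Measurable (K.indicator fun _ => (1 : ℝ≥0∞)) := measurable_const.indicator hKm
  have e1 : ∫⁻ k in K, F (y * k) ∂D.μ =
      ∫⁻ x, K.indicator (fun _ => (1 : ℝ≥0∞)) (y⁻¹ * x) * F x ∂D.μ := by
    rw [← lintegral_indicator hKm,
      ← lintegral_mul_left_eq_self
        (fun x => K.indicator (fun _ => (1 : ℝ≥0∞)) (y⁻¹ * x) * F x) y]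
    refine lintegral_congr fun x => ?_
    rw [inv_mul_cancel_left]
    by_cases hx : x ∈ K
    · rw [Set.indicator_of_mem hx, Set.indicator_of_mem hx, one_mul]
    · rw [Set.indicator_of_notMem hx, Set.indicator_of_notMem hx, zero_mul]
  have e2 : ∫⁻ x, K.indicator (fun _ => (1 : ℝ≥0∞)) (y⁻¹ * x) * F x ∂D.μ =
      ∑' γ : D.Γ, ∫⁻ x, D.χ ((γ : P × H) * x) *
        (K.indicator (fun _ => (1 : ℝ≥0∞)) (y⁻¹ * x) * F x) ∂D.μ := by
    rw [← lintegral_tsum]
    · refine lintegral_congr fun x => ?_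
      rw [ENNReal.tsum_mul_right, hD.χs, one_mul]
    · intro γ
      exact ((hχ.comp (measurable_const_mul _)).mul
        ((hI.comp (measurable_const_mul _)).mul hF)).aemeasurable
  have e3 : ∀ γ : D.Γ, ∫⁻ x, D.χ ((γ : P × H) * x) *
        (K.indicator (fun _ => (1 : ℝ≥0∞)) (y⁻¹ * x) * F x) ∂D.μ =
      ∫⁻ x, D.χ x * (K.indicator (fun _ => (1 : ℝ≥0∞))
        (y⁻¹ * ((γ⁻¹ : D.Γ) : P × H) * x) * F x) ∂D.μ := by
    intro γ
    rw [← lintegral_mul_left_eq_self (fun x => D.χ x * (K.indicator (fun _ => (1 : ℝ≥0∞))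
        (y⁻¹ * ((γ⁻¹ : D.Γ) : P × H) * x) * F x)) (γ : P × H)]
    refine lintegral_congr fun x => ?_
    rw [hinv _ γ.2, Subgroup.coe_inv, mul_assoc, inv_mul_cancel_left]
  have e4 : ∑' γ : D.Γ, ∫⁻ x, D.χ x * (K.indicator (fun _ => (1 : ℝ≥0∞))
        (y⁻¹ * ((γ⁻¹ : D.Γ) : P × H) * x) * F x) ∂D.μ =
      ∫⁻ x, D.χ x * (D.N (K.indicator fun _ => 1) y x * F x) ∂D.μ := by
    rw [← lintegral_tsum]
    · refine lintegral_congr fun x => ?_
      rw [ENNReal.tsum_mul_left, ENNReal.tsum_mul_right]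
      congr 2
      unfold Dat.N
      exact (Equiv.inv D.Γ).tsum_eq
        (fun γ : D.Γ => K.indicator (fun _ => (1 : ℝ≥0∞)) (y⁻¹ * (γ : P × H) * x))
    · intro γ
      exact (hχ.mul ((hI.comp (measurable_const_mul _)).mul hF)).aemeasurable
  rw [e1, e2, tsum_congr e3, e4, ← lintegral_const_mul' _ _ hC]
  refine lintegral_mono fun x => ?_
  calc D.χ x * (D.N (K.indicator fun _ => 1) y x * F x) ≤ D.χ x * (C * F x) := by
        gcongr
        exact hN _ _
    _ = C * (D.χ x * F x) := by ring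

theorem tloc : S_inst P H → S_O P H → S_nu P H → S_Up P H → S_loc P H := by
  intro hi hO hnu hUp D hD K hK
  obtain ⟨C, hC, hF⟩ := loc_F P H hi hO hnu hUp D hD K hK
  refine ⟨C.toReal, ENNReal.toReal_nonneg, fun y f hf => ?_⟩
  obtain ⟨C₁, hC₁⟩ := hf.bdd
  have h1 : Measurable fun x => ENNReal.ofReal (f x ^ 2) := (hf.meas.pow_const 2).ennreal_ofReal
  have h2 := hF y (fun x => ENNReal.ofReal (f x ^ 2)) h1 (fun γ hγ x => by rw [hf.inv γ hγ])
  have e1 : ∫ k in K, f (y * k) ^ 2 ∂D.μ =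
      (∫⁻ k in K, ENNReal.ofReal (f (y * k) ^ 2) ∂D.μ).toReal := by
    refine integral_eq_lintegral_of_nonneg_ae (Filter.Eventually.of_forall fun x => sq_nonneg _) ?_
    exact ((hf.meas.comp (measurable_const_mul y)).pow_const 2).aestronglyMeasurable
  have e2 : ns D f = (∫⁻ x, D.χ x * ENNReal.ofReal (f x ^ 2) ∂D.μ).toReal := by
    unfold ns ip
    rw [integral_eq_lintegral_of_nonneg_ae]
    · congr 1
      refine lintegral_congr fun x => ?_
      have hx : D.χ x ≠ ∞ := ne_top_of_le_ne_top ENNReal.one_ne_top (hD.χ1 x)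
      rw [ENNReal.ofReal_mul ENNReal.toReal_nonneg, ENNReal.ofReal_toReal hx, sq]
    · exact Filter.Eventually.of_forall fun x =>
        mul_nonneg ENNReal.toReal_nonneg (mul_self_nonneg _)
    · exact (hD.χm.ennreal_toReal.mul (hf.meas.mul hf.meas)).aestronglyMeasurable
  have h3 : ∫⁻ x, D.χ x * ENNReal.ofReal (f x ^ 2) ∂D.μ ≠ ∞ := by
    have h4 : ∫⁻ x, D.χ x * ENNReal.ofReal (f x ^ 2) ∂D.μ ≤ ENNReal.ofReal (C₁ ^ 2) := by
      calc ∫⁻ x, D.χ x * ENNReal.ofReal (f x ^ 2) ∂D.μ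
          ≤ ∫⁻ x, D.χ x * ENNReal.ofReal (C₁ ^ 2) ∂D.μ := by
            refine lintegral_mono fun x => ?_
            have h5 : f x ^ 2 ≤ C₁ ^ 2 := by
              rw [← sq_abs (f x)]
              exact pow_le_pow_left₀ (abs_nonneg _) (hC₁ x) 2
            exact mul_le_mul_right (ENNReal.ofReal_le_ofReal h5) _
        _ = ENNReal.ofReal (C₁ ^ 2) := by
            rw [lintegral_mul_const _ hD.χm, hD.mass, one_mul]
    exact ne_top_of_le_ne_top ENNReal.ofReal_ne_top h4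
  rw [e1, e2, ← ENNReal.toReal_mul]
  exact ENNReal.toReal_mono (ENNReal.mul_ne_top hC h3) h2

end Pool.Agent.MPEF
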