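import Pool.Agent.Lib.MP_ef3f0f_gt.Q.Spec

set_option autoImplicit false

/-! MP_ef3f0f_gt, part II, module var: the variance inequality. -/

namespace Pool.Agent.MPEF

open MeasureTheory Topology
open scoped ENNReal Pointwise

variable (P H : Type) [Group P] [Group H] [TopologicalSpace P] [TopologicalSpace H]
  [IsTopologicalGroup P] [IsTopologicalGroup H] [LocallyCompactSpace P] [LocallyCompactSpace H]
  [T2Space P] [T2Space H] [SecondCountableTopology P] [SecondCountableTopology H]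
  [MeasurableSpace P] [MeasurableSpace H] [BorelSpace P] [BorelSpace H]

private theorem var_unf (hunf : S_unf P H) (D : Dat P H) (hD : D.Ok) (E : Set (P × H))
    (hE : MeasurableSet E) (hcov : ∀ x : P × H, ∃ γ ∈ D.Γ, γ * x ∈ E) (F : P × H → ℝ)
    (hF : Measurable F) (hinv : ∀ γ ∈ D.Γ, ∀ x, F (γ * x) = F x) :
    ∫⁻ x, D.χ x * ENNReal.ofReal (F x) ∂D.μ ≤ ∫⁻ x in E, ENNReal.ofReal (F x) ∂D.μ := by
  have h1 := hunf D hD (E.indicator fun x => ENNReal.ofReal (F x)) (hF.ennreal_ofReal.indicator hE)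
  rw [lintegral_indicator hE] at h1
  rw [← h1]
  unfold Dat.IM
  refine lintegral_mono (fun x => ?_)
  refine mul_le_mul_right ?_ (D.χ x)
  obtain ⟨γ, hγ, hx⟩ := hcov x
  have h2 := ENNReal.le_tsum (f := fun γ : D.Γ =>
    E.indicator (fun x => ENNReal.ofReal (F x)) ((γ : P × H) * x)) ⟨γ, hγ⟩
  refine le_trans (le_of_eq ?_) h2
  rw [Set.indicator_of_mem hx, hinv γ hγ x]

private theorem var_real (hunf : S_unf P H) (D : Dat P H) (hD : D.Ok) (E : Set (P × H))
    (hE : MeasurableSet E) (hfin : D.μ E ≠ ∞) (hcov : ∀ x : P × H, ∃ γ ∈ D.Γ, γ * x ∈ E)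
    (F : P × H → ℝ) (hF : Measurable F) (hF0 : ∀ x, 0 ≤ F x) (hFb : ∃ C : ℝ, ∀ x, |F x| ≤ C)
    (hinv : ∀ γ ∈ D.Γ, ∀ x, F (γ * x) = F x) :
    ∫ x, (D.χ x).toReal * F x ∂D.μ ≤ ∫ x in E, F x ∂D.μ := by
  have hχ : ∀ x, D.χ x ≠ ∞ := fun x => ne_top_of_le_ne_top ENNReal.one_ne_top (hD.χ1 x)
  obtain ⟨C, hC⟩ := hFb
  rw [integral_eq_lintegral_of_nonneg_ae (Filter.Eventually.of_forall
      (fun x => mul_nonneg ENNReal.toReal_nonneg (hF0 x)))
      (hD.χm.ennreal_toReal.mul hF).aestronglyMeasurable,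
    integral_eq_lintegral_of_nonneg_ae (Filter.Eventually.of_forall hF0)
      hF.aestronglyMeasurable]
  refine ENNReal.toReal_mono ?_ ?_
  · have h1 : ∫⁻ x in E, ENNReal.ofReal (F x) ∂D.μ ≤ ∫⁻ _ in E, ENNReal.ofReal C ∂D.μ :=
      lintegral_mono (fun x => ENNReal.ofReal_le_ofReal (le_trans (le_abs_self _) (hC x)))
    rw [setLIntegral_const] at h1
    exact ne_top_of_le_ne_top (ENNReal.mul_ne_top ENNReal.ofReal_ne_top hfin) h1
  · refine le_trans (le_of_eq ?_) (var_unf P H hunf D hD E hE hcov F hF hinv)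
    refine lintegral_congr (fun x => ?_)
    rw [ENNReal.ofReal_mul ENNReal.toReal_nonneg, ENNReal.ofReal_toReal (hχ x)]

theorem tvar : S_inst P H → S_unf P H → S_BI P H → S_var P H := by
  intro hinst hunf hBI D hD E K hE hK hEK hcov g hg hmn
  obtain ⟨-, -, -, -, hhaar, -, -, -, -⟩ := hinst D hD
  obtain ⟨-, -, hconst, hint2, hint1, -, -, -, -, hns0, -, -, -, hmnc, -, -, -⟩ := hBI D hD
  have hfin : D.μ E ≠ ∞ := ne_top_of_le_ne_top hK.measure_lt_top.ne (measure_mono hEK)
  have : IsFiniteMeasure (D.μ.restrict E) := ⟨by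
    rw [Measure.restrict_apply_univ]
    exact lt_top_iff_ne_top.2 hfin⟩
  obtain ⟨C, hC⟩ := hg.bdd
  have hC0 : 0 ≤ C := le_trans (abs_nonneg _) (hC 1)
  -- integrability
  have i0 : Integrable (fun x => (D.χ x).toReal * (1 : ℝ)) D.μ := hint1 _ (hconst 1)
  have i1 : Integrable (fun x => (D.χ x).toReal * g x) D.μ := hint1 g hg
  have i2 : Integrable (fun x => (D.χ x).toReal * (g x * g x)) D.μ := hint2 g g hg hg
  have e0 : ∫ x, (D.χ x).toReal * (1 : ℝ) ∂D.μ = 1 := hmnc 1
  have e1 : ∫ x, (D.χ x).toReal * g x ∂D.μ = 0 := hmn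
  have e2 : ∫ x, (D.χ x).toReal * (g x * g x) ∂D.μ = ns D g := rfl
  have hinner : ∀ c : ℝ, ∫ x, (D.χ x).toReal * (c - g x) ^ 2 ∂D.μ = c ^ 2 + ns D g := by
    intro c
    have h1 : (fun x => (D.χ x).toReal * (c - g x) ^ 2) = fun x =>
        c ^ 2 * ((D.χ x).toReal * (1 : ℝ)) - 2 * c * ((D.χ x).toReal * g x) +
          (D.χ x).toReal * (g x * g x) := by
      funext x
      ring
    have k0 : Integrable (fun x => c ^ 2 * ((D.χ x).toReal * (1 : ℝ))) D.μ := i0.const_mul _
    have k1 : Integrable (fun x => 2 * c * ((D.χ x).toReal * g x)) D.μ := i1.const_mul _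
    have k2 : Integrable (fun x => c ^ 2 * ((D.χ x).toReal * (1 : ℝ)) -
      2 * c * ((D.χ x).toReal * g x)) D.μ := k0.sub k1
    rw [h1, integral_add k2 i2, integral_sub k0 k1, integral_const_mul, integral_const_mul,
      e0, e1, e2]
    ring
  have houter : ∫ x, (D.χ x).toReal * (g x ^ 2 + ns D g) ∂D.μ = 2 * ns D g := by
    have h1 : (fun x => (D.χ x).toReal * (g x ^ 2 + ns D g)) = fun x =>
        (D.χ x).toReal * (g x * g x) + ns D g * ((D.χ x).toReal * (1 : ℝ)) := by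
      funext x
      ring
    have k0 : Integrable (fun x => ns D g * ((D.χ x).toReal * (1 : ℝ))) D.μ := i0.const_mul _
    rw [h1, integral_add i2 k0, integral_const_mul, e0, e2]
    ring
  have hsq : ∀ x, g x ^ 2 ≤ C ^ 2 := fun x => sq_le_sq' (abs_le.1 (hC x)).1 (abs_le.1 (hC x)).2
  -- the first estimate
  have h1 : 2 * ns D g ≤ ∫ x in E, (g x ^ 2 + ns D g) ∂D.μ := by
    rw [← houter]
    refine var_real P H hunf D hD E hE hfin hcov (fun x => g x ^ 2 + ns D g)
      ((hg.meas.pow_const 2).add_const _) (fun x => add_nonneg (sq_nonneg _) (hns0 g))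
      ⟨C ^ 2 + ns D g, fun x => ?_⟩ (fun γ hγ x => by simp only [hg.inv γ hγ x])
    rw [abs_of_nonneg (add_nonneg (sq_nonneg _) (hns0 g))]
    have := hsq x
    linarith
  -- the second estimate
  have h2 : ∀ x, g x ^ 2 + ns D g ≤ ∫ x' in E, (g x - g x') ^ 2 ∂D.μ := by
    intro x
    rw [← hinner (g x)]
    refine var_real P H hunf D hD E hE hfin hcov (fun x' => (g x - g x') ^ 2)
      ((measurable_const.sub hg.meas).pow_const 2) (fun x' => sq_nonneg _)
      ⟨(2 * C) ^ 2, fun x' => ?_⟩ (fun γ hγ x' => by simp only [hg.inv γ hγ x'])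
    rw [abs_of_nonneg (sq_nonneg _)]
    have h3 := abs_le.1 (hC x)
    have h4 := abs_le.1 (hC x')
    exact sq_le_sq' (by linarith) (by linarith)
  -- integrability on E
  have j1 : Integrable g (D.μ.restrict E) :=
    Integrable.of_bound hg.meas.aestronglyMeasurable C
      (Filter.Eventually.of_forall (fun x => by rw [Real.norm_eq_abs]; exact hC x))
  have j2 : Integrable (fun x => g x ^ 2) (D.μ.restrict E) :=
    Integrable.of_bound (hg.meas.pow_const 2).aestronglyMeasurable (C ^ 2)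
      (Filter.Eventually.of_forall (fun x => by
        rw [Real.norm_eq_abs, abs_of_nonneg (sq_nonneg _)]
        exact hsq x))
  have h5 : ∀ x, ∫ x' in E, (g x - g x') ^ 2 ∂D.μ =
      (D.μ.restrict E).real Set.univ * g x ^ 2 - (2 * ∫ x' in E, g x' ∂D.μ) * g x +
        ∫ x' in E, g x' ^ 2 ∂D.μ := by
    intro x
    have h6 : (fun x' => (g x - g x') ^ 2) = fun x' => g x ^ 2 - (2 * g x) * g x' + g x' ^ 2 := by
      funext x'
      ring
    have k0 : Integrable (fun _ : P × H => g x ^ 2) (D.μ.restrict E) := integrable_const (g x ^ 2)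
    have k1 : Integrable (fun x' : P × H => 2 * g x * g x') (D.μ.restrict E) := j1.const_mul _
    have k2 : Integrable (fun x' : P × H => g x ^ 2 - 2 * g x * g x') (D.μ.restrict E) := k0.sub k1
    rw [h6, integral_add k2 j2, integral_sub k0 k1, integral_const_mul, integral_const,
      smul_eq_mul]
    ring
  have j3 : Integrable (fun x => ∫ x' in E, (g x - g x') ^ 2 ∂D.μ) (D.μ.restrict E) := by
    have h6 : (fun x => ∫ x' in E, (g x - g x') ^ 2 ∂D.μ) = fun x =>
        (D.μ.restrict E).real Set.univ * g x ^ 2 - (2 * ∫ x' in E, g x' ∂D.μ) * g x +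
        ∫ x' in E, g x' ^ 2 ∂D.μ := funext h5
    rw [h6]
    exact ((j2.const_mul _).sub (j1.const_mul _)).add (integrable_const _)
  refine h1.trans ?_
  exact integral_mono (j2.add (integrable_const _)) j3 h2

end Pool.Agent.MPEF
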